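import Pool.Agent.Work.MP_333fa2_co.Struct

/-!
Copies of a graph with pendant edges.
-/

namespace Pool.Agent.Work.MP_333fa2_co

open Finset
open scoped Classical

variable {W : Type*} [Fintype W] {T : Type*} [Fintype T]

/-- labelled copies of `H` in `G` -/
noncomputable def copies (H : SimpleGraph T) (G : SimpleGraph W) : Finset (T → W) :=
  univ.filter (fun f => Function.Injective f ∧ ∀ a b, H.Adj a b → G.Adj (f a) (f b))

lemma mem_copies {H : SimpleGraph T} {G : SimpleGraph W} {f : T → W} :
    f ∈ copies H G ↔ Function.Injective f ∧ ∀ a b, H.Adj a b → G.Adj (f a) (f b) := by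
  simp [copies]

/-- monochromatic labelled copies -/
noncomputable def mono (H : SimpleGraph T) (R : SimpleGraph W) : Finset (T → W) :=
  univ.filter (fun f => Function.Injective f ∧ ((∀ a b, H.Adj a b → R.Adj (f a) (f b)) ∨
    (∀ a b, H.Adj a b → Rᶜ.Adj (f a) (f b))))

lemma mem_mono {H : SimpleGraph T} {R : SimpleGraph W} {f : T → W} :
    f ∈ mono H R ↔ Function.Injective f ∧ ((∀ a b, H.Adj a b → R.Adj (f a) (f b)) ∨
    (∀ a b, H.Adj a b → Rᶜ.Adj (f a) (f b))) := by
  simp [mono]

lemma mono_eq_union (H : SimpleGraph T) (R : SimpleGraph W) :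
    mono H R = copies H R ∪ copies H Rᶜ := by
  ext f
  rw [mem_mono, Finset.mem_union, mem_copies, mem_copies]
  tauto

lemma mono_compl (H : SimpleGraph T) (R : SimpleGraph W) : mono H Rᶜ = mono H R := by
  rw [mono_eq_union, mono_eq_union, compl_compl, Finset.union_comm]

lemma copies_subset_mono (H : SimpleGraph T) (R : SimpleGraph W) : copies H R ⊆ mono H R := by
  rw [mono_eq_union]; exact Finset.subset_union_left

lemma copies_disjoint {H : SimpleGraph T} (R : SimpleGraph W) {a b : T} (hab : H.Adj a b) :
    Disjoint (copies H R) (copies H Rᶜ) := by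
  rw [Finset.disjoint_left]
  intro f h1 h2
  rw [mem_copies] at h1 h2
  have := h2.2 a b hab
  rw [SimpleGraph.compl_adj] at this
  exact this.2 (h1.2 a b hab)

lemma card_mono {H : SimpleGraph T} (R : SimpleGraph W) {a b : T} (hab : H.Adj a b) :
    (mono H R).card = (copies H R).card + (copies H Rᶜ).card := by
  rw [mono_eq_union, Finset.card_union_of_disjoint (copies_disjoint R hab)]

/-- the mono copies using the vertex `v` -/
noncomputable def monoAt (H : SimpleGraph T) (R : SimpleGraph W) (v : W) : Finset (T → W) :=
  (mono H R).filter (fun f => ∃ a, f a = v)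

lemma mem_monoAt {H : SimpleGraph T} {R : SimpleGraph W} {v : W} {f : T → W} :
    f ∈ monoAt H R v ↔ f ∈ mono H R ∧ ∃ a, f a = v := by
  simp [monoAt]

/-- `R` minimises the number of monochromatic copies -/
def Optimal (H : SimpleGraph T) (R : SimpleGraph W) : Prop :=
  ∀ R' : SimpleGraph W, (mono H R).card ≤ (mono H R').card

lemma Optimal.compl {H : SimpleGraph T} {R : SimpleGraph W} (h : Optimal H R) : Optimal H Rᶜ := by
  intro R'
  rw [mono_compl]
  exact h R'

lemma sum_monoAt (H : SimpleGraph T) (R : SimpleGraph W) :
    ∑ v, (monoAt H R v).card = Fintype.card T * (mono H R).card := by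
  have h1 : ∀ v, (monoAt H R v).card = ∑ f ∈ mono H R, (if ∃ a, f a = v then 1 else 0) := by
    intro v
    rw [monoAt, Finset.card_filter]
  rw [Finset.sum_congr rfl (fun v _ => h1 v), Finset.sum_comm]
  have h2 : ∀ f ∈ mono H R, ∑ v, (if ∃ a, f a = v then 1 else 0) = Fintype.card T := by
    intro f hf
    rw [← Finset.card_filter]
    have : (univ.filter (fun v => ∃ a, f a = v)) = univ.image f := by
      ext v; simp
    rw [this, Finset.card_image_of_injective _ (mem_mono.1 hf).1, Finset.card_univ]
  rw [Finset.sum_congr rfl h2, Finset.sum_const, smul_eq_mul, mul_comm]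

/-- number of functions with two prescribed values -/
lemma card_two_values (a b : T) (hab : a ≠ b) (u v : W) :
    (univ.filter (fun f : T → W => f a = u ∧ f b = v)).card ≤
      Fintype.card W ^ (Fintype.card T - 2) := by
  have hsub : univ.filter (fun f : T → W => f a = u ∧ f b = v) ⊆
      Fintype.piFinset (fun z => if z = a then {u} else if z = b then {v} else univ) := by
    intro f hf
    rw [Finset.mem_filter] at hf
    rw [Fintype.mem_piFinset]
    intro z
    by_cases hza : z = a
    · subst hza; simp [hf.2.1]
    · by_cases hzb : z = b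
      · subst hzb; simp [hza, hf.2.2]
      · simp [hza, hzb]
  refine (Finset.card_le_card hsub).trans ?_
  rw [Fintype.card_piFinset]
  have h1 : ∀ z ∈ (univ : Finset T), ((if z = a then ({u} : Finset W) else if z = b then {v}
      else univ).card) = if z ∈ ((univ.erase a).erase b) then Fintype.card W else 1 := by
    intro z _
    by_cases hza : z = a
    · subst hza; simp
    · by_cases hzb : z = b
      · subst hzb; simp [hza]
      · simp [hza, hzb]
  rw [Finset.prod_congr rfl h1, Finset.prod_ite_mem, Finset.prod_const, Finset.univ_inter]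
  rw [Finset.card_erase_of_mem (by simp [hab.symm]), Finset.card_erase_of_mem (by simp),
    Finset.card_univ, Nat.sub_sub]

lemma card_both (u v : W) (huv : u ≠ v) :
    (univ.filter (fun f : T → W => (∃ a, f a = u) ∧ ∃ b, f b = v)).card ≤
      Fintype.card T ^ 2 * Fintype.card W ^ (Fintype.card T - 2) := by
  have hsub : univ.filter (fun f : T → W => (∃ a, f a = u) ∧ ∃ b, f b = v) ⊆
      ((univ : Finset (T × T)).filter (fun p => p.1 ≠ p.2)).biUnion
        (fun p => univ.filter (fun f : T → W => f p.1 = u ∧ f p.2 = v)) := by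
    intro f hf
    rw [Finset.mem_filter] at hf
    obtain ⟨_, ⟨a, ha⟩, b, hb⟩ := hf
    rw [Finset.mem_biUnion]
    refine ⟨(a, b), ?_, ?_⟩
    · rw [Finset.mem_filter]
      refine ⟨Finset.mem_univ _, ?_⟩
      rintro h
      simp only at h
      subst h
      exact huv (ha.symm.trans hb)
    · rw [Finset.mem_filter]
      exact ⟨Finset.mem_univ _, ha, hb⟩
  refine (Finset.card_le_card hsub).trans ?_
  refine Finset.card_biUnion_le.trans ?_
  calc _ ≤ ∑ _p ∈ (univ : Finset (T × T)).filter (fun p => p.1 ≠ p.2),
        Fintype.card W ^ (Fintype.card T - 2) := by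
        apply Finset.sum_le_sum
        intro p hp
        exact card_two_values p.1 p.2 (Finset.mem_filter.1 hp).2 u v
    _ ≤ ∑ _p ∈ (univ : Finset (T × T)), Fintype.card W ^ (Fintype.card T - 2) :=
        Finset.sum_le_sum_of_subset (Finset.filter_subset _ _)
    _ = _ := by
        rw [Finset.sum_const, Finset.card_univ, Fintype.card_prod, smul_eq_mul, pow_two]

/-- cloning inequality -/
lemma clone_ineq {H : SimpleGraph T} {R : SimpleGraph W} (hopt : Optimal H R) (u v : W)
    (huv : u ≠ v) :
    (monoAt H R v).card ≤ (monoAt H R u).card +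
      Fintype.card T ^ 2 * Fintype.card W ^ (Fintype.card T - 2) := by
  set g : W → W := fun x => if x = v then u else x with hg
  have hgv : g v = u := by simp [hg]
  have hgx : ∀ x, x ≠ v → g x = x := by intro x hx; simp [hg, hx]
  set R' : SimpleGraph W := R.comap g with hR'
  have h1 := hopt R'
  -- partition the copies of R'
  have hsub : mono H R' ⊆ ((mono H R).filter (fun f => ¬ ∃ a, f a = v)) ∪
      ((monoAt H R u).image (fun f x => Equiv.swap u v (f x))) ∪
      (univ.filter (fun f : T → W => (∃ a, f a = u) ∧ ∃ b, f b = v)) := by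
    intro f hf
    rw [mem_mono] at hf
    obtain ⟨hinj, hf⟩ := hf
    rw [Finset.mem_union, Finset.mem_union]
    by_cases hv : ∃ a, f a = v
    · by_cases hu : ∃ a, f a = u
      · right
        rw [Finset.mem_filter]; exact ⟨Finset.mem_univ _, hu, hv⟩
      · left; right
        rw [Finset.mem_image]
        push Not at hu
        have hgf : ∀ x, g (f x) = Equiv.swap u v (f x) := by
          intro x
          by_cases h : f x = v
          · rw [h, hgv, Equiv.swap_apply_right]
          · rw [hgx _ h, Equiv.swap_apply_of_ne_of_ne (hu x) h]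
        have hinj' : Function.Injective (fun x => g (f x)) := by
          intro x y hxy
          simp only [hgf] at hxy
          exact hinj ((Equiv.swap u v).injective hxy)
        refine ⟨fun x => g (f x), ?_, ?_⟩
        · rw [mem_monoAt, mem_mono]
          refine ⟨⟨hinj', ?_⟩, ?_⟩
          · rcases hf with h | h
            · left
              intro a b hab
              exact h a b hab
            · right
              intro a b hab
              have h2 := h a b hab
              rw [SimpleGraph.compl_adj] at h2 ⊢
              refine ⟨fun h3 => ?_, h2.2⟩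
              exact hab.ne (hinj' h3)
          · obtain ⟨a, ha⟩ := hv
            exact ⟨a, by rw [ha, hgv]⟩
        · funext x
          show Equiv.swap u v (g (f x)) = f x
          rw [hgf, Equiv.swap_apply_self]
    · left; left
      rw [Finset.mem_filter]
      refine ⟨?_, hv⟩
      push Not at hv
      have hgf : ∀ x, g (f x) = f x := fun x => hgx _ (hv x)
      rw [mem_mono]
      refine ⟨hinj, ?_⟩
      rcases hf with h | h
      · left
        intro a b hab
        have h2 := h a b hab
        rw [hR', SimpleGraph.comap_adj, hgf, hgf] at h2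
        exact h2
      · right
        intro a b hab
        have h2 := h a b hab
        rw [SimpleGraph.compl_adj, hR', SimpleGraph.comap_adj, hgf, hgf] at h2
        rw [SimpleGraph.compl_adj]
        exact h2
  have h2 := Finset.card_le_card hsub
  have h3 : (mono H R).card = (monoAt H R v).card +
      ((mono H R).filter (fun f => ¬ ∃ a, f a = v)).card :=
    (Finset.card_filter_add_card_filter_not _).symm
  have h4 := card_both (T := T) u v huv
  have h5 : ((monoAt H R u).image (fun f x => Equiv.swap u v (f x))).card ≤ (monoAt H R u).card :=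
    Finset.card_image_le
  have h6 := Finset.card_union_le (((mono H R).filter (fun f => ¬ ∃ a, f a = v)) ∪
      ((monoAt H R u).image (fun f x => Equiv.swap u v (f x))))
      (univ.filter (fun f : T → W => (∃ a, f a = u) ∧ ∃ b, f b = v))
  have h7 := Finset.card_union_le ((mono H R).filter (fun f => ¬ ∃ a, f a = v))
      ((monoAt H R u).image (fun f x => Equiv.swap u v (f x)))
  omega

/-- every vertex is in about the average number of copies -/
lemma monoAt_le {H : SimpleGraph T} {R : SimpleGraph W} (hopt : Optimal H R) (v : W) :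
    Fintype.card W * (monoAt H R v).card ≤ Fintype.card T * (mono H R).card +
      Fintype.card W * (Fintype.card T ^ 2 * Fintype.card W ^ (Fintype.card T - 2)) := by
  rw [← sum_monoAt H R]
  have h1 : ∀ u ∈ (univ : Finset W), (monoAt H R v).card ≤ (monoAt H R u).card +
      Fintype.card T ^ 2 * Fintype.card W ^ (Fintype.card T - 2) := by
    intro u _
    by_cases h : u = v
    · rw [h]; exact Nat.le_add_right _ _
    · exact clone_ineq hopt u v h
  have h2 := Finset.sum_le_sum h1
  rw [Finset.sum_const, Finset.sum_add_distrib, Finset.sum_const, Finset.card_univ, smul_eq_mul,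
    smul_eq_mul] at h2
  exact h2

/-- `K_k` with pendant vertices `p`, `p` being attached to the clique vertex `a p` -/
def pend {k s : ℕ} (a : Fin s → Fin k) : SimpleGraph (Fin k ⊕ Fin s) where
  Adj x y := match x, y with
    | .inl i, .inl j => i ≠ j
    | .inl i, .inr p => a p = i
    | .inr p, .inl i => a p = i
    | .inr _, .inr _ => False
  symm := ⟨by
    intro x y h
    rcases x with x | x <;> rcases y with y | y
    · exact Ne.symm h
    · exact h
    · exact h
    · exact h⟩
  loopless := ⟨by
    intro x h
    rcases x with x | x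
    · exact h rfl
    · exact h⟩

lemma pend_inl_inl {k s : ℕ} (a : Fin s → Fin k) (i j : Fin k) :
    (pend a).Adj (Sum.inl i) (Sum.inl j) ↔ i ≠ j := Iff.rfl

lemma pend_inl_inr {k s : ℕ} (a : Fin s → Fin k) (i : Fin k) (p : Fin s) :
    (pend a).Adj (Sum.inl i) (Sum.inr p) ↔ a p = i := Iff.rfl

lemma pend_inr_inl {k s : ℕ} (a : Fin s → Fin k) (i : Fin k) (p : Fin s) :
    (pend a).Adj (Sum.inr p) (Sum.inl i) ↔ a p = i := Iff.rfl

lemma pend_inr_inr {k s : ℕ} (a : Fin s → Fin k) (p q : Fin s) :
    ¬ (pend a).Adj (Sum.inr p) (Sum.inr q) := fun h => h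

/-- extending cliques to copies -/
lemma ext_lower {k s : ℕ} (a : Fin s → Fin k) (G : SimpleGraph W) (Q : Finset (Fin k → W))
    (hQ : ∀ x ∈ Q, ∀ i l, i ≠ l → G.Adj (x i) (x l)) (D : Fin k → ℝ) (hD : ∀ i, 0 ≤ D i)
    (hdeg : ∀ x ∈ Q, ∀ i, D i + k + s ≤ (dg G (x i) : ℝ)) :
    (Q.card : ℝ) * ∏ p, D (a p) ≤
      (((copies (pend a) G).filter (fun f => (fun i => f (Sum.inl i)) ∈ Q)).card : ℝ) := by
  set Y : (Fin k → W) → Finset (Fin s → W) := fun x =>
    cl (⊤ : SimpleGraph W) (fun p => (univ.filter (fun y => G.Adj (x (a p)) y)) \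
      (univ.image x)) with hY
  have hYcard : ∀ x ∈ Q, ∏ p, D (a p) ≤ ((Y x).card : ℝ) := by
    intro x hx
    apply gc (⊤ : SimpleGraph W) (q := 1) zero_le_one
    · intro p; exact hD _
    · intro p
      have h1 := hdeg x hx (a p)
      have h2 : (univ.filter (fun y => G.Adj (x (a p)) y)).card ≤
          ((univ.filter (fun y => G.Adj (x (a p)) y)) \ (univ.image x)).card + k := by
        have h3 := Finset.card_le_card_sdiff_add_card
          (s := univ.filter (fun y => G.Adj (x (a p)) y)) (t := univ.image x)
        have h4 : (univ.image x).card ≤ k := by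
          calc _ ≤ (univ : Finset (Fin k)).card := Finset.card_image_le
            _ = k := by simp
        omega
      have h3 : ((univ.filter (fun y => G.Adj (x (a p)) y)).card : ℝ) ≤
          (((univ.filter (fun y => G.Adj (x (a p)) y)) \ (univ.image x)).card : ℝ) + k := by
        exact_mod_cast h2
      have h4 : ((p : ℕ) : ℝ) ≤ s := by exact_mod_cast p.is_lt.le
      unfold dg at h1
      linarith
    · intro i l y _
      have : (miss (⊤ : SimpleGraph W) ((univ.filter (fun y => G.Adj (x (a l)) y)) \
          (univ.image x)) y).card ≤ 1 := by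
        rw [Finset.card_le_one]
        intro z hz z' hz'
        rw [mem_miss, SimpleGraph.top_adj, not_not] at hz hz'
        rw [← hz.2, ← hz'.2]
      exact_mod_cast this
  have h1 : (Q.card : ℝ) * ∏ p, D (a p) ≤ ∑ x ∈ Q, ((Y x).card : ℝ) := by
    calc (Q.card : ℝ) * ∏ p, D (a p) = ∑ _x ∈ Q, ∏ p, D (a p) := by
          rw [Finset.sum_const, nsmul_eq_mul]
      _ ≤ _ := Finset.sum_le_sum hYcard
  refine h1.trans ?_
  have h2 : ∑ x ∈ Q, (Y x).card ≤
      ((copies (pend a) G).filter (fun f => (fun i => f (Sum.inl i)) ∈ Q)).card := by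
    rw [← Finset.card_sigma]
    refine Finset.card_le_card_of_injOn (fun p => (Sum.elim p.1 p.2 : Fin k ⊕ Fin s → W)) ?_ ?_
    · rintro ⟨x, y⟩ h
      rw [Finset.mem_coe, Finset.mem_sigma] at h
      obtain ⟨hx, hy⟩ := h
      simp only at hx hy
      rw [hY, mem_cl'] at hy
      rw [Finset.mem_coe, Finset.mem_filter, mem_copies]
      refine ⟨⟨?_, ?_⟩, ?_⟩
      · rw [Sum.elim_injective]
        refine ⟨?_, ?_, ?_⟩
        · intro i l h
          by_contra hne
          have := hQ x hx i l hne
          have h' : x i = x l := h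
          rw [h'] at this
          exact G.irrefl this
        · intro p q h
          by_contra hne
          exact (hy.2 p q hne) h
        · intro i p h
          have := hy.1 p
          rw [Finset.mem_sdiff] at this
          apply this.2
          rw [Finset.mem_image]
          exact ⟨i, Finset.mem_univ _, h⟩
      · intro z z' hz
        rcases z with i | p <;> rcases z' with j | q
        · exact hQ x hx i j hz
        · rw [pend_inl_inr] at hz
          subst hz
          have := hy.1 q
          rw [Finset.mem_sdiff, Finset.mem_filter] at this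
          exact this.1.2
        · rw [pend_inr_inl] at hz
          subst hz
          have := hy.1 p
          rw [Finset.mem_sdiff, Finset.mem_filter] at this
          exact this.1.2.symm
        · exact absurd hz (pend_inr_inr a p q)
      · exact hx
    · rintro ⟨x, y⟩ _ ⟨x', y'⟩ _ h
      simp only at h
      have h0 : x = x' := by
        funext i
        have := congrFun h (Sum.inl i)
        simpa using this
      have h1 : y = y' := by
        funext i
        have := congrFun h (Sum.inr i)
        simpa using this
      subst h0; subst h1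
      rfl
  exact_mod_cast h2

/-- upper bound for the number of copies with two prescribed values -/
lemma copies_two_le {k s : ℕ} (a : Fin s → Fin k) (G : SimpleGraph W) (Δ : ℕ)
    (hΔ : ∀ x, dg G x ≤ Δ) (i0 : Fin k) (z0 : Fin k ⊕ Fin s) (hz0 : z0 ≠ Sum.inl i0) (u v : W) :
    ((copies (pend a) G).filter (fun f => f (Sum.inl i0) = u ∧ f z0 = v)).card ≤
      Δ ^ (k + s - 2) := by
  set A : Finset (Fin k → W) := Fintype.piFinset (fun j => if j = i0 then {u} else
    if (Sum.inl j : Fin k ⊕ Fin s) = z0 then {v} else univ.filter (fun y => G.Adj u y)) with hA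
  set B : (Fin k → W) → Finset (Fin s → W) := fun x => Fintype.piFinset (fun p =>
    if (Sum.inr p : Fin k ⊕ Fin s) = z0 then {v} else
      univ.filter (fun y => G.Adj (x (a p)) y)) with hB
  have h1 : ((copies (pend a) G).filter (fun f => f (Sum.inl i0) = u ∧ f z0 = v)).card ≤
      (A.sigma B).card := by
    refine Finset.card_le_card_of_injOn (fun f => ⟨fun i => f (Sum.inl i), fun p => f (Sum.inr p)⟩)
      ?_ ?_
    · intro f hf
      rw [Finset.mem_coe, Finset.mem_filter, mem_copies] at hf
      obtain ⟨⟨hinj, hadj⟩, hu, hv⟩ := hf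
      rw [Finset.mem_coe, Finset.mem_sigma]
      constructor
      · simp only [hA, Fintype.mem_piFinset]
        intro j
        by_cases h : j = i0
        · subst h; simp [hu]
        · by_cases h' : (Sum.inl j : Fin k ⊕ Fin s) = z0
          · subst h'
            simp [h, hv]
          · simp only [h, h', if_false, Finset.mem_filter, Finset.mem_univ, true_and]
            rw [← hu]
            exact hadj _ _ ((pend_inl_inl a i0 j).2 (Ne.symm h))
      · simp only [hB, Fintype.mem_piFinset]
        intro p
        by_cases h' : (Sum.inr p : Fin k ⊕ Fin s) = z0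
        · subst h'; simp [hv]
        · simp only [h', if_false, Finset.mem_filter, Finset.mem_univ, true_and]
          exact hadj _ _ ((pend_inl_inr a _ p).2 rfl)
    · intro f _ f' _ h
      simp only [Sigma.mk.injEq, heq_eq_eq] at h
      funext z
      rcases z with i | p
      · exact congrFun h.1 i
      · exact congrFun h.2 p
  refine h1.trans ?_
  rw [Finset.card_sigma]
  have hBcard : ∀ x ∈ A, (B x).card ≤ ∏ p : Fin s, (if (Sum.inr p : Fin k ⊕ Fin s) = Sum.inl i0 ∨
      (Sum.inr p : Fin k ⊕ Fin s) = z0 then 1 else Δ) := by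
    intro x _
    simp only [hB]
    rw [Fintype.card_piFinset]
    apply Finset.prod_le_prod'
    intro p _
    by_cases h : (Sum.inr p : Fin k ⊕ Fin s) = z0
    · simp [h]
    · simp only [h, or_false, if_false, reduceCtorEq]
      exact hΔ _
  have hAcard : A.card ≤ ∏ j : Fin k, (if (Sum.inl j : Fin k ⊕ Fin s) = Sum.inl i0 ∨
      (Sum.inl j : Fin k ⊕ Fin s) = z0 then 1 else Δ) := by
    rw [hA, Fintype.card_piFinset]
    apply Finset.prod_le_prod'
    intro j _
    by_cases h : j = i0
    · simp [h]
    · have h' : (Sum.inl j : Fin k ⊕ Fin s) ≠ Sum.inl i0 := fun h2 => h (Sum.inl_injective h2)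
      by_cases h2 : (Sum.inl j : Fin k ⊕ Fin s) = z0
      · simp [h, h2]
      · simp only [h, h', h2, or_false, if_false]
        exact hΔ _
  calc ∑ x ∈ A, (B x).card ≤ ∑ _x ∈ A, ∏ p : Fin s, (if (Sum.inr p : Fin k ⊕ Fin s) = Sum.inl i0 ∨
      (Sum.inr p : Fin k ⊕ Fin s) = z0 then 1 else Δ) := Finset.sum_le_sum hBcard
    _ = A.card * ∏ p : Fin s, (if (Sum.inr p : Fin k ⊕ Fin s) = Sum.inl i0 ∨
      (Sum.inr p : Fin k ⊕ Fin s) = z0 then 1 else Δ) := by rw [Finset.sum_const, smul_eq_mul]
    _ ≤ (∏ j : Fin k, (if (Sum.inl j : Fin k ⊕ Fin s) = Sum.inl i0 ∨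
      (Sum.inl j : Fin k ⊕ Fin s) = z0 then 1 else Δ)) * ∏ p : Fin s, (if (Sum.inr p :
      Fin k ⊕ Fin s) = Sum.inl i0 ∨ (Sum.inr p : Fin k ⊕ Fin s) = z0 then 1 else Δ) :=
        Nat.mul_le_mul_right _ hAcard
    _ = ∏ z : Fin k ⊕ Fin s, (if z = Sum.inl i0 ∨ z = z0 then 1 else Δ) := by
        rw [Fintype.prod_sum_type]
    _ = Δ ^ (k + s - 2) := by
        have h2 : ∀ z : Fin k ⊕ Fin s, (if z = Sum.inl i0 ∨ z = z0 then 1 else Δ) =
            if z ∈ ((univ.erase (Sum.inl i0)).erase z0) then Δ else 1 := by
          intro z
          by_cases h1 : z = Sum.inl i0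
          · simp [h1]
          · by_cases h2 : z = z0
            · simp [h2]
            · simp [h1, h2]
        rw [Finset.prod_congr rfl (fun z _ => h2 z), Finset.prod_ite_mem, Finset.prod_const,
          Finset.univ_inter]
        rw [Finset.card_erase_of_mem (by simp [hz0]), Finset.card_erase_of_mem (by simp),
          Finset.card_univ, Nat.sub_sub]
        simp

end Pool.Agent.Work.MP_333fa2_co
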