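import Mathlib

/-!
Counting lemmas for ordered cliques.
-/

namespace Pool.Agent.Work.MP_333fa2_co

open Finset
open scoped Classical

variable {W : Type*} [Fintype W]

/-- Ordered cliques `x` of `G` indexed by `Fin j` with `x i ∈ S i`. -/
noncomputable def cl (G : SimpleGraph W) {j : ℕ} (S : Fin j → Finset W) : Finset (Fin j → W) :=
  univ.filter (fun x => (∀ i, x i ∈ S i) ∧ ∀ i l, i < l → G.Adj (x i) (x l))

lemma mem_cl {G : SimpleGraph W} {j : ℕ} {S : Fin j → Finset W} {x : Fin j → W} :
    x ∈ cl G S ↔ (∀ i, x i ∈ S i) ∧ ∀ i l, i < l → G.Adj (x i) (x l) := by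
  simp [cl]

lemma cl_adj {G : SimpleGraph W} {j : ℕ} {S : Fin j → Finset W} {x : Fin j → W}
    (hx : x ∈ cl G S) {i l : Fin j} (h : i ≠ l) : G.Adj (x i) (x l) := by
  rw [mem_cl] at hx
  rcases lt_or_gt_of_ne h with h' | h'
  · exact hx.2 i l h'
  · exact (hx.2 l i h').symm

lemma cl_injective {G : SimpleGraph W} {j : ℕ} {S : Fin j → Finset W} {x : Fin j → W}
    (hx : x ∈ cl G S) : Function.Injective x := by
  intro i l h
  by_contra hne
  have := cl_adj hx hne
  rw [h] at this
  exact G.irrefl this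

lemma cl_mono {G : SimpleGraph W} {j : ℕ} {S S' : Fin j → Finset W} (h : ∀ i, S i ⊆ S' i) :
    cl G S ⊆ cl G S' := by
  intro x hx
  rw [mem_cl] at hx ⊢
  exact ⟨fun i => h i (hx.1 i), hx.2⟩

/-- neighbours of `x` inside `S` -/
noncomputable def nb (G : SimpleGraph W) (S : Finset W) (x : W) : Finset W :=
  S.filter (fun y => G.Adj x y)

lemma mem_nb {G : SimpleGraph W} {S : Finset W} {x y : W} :
    y ∈ nb G S x ↔ y ∈ S ∧ G.Adj x y := by
  simp [nb]

lemma nb_subset {G : SimpleGraph W} {S : Finset W} {x : W} : nb G S x ⊆ S :=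
  Finset.filter_subset _ _

/-- the vertices of `S` not adjacent to `x` (including `x` itself) -/
noncomputable def miss (G : SimpleGraph W) (S : Finset W) (x : W) : Finset W :=
  S.filter (fun y => ¬ G.Adj x y)

lemma mem_miss {G : SimpleGraph W} {S : Finset W} {x y : W} :
    y ∈ miss G S x ↔ y ∈ S ∧ ¬ G.Adj x y := by
  simp [miss]

lemma nb_add_miss (G : SimpleGraph W) (S : Finset W) (x : W) :
    (nb G S x).card + (miss G S x).card = S.card :=
  Finset.card_filter_add_card_filter_not _

lemma cl_zero (G : SimpleGraph W) (S : Fin 0 → Finset W) : (cl G S).card = 1 := by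
  have : cl G S = univ := by
    ext x
    simp only [mem_cl, mem_univ, iff_true]
    exact ⟨fun i => i.elim0, fun i => i.elim0⟩
  rw [this]
  simp

lemma sum_cl_le (G : SimpleGraph W) {j : ℕ} (S : Fin (j+1) → Finset W) (S0 : Finset W)
    (hS0 : S0 ⊆ S 0) :
    ∑ x ∈ S0, (cl G (fun i : Fin j => nb G (S i.succ) x)).card ≤ (cl G S).card := by
  rw [← Finset.card_sigma]
  refine Finset.card_le_card_of_injOn (fun p => (Fin.cons p.1 p.2 : Fin (j+1) → W)) ?_ ?_
  · rintro ⟨x, y⟩ h
    have h' : (⟨x, y⟩ : (_ : W) × (Fin j → W)) ∈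
      S0.sigma (fun x => cl G (fun i : Fin j => nb G (S i.succ) x)) := h
    rw [Finset.mem_sigma] at h'
    obtain ⟨hx, hy⟩ := h'
    simp only at hx hy
    rw [mem_cl] at hy

    rw [Finset.mem_coe, mem_cl]
    constructor
    · intro i
      refine Fin.cases ?_ ?_ i
      · simpa using hS0 hx
      · intro i
        simpa using (mem_nb.1 (hy.1 i)).1
    · intro i l
      refine Fin.cases ?_ ?_ i
      · refine Fin.cases ?_ ?_ l
        · intro h; exact absurd h (lt_irrefl _)
        · intro l _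
          simpa using (mem_nb.1 (hy.1 l)).2
      · intro i
        refine Fin.cases ?_ ?_ l
        · intro h; exact absurd h (Fin.not_lt_zero _)
        · intro l h
          simpa using hy.2 i l (Fin.succ_lt_succ_iff.1 h)
  · rintro ⟨x, y⟩ _ ⟨x', y'⟩ _ h
    simp only at h
    have h0 := congrFun h 0
    have h1 : y = y' := by
      funext i
      have := congrFun h i.succ
      simpa using this
    simp only [Fin.cons_zero] at h0
    subst h0; subst h1
    rfl

/-- Greedy counting of cliques. -/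
lemma gc' (G : SimpleGraph W) {q : ℝ} (_hq : 0 ≤ q) : ∀ (j : ℕ) (S : Fin j → Finset W)
    (a : Fin j → ℝ), (∀ i, 0 ≤ a i) → (∀ i : Fin j, a i + (i : ℕ) * q ≤ ((S i).card : ℝ)) →
    (∀ i l, i ≠ l → ∀ x ∈ S i, ((miss G (S l) x).card : ℝ) ≤ q) →
    ∏ i, a i ≤ ((cl G S).card : ℝ) := by
  intro j
  induction j with
  | zero =>
    intro S a _ _ _
    rw [cl_zero]
    simp
  | succ j ih =>
    intro S a ha hS hmiss
    rw [Fin.prod_univ_succ]
    have key : ∀ x ∈ S 0, ∏ i : Fin j, a i.succ ≤
        ((cl G (fun i : Fin j => nb G (S i.succ) x)).card : ℝ) := by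
      intro x hx
      apply ih
      · intro i; exact ha _
      · intro i
        have h1 := hS i.succ
        have h2 := hmiss 0 i.succ (Fin.succ_ne_zero i).symm x hx
        have h3 := nb_add_miss G (S i.succ) x
        have h3' : ((nb G (S i.succ) x).card : ℝ) +
          ((miss G (S i.succ) x).card : ℝ) = ((S i.succ).card : ℝ) := by
          exact_mod_cast h3
        simp only [Fin.val_succ, Nat.cast_add, Nat.cast_one] at h1
        nlinarith
      · intro i l hil y hy
        refine le_trans ?_ (hmiss i.succ l.succ (fun h => hil (Fin.succ_injective _ h)) y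
          (nb_subset hy))
        exact_mod_cast Finset.card_le_card (Finset.filter_subset_filter _ nb_subset)
    have h0 : a 0 ≤ ((S 0).card : ℝ) := by
      have := hS 0
      simpa using this
    have hprod : 0 ≤ ∏ i : Fin j, a i.succ := Finset.prod_nonneg (fun i _ => ha _)
    calc a 0 * ∏ i : Fin j, a i.succ ≤ ((S 0).card : ℝ) * ∏ i : Fin j, a i.succ :=
          mul_le_mul_of_nonneg_right h0 hprod
      _ = ∑ _x ∈ S 0, ∏ i : Fin j, a i.succ := by rw [Finset.sum_const, nsmul_eq_mul]
      _ ≤ ∑ x ∈ S 0, ((cl G (fun i : Fin j => nb G (S i.succ) x)).card : ℝ) :=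
          Finset.sum_le_sum key
      _ ≤ ((cl G S).card : ℝ) := by
          have := sum_cl_le G S (S 0) (Finset.Subset.refl _)
          exact_mod_cast this

lemma gc (G : SimpleGraph W) {q : ℝ} (hq : 0 ≤ q) (j : ℕ) (S : Fin j → Finset W)
    (a : Fin j → ℝ) (ha : ∀ i, 0 ≤ a i) (hS : ∀ i : Fin j, a i + (i : ℕ) * q ≤ ((S i).card : ℝ))
    (hmiss : ∀ i l, ∀ x ∈ S i, ((miss G (S l) x).card : ℝ) ≤ q) :
    ∏ i, a i ≤ ((cl G S).card : ℝ) :=
  gc' G hq j S a ha hS (fun i l _ => hmiss i l)

/-- Greedy counting with a constant lower bound. -/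
lemma gc_const' (G : SimpleGraph W) {q a : ℝ} (hq : 0 ≤ q) (ha : 0 ≤ a) (j : ℕ)
    (S : Fin (j+1) → Finset W) (hS : ∀ i, a + j * q ≤ ((S i).card : ℝ))
    (hmiss : ∀ i l, i ≠ l → ∀ x ∈ S i, ((miss G (S l) x).card : ℝ) ≤ q) :
    a ^ (j+1) ≤ ((cl G S).card : ℝ) := by
  have := gc' G hq (j+1) S (fun _ => a) (fun _ => ha) ?_ hmiss
  · simpa using this
  · intro i
    have h1 : ((i : ℕ) : ℝ) ≤ j := by
      have := i.is_lt
      have h2 : (i : ℕ) ≤ j := by omega
      exact_mod_cast h2
    have h2 := hS i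
    nlinarith [mul_le_mul_of_nonneg_right h1 hq]

lemma gc_const (G : SimpleGraph W) {q a : ℝ} (hq : 0 ≤ q) (ha : 0 ≤ a) (j : ℕ)
    (S : Fin (j+1) → Finset W) (hS : ∀ i, a + j * q ≤ ((S i).card : ℝ))
    (hmiss : ∀ i l, ∀ x ∈ S i, ((miss G (S l) x).card : ℝ) ≤ q) :
    a ^ (j+1) ≤ ((cl G S).card : ℝ) :=
  gc_const' G hq ha j S hS (fun i l _ => hmiss i l)

/-- A counting version of Ramsey's theorem. -/
lemma ramsey_count (G : SimpleGraph W) : ∀ (m a b : ℕ), a + b = m → ∀ S : Finset W,
    4 ^ m ≤ S.card →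
    ((S.card : ℝ) / 4 ^ m) ^ a ≤ ((cl G (fun _ : Fin a => S)).card : ℝ) ∨
    ((S.card : ℝ) / 4 ^ m) ^ b ≤ ((cl Gᶜ (fun _ : Fin b => S)).card : ℝ) := by
  intro m
  induction m with
  | zero =>
    intro a b hab S _
    have ha : a = 0 := by omega
    subst ha
    left
    rw [cl_zero]; simp
  | succ m ih =>
    intro a b hab S hS
    rcases a with _ | a
    · left; rw [cl_zero]; simp
    rcases b with _ | b
    · right; rw [cl_zero]; simp
    -- both positive
    have hm1 : 4 ≤ S.card := by
      calc 4 = 4 ^ 1 := by norm_num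
        _ ≤ 4 ^ (m+1) := Nat.pow_le_pow_right (by norm_num) (by omega)
        _ ≤ S.card := hS
    have hcardpos : (0:ℝ) < S.card := by
      have : 0 < S.card := by omega
      exact_mod_cast this
    have h4 : (0:ℝ) < 4 ^ m := by positivity
    -- neighbourhoods
    have hsplit : ∀ x ∈ S, (nb G S x).card + (nb Gᶜ S x).card + 1 = S.card := by
      intro x hx
      have h1 : S.card = ((S.erase x).filter (fun y => G.Adj x y)).card +
          ((S.erase x).filter (fun y => ¬ G.Adj x y)).card + 1 := by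
        rw [Finset.card_filter_add_card_filter_not, Finset.card_erase_of_mem hx]
        omega
      have h2 : (S.erase x).filter (fun y => G.Adj x y) = nb G S x := by
        ext y
        simp only [Finset.mem_filter, Finset.mem_erase, mem_nb]
        constructor
        · rintro ⟨⟨_, h⟩, h'⟩; exact ⟨h, h'⟩
        · rintro ⟨h, h'⟩; exact ⟨⟨h'.ne', h⟩, h'⟩
      have h3 : (S.erase x).filter (fun y => ¬ G.Adj x y) = nb Gᶜ S x := by
        ext y
        simp only [Finset.mem_filter, Finset.mem_erase, mem_nb, SimpleGraph.compl_adj]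
        constructor
        · rintro ⟨⟨h1, h⟩, h'⟩; exact ⟨h, Ne.symm h1, h'⟩
        · rintro ⟨h, h1, h'⟩; exact ⟨⟨Ne.symm h1, h⟩, h'⟩
      rw [h2, h3] at h1
      omega
    -- the general case for a graph H (either G or its complement)
    have main : ∀ (H : SimpleGraph W) (a' b' : ℕ), a' + b' + 1 = m + 1 → 
        (∀ T : Finset W, 4 ^ m ≤ T.card →
          ((T.card : ℝ) / 4 ^ m) ^ a' ≤ ((cl H (fun _ : Fin a' => T)).card : ℝ) ∨
          ((T.card : ℝ) / 4 ^ m) ^ b' ≤ ((cl Hᶜ (fun _ : Fin b' => T)).card : ℝ)) →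
        (S.card ≤ 2 * (S.filter (fun x => S.card ≤ 4 * (nb H S x).card)).card) →
        ((S.card : ℝ) / 4 ^ (m+1)) ^ (a'+1) ≤ ((cl H (fun _ : Fin (a'+1) => S)).card : ℝ) ∨
        ((S.card : ℝ) / 4 ^ (m+1)) ^ b' ≤ ((cl Hᶜ (fun _ : Fin b' => S)).card : ℝ) := by
      intro H a' b' hab' hT hbig
      set S1 := S.filter (fun x => S.card ≤ 4 * (nb H S x).card) with hS1
      have hsize : ∀ x ∈ S1, 4 ^ m ≤ (nb H S x).card := by
        intro x hx
        have := (Finset.mem_filter.1 hx).2
        have h5 : 4 * 4 ^ m ≤ S.card := by rw [← pow_succ']; exact hS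
        omega
      have hsize' : ∀ x ∈ S1, (S.card : ℝ) / 4 ^ (m+1) ≤ ((nb H S x).card : ℝ) / 4 ^ m := by
        intro x hx
        have h5 := (Finset.mem_filter.1 hx).2
        have h6 : (S.card : ℝ) ≤ 4 * ((nb H S x).card : ℝ) := by exact_mod_cast h5
        rw [pow_succ, ← div_div]
        rw [div_div, mul_comm (4 ^ m : ℝ) 4, ← div_div]
        apply div_le_div_of_nonneg_right _ h4.le
        linarith
      have hbase : (0:ℝ) ≤ (S.card : ℝ) / 4 ^ (m+1) := by positivity
      by_cases hex : ∃ x ∈ S1, ((((nb H S x).card : ℝ)) / 4 ^ m) ^ b' ≤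
          ((cl Hᶜ (fun _ : Fin b' => nb H S x)).card : ℝ)
      · right
        obtain ⟨x, hx, hx2⟩ := hex
        calc ((S.card : ℝ) / 4 ^ (m+1)) ^ b' ≤ ((((nb H S x).card : ℝ)) / 4 ^ m) ^ b' :=
              pow_le_pow_left₀ hbase (hsize' x hx) _
          _ ≤ ((cl Hᶜ (fun _ : Fin b' => nb H S x)).card : ℝ) := hx2
          _ ≤ _ := by
            exact_mod_cast Finset.card_le_card (cl_mono (fun i => nb_subset))
      · left
        push Not at hex
        have hall : ∀ x ∈ S1, ((S.card : ℝ) / 4 ^ (m+1)) ^ a' ≤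
            ((cl H (fun _ : Fin a' => nb H S x)).card : ℝ) := by
          intro x hx
          rcases hT (nb H S x) (hsize x hx) with h | h
          · exact le_trans (pow_le_pow_left₀ hbase (hsize' x hx) _) h
          · exact absurd h (not_le.2 (hex x hx))
        have hsum := sum_cl_le H (fun _ : Fin (a'+1) => S) S1 (Finset.filter_subset _ _)
        have hsum' : ∑ x ∈ S1, ((cl H (fun _ : Fin a' => nb H S x)).card : ℝ) ≤
            ((cl H (fun _ : Fin (a'+1) => S)).card : ℝ) := by exact_mod_cast hsum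
        have hS1card : (S.card : ℝ) / 4 ^ (m+1) ≤ (S1.card : ℝ) := by
          have h7 : (S.card : ℝ) ≤ 2 * (S1.card : ℝ) := by exact_mod_cast hbig
          rw [div_le_iff₀ (by positivity)]
          have h8 : (1:ℝ) ≤ 4 ^ m := one_le_pow₀ (by norm_num)
          have h9 : (0:ℝ) ≤ (S1.card : ℝ) := by positivity
          rw [pow_succ]
          nlinarith
        calc ((S.card : ℝ) / 4 ^ (m+1)) ^ (a'+1)
            = ((S.card : ℝ) / 4 ^ (m+1)) * ((S.card : ℝ) / 4 ^ (m+1)) ^ a' := by rw [pow_succ']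
          _ ≤ (S1.card : ℝ) * ((S.card : ℝ) / 4 ^ (m+1)) ^ a' :=
              mul_le_mul_of_nonneg_right hS1card (by positivity)
          _ = ∑ _x ∈ S1, ((S.card : ℝ) / 4 ^ (m+1)) ^ a' := by
              rw [Finset.sum_const, nsmul_eq_mul]
          _ ≤ ∑ x ∈ S1, ((cl H (fun _ : Fin a' => nb H S x)).card : ℝ) :=
              Finset.sum_le_sum hall
          _ ≤ _ := hsum'
    -- pigeonhole
    have hpig : S.card ≤ (S.filter (fun x => S.card ≤ 4 * (nb G S x).card)).card +
        (S.filter (fun x => S.card ≤ 4 * (nb Gᶜ S x).card)).card := by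
      rw [← Finset.card_union_add_card_inter]
      refine le_trans ?_ (Nat.le_add_right _ _)
      apply Finset.card_le_card
      intro x hx
      rw [Finset.mem_union, Finset.mem_filter, Finset.mem_filter]
      have := hsplit x hx
      by_cases h : S.card ≤ 4 * (nb G S x).card
      · left; exact ⟨hx, h⟩
      · right; refine ⟨hx, ?_⟩; omega
    rcases le_or_gt S.card (2 * (S.filter (fun x => S.card ≤ 4 * (nb G S x).card)).card) with h | h
    · exact main G a (b+1) (by omega) (fun T hT => ih a (b+1) (by omega) T hT) h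
    · have h' : S.card ≤ 2 * (S.filter (fun x => S.card ≤ 4 * (nb Gᶜ S x).card)).card := by omega
      have := main Gᶜ b (a+1) (by omega) (fun T hT => by
        have := ih (a+1) b (by omega) T hT
        rw [compl_compl]
        exact this.symm) h'
      rw [compl_compl] at this
      exact this.symm

end Pool.Agent.Work.MP_333fa2_co
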