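import Pool.Agent.Work.MP_333fa2_co.Flip

/-!
From `(k-1)`-partite to Turan.
-/

namespace Pool.Agent.Work.MP_333fa2_co

open Finset
open scoped Classical

section turan

variable {V : Type*} [Fintype V]

/-- class of `c` -/
noncomputable def cls {r : ℕ} (c : V → Fin r) (j : Fin r) : Finset V := univ.filter (fun x => c x = j)

lemma mem_cls {r : ℕ} {c : V → Fin r} {j : Fin r} {x : V} : x ∈ cls c j ↔ c x = j := by
  simp [cls]

lemma iso_turan {r : ℕ} (c : V → Fin r) (hpos : ∀ j, 0 < (cls c j).card)
    (hbal : ∀ i j, (cls c i).card ≤ (cls c j).card + 1) (G : SimpleGraph V)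
    (hG : ∀ x y, G.Adj x y ↔ c x ≠ c y) :
    Nonempty (G ≃g SimpleGraph.turanGraph (Fintype.card V) r) := by
  set P : Finpartition (univ : Finset V) := Finpartition.ofSetoid (Setoid.ker c) with hP
  have hpart : ∀ x, P.part x = cls c (c x) := by
    intro x
    ext y
    rw [hP, Finpartition.mem_part_ofSetoid_iff_rel, mem_cls]
    constructor
    · intro h
      exact (Setoid.ker_def.1 h).symm
    · intro h
      exact Setoid.ker_def.2 h.symm
  have hmem : ∀ t, t ∈ P.parts ↔ ∃ j, cls c j = t := by
    intro t
    constructor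
    · intro ht
      obtain ⟨x, hx⟩ := P.nonempty_of_mem_parts ht
      refine ⟨c x, ?_⟩
      rw [← hpart, P.part_eq_of_mem ht hx]
    · rintro ⟨j, rfl⟩
      obtain ⟨x, hx⟩ := Finset.card_pos.1 (hpos j)
      rw [mem_cls] at hx
      rw [← hx, ← hpart]
      exact P.part_mem.2 (Finset.mem_univ _)
  have hparts : P.parts = univ.image (cls c) := by
    ext t
    rw [hmem, Finset.mem_image]
    simp
  have hinj : Function.Injective (cls c) := by
    intro i j hij
    obtain ⟨x, hx⟩ := Finset.card_pos.1 (hpos i)
    have h1 := mem_cls.1 hx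
    rw [hij] at hx
    have h2 := mem_cls.1 hx
    rw [← h1, h2]
  have hcard : P.parts.card = r := by
    rw [hparts, Finset.card_image_of_injective _ hinj]
    simp
  have heq : P.IsEquipartition := by
    intro t t' ht ht'
    rw [Finset.mem_coe] at ht ht'
    obtain ⟨i, rfl⟩ := (hmem t).1 ht
    obtain ⟨j, rfl⟩ := (hmem t').1 ht'
    exact hbal i j
  obtain ⟨zm, zp⟩ := heq.exists_partPreservingEquiv
  refine ⟨⟨(Equiv.subtypeUnivEquiv mem_univ).symm.trans zm, ?_⟩⟩
  intro a b
  have h1 := zp ⟨a, mem_univ a⟩ ⟨b, mem_univ b⟩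
  rw [hcard] at h1
  simp only [hpart] at h1
  rw [SimpleGraph.turanGraph_adj, hG]
  have h2 : cls c (c a) = cls c (c b) ↔ c a = c b := hinj.eq_iff
  rw [h2] at h1
  exact (not_congr h1).symm

end turan

section final

variable {W : Type*} [Fintype W]

/-- all pairs in the same class are red -/
def sameGraph {r : ℕ} (c : W → Fin r) : SimpleGraph W where
  Adj x y := x ≠ y ∧ c x = c y
  symm := ⟨fun _ _ h => ⟨h.1.symm, h.2.symm⟩⟩
  loopless := ⟨fun _ h => h.1 rfl⟩

/-- injective maps into a single class -/
noncomputable def inClass (T : Type*) [Fintype T] {r : ℕ} (c : W → Fin r) (j : Fin r) :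
    Finset (T → W) :=
  univ.filter (fun g => Function.Injective g ∧ ∀ z, c (g z) = j)

lemma mem_inClass {T : Type*} [Fintype T] {r : ℕ} {c : W → Fin r} {j : Fin r} {g : T → W} :
    g ∈ inClass T c j ↔ Function.Injective g ∧ ∀ z, c (g z) = j := by
  simp [inClass]

lemma card_inClass (T : Type*) [Fintype T] {r : ℕ} (c : W → Fin r) (j : Fin r) :
    (inClass T c j).card = (cls c j).card.descFactorial (Fintype.card T) := by
  have h1 : Fintype.card (T ↪ {x // x ∈ cls c j}) =
      (cls c j).card.descFactorial (Fintype.card T) := by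
    rw [Fintype.card_embedding_eq, Fintype.card_coe]
  rw [← h1, ← Finset.card_univ]
  symm
  apply Finset.card_bij (fun (e : T ↪ {x // x ∈ cls c j}) _ => fun z => (e z : W))
  · intro e _
    rw [mem_inClass]
    refine ⟨?_, ?_⟩
    · intro x y h
      exact e.injective (Subtype.ext h)
    · intro z
      exact mem_cls.1 (e z).2
  · intro e _ e' _ h
    ext z
    exact congrFun h z
  · intro g hg
    rw [mem_inClass] at hg
    refine ⟨⟨fun z => ⟨g z, mem_cls.2 (hg.2 z)⟩, ?_⟩, Finset.mem_univ _, rfl⟩
    intro x y h
    exact hg.1 (congrArg Subtype.val h)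

/-- number of injective maps into single classes -/
noncomputable def NC (t : ℕ) {r : ℕ} (c : W → Fin r) : ℕ :=
  ∑ j, (cls c j).card.descFactorial t

lemma card_union_inClass (T : Type*) [Fintype T] [Nonempty T] {r : ℕ} (c : W → Fin r) :
    (univ.biUnion (fun j => inClass T c j)).card = NC (Fintype.card T) c := by
  rw [Finset.card_biUnion]
  · unfold NC
    exact Finset.sum_congr rfl (fun j _ => card_inClass T c j)
  · intro i _ j _ hij
    rw [Function.onFun, Finset.disjoint_left]
    intro g hg hg'
    rw [mem_inClass] at hg hg'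
    obtain ⟨z⟩ := ‹Nonempty T›
    exact hij ((hg.2 z).symm.trans (hg'.2 z))

variable {k s : ℕ}

/-- lower bound for `(k-1)`-partite blue graph -/
lemma inClass_subset {r : ℕ} (a : Fin s → Fin k) (R : SimpleGraph W) (c : W → Fin r)
    (hc : ∀ u v, Rᶜ.Adj u v → c u ≠ c v) :
    univ.biUnion (fun j => inClass (Fin k ⊕ Fin s) c j) ⊆ mono (pend a) R := by
  intro g hg
  rw [Finset.mem_biUnion] at hg
  obtain ⟨j, _, hg⟩ := hg
  rw [mem_inClass] at hg
  rw [mem_mono]
  refine ⟨hg.1, Or.inl ?_⟩
  intro x y hxy
  by_contra hcon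
  have h1 : Rᶜ.Adj (g x) (g y) := by
    rw [SimpleGraph.compl_adj]
    exact ⟨fun h => hxy.ne (hg.1 h), hcon⟩
  exact hc _ _ h1 ((hg.2 x).trans (hg.2 y).symm)

lemma NC_le {r : ℕ} (hk : 0 < k) (a : Fin s → Fin k) (R : SimpleGraph W) (c : W → Fin r)
    (hc : ∀ u v, Rᶜ.Adj u v → c u ≠ c v) : NC (k + s) c ≤ (mono (pend a) R).card := by
  have : Nonempty (Fin k ⊕ Fin s) := ⟨Sum.inl ⟨0, hk⟩⟩
  have h1 := card_union_inClass (Fin k ⊕ Fin s) c
  have hT : Fintype.card (Fin k ⊕ Fin s) = k + s := by simp
  rw [hT] at h1
  rw [← h1]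
  exact Finset.card_le_card (inClass_subset a R c hc)

lemma mono_same_subset {r : ℕ} (hk : r < k) (a : Fin s → Fin k) (c : W → Fin r) :
    mono (pend a) (sameGraph c) ⊆ univ.biUnion (fun j => inClass (Fin k ⊕ Fin s) c j) := by
  intro g hg
  rw [mem_mono] at hg
  obtain ⟨hinj, hg⟩ := hg
  rcases hg with hg | hg
  · have hkpos : 0 < k := by omega
    rw [Finset.mem_biUnion]
    refine ⟨c (g (Sum.inl ⟨0, hkpos⟩)), Finset.mem_univ _, ?_⟩
    rw [mem_inClass]
    refine ⟨hinj, ?_⟩
    have h1 : ∀ i, c (g (Sum.inl i)) = c (g (Sum.inl ⟨0, hkpos⟩)) := by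
      intro i
      by_cases h : i = ⟨0, hkpos⟩
      · rw [h]
      · exact (hg _ _ ((pend_inl_inl a i ⟨0, hkpos⟩).2 h)).2
    intro z
    rcases z with i | p
    · exact h1 i
    · have h2 := (hg _ _ ((pend_inr_inl a (a p) p).2 rfl)).2
      rw [h2, h1]
  · exfalso
    have hinj2 : Function.Injective (fun i : Fin k => c (g (Sum.inl i))) := by
      intro i j hij
      by_contra hne
      have h1 := hg _ _ ((pend_inl_inl a i j).2 hne)
      rw [SimpleGraph.compl_adj] at h1
      exact h1.2 ⟨h1.1, hij⟩
    have h2 := Fintype.card_le_of_injective _ hinj2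
    simp only [Fintype.card_fin] at h2
    omega

lemma mono_same_le {r : ℕ} (hk : r < k) (a : Fin s → Fin k) (c : W → Fin r) :
    (mono (pend a) (sameGraph c)).card ≤ NC (k + s) c := by
  have : Nonempty (Fin k ⊕ Fin s) := ⟨Sum.inl ⟨0, by omega⟩⟩
  have h1 := card_union_inClass (Fin k ⊕ Fin s) c
  have hT : Fintype.card (Fin k ⊕ Fin s) = k + s := by simp
  rw [hT] at h1
  rw [← h1]
  exact Finset.card_le_card (mono_same_subset hk a c)

lemma succ_descFactorial_eq (m t : ℕ) :
    (m+1).descFactorial (t+1) = m.descFactorial (t+1) + (t+1) * m.descFactorial t := by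
  rw [Nat.succ_descFactorial_succ, Nat.descFactorial_succ]
  by_cases h : t ≤ m
  · have : m + 1 = (m - t) + (t + 1) := by omega
    rw [← add_mul]
    congr 1
  · have h1 : m.descFactorial t = 0 := Nat.descFactorial_eq_zero_iff_lt.2 (by omega)
    rw [h1]; simp

lemma descFactorial_lt {m m' t : ℕ} (h : m < m') (ht : t + 1 ≤ m') :
    m.descFactorial (t+1) < m'.descFactorial (t+1) := by
  have h1 : (m' - 1 + 1) = m' := by omega
  have h2 : m.descFactorial (t+1) ≤ (m'-1).descFactorial (t+1) :=
    Nat.descFactorial_le _ (by omega)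
  rw [← h1, succ_descFactorial_eq]
  have h3 : 0 < (m'-1).descFactorial t := by
    rw [Nat.pos_iff_ne_zero]
    intro h4
    rw [Nat.descFactorial_eq_zero_iff_lt] at h4
    omega
  have : 0 < (t+1) * (m'-1).descFactorial t := by positivity
  omega

/-- convexity of the falling factorial -/
lemma move_lt {mi mj t : ℕ} (h : mj + 2 ≤ mi) (ht : t + 2 ≤ mi) :
    (mi - 1).descFactorial (t+2) + (mj+1).descFactorial (t+2) <
      mi.descFactorial (t+2) + mj.descFactorial (t+2) := by
  have h1 : mi = mi - 1 + 1 := by omega
  have h2 : mi.descFactorial (t+2) = (mi-1).descFactorial (t+2) +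
      (t+2) * (mi-1).descFactorial (t+1) := by
    conv_lhs => rw [h1]
    exact succ_descFactorial_eq (mi-1) (t+1)
  have h3 : (mj+1).descFactorial (t+2) = mj.descFactorial (t+2) +
      (t+2) * mj.descFactorial (t+1) := succ_descFactorial_eq mj (t+1)
  have h4 : mj.descFactorial (t+1) < (mi-1).descFactorial (t+1) :=
    descFactorial_lt (by omega) (by omega)
  have h5 : (t+2) * mj.descFactorial (t+1) < (t+2) * (mi-1).descFactorial (t+1) :=
    Nat.mul_lt_mul_of_pos_left h4 (by omega)
  rw [h2, h3]
  omega

lemma sum_cls {r : ℕ} (c : W → Fin r) : ∑ j, (cls c j).card = Fintype.card W := by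
  have := Finset.card_eq_sum_card_fiberwise (f := c) (s := univ) (t := univ)
    (fun _ _ => by simp)
  rw [Finset.card_univ] at this
  exact this.symm

/-- The final step: an optimal colouring with `(k-1)`-partite blue graph is Turan's colouring. -/
lemma turan_of_partite {r : ℕ} (hr : 0 < r) (hs : 0 < s) (a : Fin s → Fin (r+1))
    (R : SimpleGraph W) (hopt : Optimal (pend a) R) (c : W → Fin r)
    (hc : ∀ u v, Rᶜ.Adj u v → c u ≠ c v) (hn : r * (r + 3 + s) ≤ Fintype.card W) :
    Nonempty (Rᶜ ≃g SimpleGraph.turanGraph (Fintype.card W) r) := by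
  have hlow : NC (r+1+s) c ≤ (mono (pend a) R).card := NC_le (Nat.succ_pos r) a R c hc
  obtain ⟨t, ht⟩ : ∃ t, r + 1 + s = t + 2 := ⟨r + s - 1, by omega⟩
  have : Nonempty (Fin r) := ⟨⟨0, hr⟩⟩
  -- largest class
  obtain ⟨i, _, hi⟩ := Finset.exists_max_image (univ : Finset (Fin r)) (fun j => (cls c j).card)
    Finset.univ_nonempty
  have hmax : r + 3 + s ≤ (cls c i).card := by
    by_contra hcon
    push Not at hcon
    have h1 : ∑ j, (cls c j).card ≤ ∑ _j : Fin r, (cls c i).card :=
      Finset.sum_le_sum (fun j _ => hi j (Finset.mem_univ _))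
    rw [sum_cls, Finset.sum_const, Finset.card_univ, Fintype.card_fin, smul_eq_mul] at h1
    have h2 : r * (cls c i).card < r * (r + 3 + s) := Nat.mul_lt_mul_of_pos_left hcon hr
    omega
  have hbal1 : ∀ j, (cls c i).card ≤ (cls c j).card + 1 := by
    intro j
    by_contra hcon
    push Not at hcon
    have hij : i ≠ j := by
      rintro rfl
      omega
    obtain ⟨w, hw⟩ := Finset.card_pos.1 (show 0 < (cls c i).card by omega)
    rw [mem_cls] at hw
    set c' : W → Fin r := Function.update c w j with hc'
    have hci : cls c' i = (cls c i).erase w := by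
      ext x
      rw [mem_cls, Finset.mem_erase, mem_cls, hc']
      by_cases h : x = w
      · subst h
        rw [Function.update_self]
        constructor
        · intro h; exact absurd h.symm hij
        · intro h; exact absurd rfl h.1
      · rw [Function.update_of_ne h]
        constructor
        · intro h'; exact ⟨h, h'⟩
        · intro h'; exact h'.2
    have hcj : cls c' j = insert w (cls c j) := by
      ext x
      rw [mem_cls, Finset.mem_insert, mem_cls, hc']
      by_cases h : x = w
      · subst h
        rw [Function.update_self]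
        simp
      · rw [Function.update_of_ne h]
        constructor
        · intro h'; right; exact h'
        · rintro (h' | h')
          · exact absurd h' h
          · exact h'
    have hcl : ∀ l, l ≠ i → l ≠ j → cls c' l = cls c l := by
      intro l hli hlj
      ext x
      rw [mem_cls, mem_cls, hc']
      by_cases h : x = w
      · subst h
        rw [Function.update_self]
        constructor
        · intro h'; exact absurd h'.symm hlj
        · intro h'; exact absurd (h'.symm.trans hw) hli
      · rw [Function.update_of_ne h]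
    have hcardi : (cls c' i).card = (cls c i).card - 1 := by
      rw [hci, Finset.card_erase_of_mem (mem_cls.2 hw)]
    have hcardj : (cls c' j).card = (cls c j).card + 1 := by
      rw [hcj, Finset.card_insert_of_notMem]
      rw [mem_cls, hw]; exact hij
    have hNC : NC (r+1+s) c' < NC (r+1+s) c := by
      unfold NC
      rw [← Finset.add_sum_erase _ _ (Finset.mem_univ i),
        ← Finset.add_sum_erase _ _ (Finset.mem_univ i),
        ← Finset.add_sum_erase _ _ (show j ∈ univ.erase i by simp [hij.symm]),
        ← Finset.add_sum_erase _ _ (show j ∈ univ.erase i by simp [hij.symm])]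
      have h1 : ∑ x ∈ (univ.erase i).erase j, (cls c' x).card.descFactorial (r+1+s) =
          ∑ x ∈ (univ.erase i).erase j, (cls c x).card.descFactorial (r+1+s) := by
        apply Finset.sum_congr rfl
        intro x hx
        rw [Finset.mem_erase, Finset.mem_erase] at hx
        rw [hcl x hx.2.1 hx.1]
      rw [h1, hcardi, hcardj, ht]
      have := move_lt (mi := (cls c i).card) (mj := (cls c j).card) (t := t) (by omega) (by omega)
      omega
    have h2 := mono_same_le (k := r+1) (by omega) a c'
    have h3 := hopt (sameGraph c')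
    omega
  have hbal : ∀ l j, (cls c l).card ≤ (cls c j).card + 1 := fun l j =>
    (hi l (Finset.mem_univ _)).trans (hbal1 j)
  have hbig : ∀ j, r + 2 + s ≤ (cls c j).card := by
    intro j
    have := hbal1 j
    omega
  have hadj : ∀ x y, Rᶜ.Adj x y ↔ c x ≠ c y := by
    intro u v
    refine ⟨hc u v, ?_⟩
    intro huv
    by_contra hcon
    have hne : u ≠ v := fun h => huv (by rw [h])
    have hred : R.Adj u v := by
      by_contra h
      exact hcon (by rw [SimpleGraph.compl_adj]; exact ⟨hne, h⟩)
    -- construct an additional copy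
    set p0 : Fin s := ⟨0, hs⟩ with hp0
    -- an injective map into the class of u sending the clique vertex to u
    have hcardC : Fintype.card (Fin (r+1) ⊕ Fin s) ≤ Fintype.card {x // x ∈ cls c (c u)} := by
      rw [Fintype.card_coe]
      have := hbig (c u)
      simp
      omega
    obtain ⟨e0⟩ := Function.Embedding.nonempty_of_card_le hcardC
    set e : (Fin (r+1) ⊕ Fin s) ↪ {x // x ∈ cls c (c u)} :=
      e0.trans (Equiv.swap (e0 (Sum.inl (a p0))) ⟨u, mem_cls.2 rfl⟩).toEmbedding with he
    have heu : (e (Sum.inl (a p0)) : W) = u := by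
      rw [he]; simp
    set g : (Fin (r+1) ⊕ Fin s) → W := Function.update (fun z => (e z : W)) (Sum.inr p0) v with hg
    have hgv : g (Sum.inr p0) = v := by rw [hg, Function.update_self]
    have hge : ∀ z, z ≠ Sum.inr p0 → g z = e z := by
      intro z hz; rw [hg, Function.update_of_ne hz]
    have hce : ∀ z, c (e z) = c u := fun z => mem_cls.1 (e z).2
    have hginj : Function.Injective g := by
      intro x y hxy
      by_cases hx : x = Sum.inr p0
      · by_cases hy : y = Sum.inr p0
        · rw [hx, hy]
        · exfalso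
          rw [hx, hgv, hge y hy] at hxy
          apply huv
          rw [hxy, hce]
      · by_cases hy : y = Sum.inr p0
        · exfalso
          rw [hy, hgv, hge x hx] at hxy
          apply huv
          rw [← hxy, hce]
        · rw [hge x hx, hge y hy] at hxy
          exact e.injective (Subtype.ext hxy)
    have hgmono : g ∈ mono (pend a) R := by
      rw [mem_mono]
      refine ⟨hginj, Or.inl ?_⟩
      have hred2 : ∀ x y, x ≠ Sum.inr p0 → y ≠ Sum.inr p0 → x ≠ y → R.Adj (g x) (g y) := by
        intro x y hx hy hxy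
        rw [hge x hx, hge y hy]
        by_contra h
        have h1 : Rᶜ.Adj (e x : W) (e y : W) := by
          rw [SimpleGraph.compl_adj]
          exact ⟨fun h2 => hxy (e.injective (Subtype.ext h2)), h⟩
        exact hc _ _ h1 ((hce x).trans (hce y).symm)
      intro x y hxy
      rcases x with i | p <;> rcases y with j | q
      · exact hred2 _ _ (by simp) (by simp) hxy.ne
      · by_cases hq : q = p0
        · subst hq
          rw [pend_inl_inr] at hxy
          rw [← hxy, hgv, hge _ (by simp), heu]
          exact hred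
        · exact hred2 _ _ (by simp) (by simpa using hq) hxy.ne
      · by_cases hp : p = p0
        · subst hp
          rw [pend_inr_inl] at hxy
          rw [← hxy, hgv, hge _ (by simp), heu]
          exact hred.symm
        · exact hred2 _ _ (by simpa using hp) (by simp) hxy.ne
      · exact absurd hxy (pend_inr_inr a p q)
    have hgnot : g ∉ univ.biUnion (fun j => inClass (Fin (r+1) ⊕ Fin s) c j) := by
      intro h
      rw [Finset.mem_biUnion] at h
      obtain ⟨j, _, h⟩ := h
      rw [mem_inClass] at h
      have h1 := h.2 (Sum.inr p0)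
      have h2 := h.2 (Sum.inl (a p0))
      rw [hgv] at h1
      rw [hge _ (by simp), heu] at h2
      exact huv (h2.trans h1.symm)
    have : Nonempty (Fin (r+1) ⊕ Fin s) := ⟨Sum.inl 0⟩
    have h1 := card_union_inClass (Fin (r+1) ⊕ Fin s) c
    have hT : Fintype.card (Fin (r+1) ⊕ Fin s) = r + 1 + s := by simp
    rw [hT] at h1
    have h2 : (univ.biUnion (fun j => inClass (Fin (r+1) ⊕ Fin s) c j)).card <
        (mono (pend a) R).card := by
      apply Finset.card_lt_card
      rw [Finset.ssubset_iff_of_subset (inClass_subset a R c hc)]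
      exact ⟨g, hgmono, hgnot⟩
    have h3 := mono_same_le (k := r+1) (by omega) a c
    have h4 := hopt (sameGraph c)
    omega
  exact iso_turan c (fun j => by have := hbig j; omega) hbal Rᶜ hadj

/-- The Turan colouring has few monochromatic copies. -/
lemma mono_turan_le {n r : ℕ} (hr : 0 < r) (a : Fin s → Fin (r+1)) :
    (mono (pend a) (SimpleGraph.turanGraph n r)ᶜ).card ≤ r * (n / r + 1)^(r+1+s) := by
  set c : Fin n → Fin r := fun x => ⟨x % r, Nat.mod_lt _ hr⟩ with hc
  have h1 : (SimpleGraph.turanGraph n r)ᶜ = sameGraph c := by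
    ext x y
    rw [SimpleGraph.compl_adj, SimpleGraph.turanGraph_adj]
    simp only [sameGraph, hc, Fin.mk.injEq, not_not, ne_eq]
  rw [h1]
  refine (mono_same_le (k := r+1) (by omega) a c).trans ?_
  unfold NC
  have h2 : ∀ j, (cls c j).card ≤ n / r + 1 := by
    intro j
    have h3 : (cls c j).card ≤ (Finset.range (n / r + 1)).card := by
      refine Finset.card_le_card_of_injOn (fun x => (x : ℕ) / r) ?_ ?_
      · intro x _
        rw [Finset.mem_coe, Finset.mem_range]
        have := x.is_lt
        exact Nat.lt_succ_of_le (Nat.div_le_div_right this.le)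
      · intro x hx y hy hxy
        rw [Finset.mem_coe, mem_cls, hc] at hx hy
        have hx' := congrArg Fin.val hx
        have hy' := congrArg Fin.val hy
        simp only at hx' hy' hxy
        apply Fin.ext
        rw [← Nat.div_add_mod (x:ℕ) r, ← Nat.div_add_mod (y:ℕ) r, hxy, hx', hy']
    simpa using h3
  calc ∑ j, (cls c j).card.descFactorial (r+1+s) ≤ ∑ _j : Fin r, (n/r+1)^(r+1+s) := by
        apply Finset.sum_le_sum
        intro j _
        exact (Nat.descFactorial_le_pow _ _).trans (Nat.pow_le_pow_left (h2 j) _)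
    _ = _ := by rw [Finset.sum_const, Finset.card_univ, Fintype.card_fin, smul_eq_mul]

end final

end Pool.Agent.Work.MP_333fa2_co
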