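import Pool.Agent.Work.MP_333fa2_co.Local

/-!
Flipping a blue edge inside a part.
-/

namespace Pool.Agent.Work.MP_333fa2_co

open Finset
open scoped Classical

variable {W : Type*} [Fintype W] {r0 s : ℕ} {n f r M : ℝ}

/-- flipping the colour of a blue edge `uv` -/
lemma flip_ineq {k : ℕ} (a : Fin s → Fin k) (R : SimpleGraph W) (hopt : Optimal (pend a) R)
    {u v : W} (huv : u ≠ v) (z0 z1 : Fin k ⊕ Fin s) (hz : (pend a).Adj z0 z1) (Δ : ℕ)
    (hΔ : ∀ x, dg R x + 1 ≤ Δ) :
    ((copies (pend a) Rᶜ).filter (fun g => g z0 = u ∧ g z1 = v)).card ≤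
      (k + s)^2 * Δ^(k+s-2) := by
  set R' : SimpleGraph W := R ⊔ SimpleGraph.edge u v with hR'
  have hR'adj : ∀ x y, R'.Adj x y ↔ R.Adj x y ∨ (x = u ∧ y = v ∨ x = v ∧ y = u) := by
    intro x y
    rw [hR', SimpleGraph.sup_adj, SimpleGraph.edge_adj]
    constructor
    · rintro (h | ⟨h, _⟩)
      · left; exact h
      · right; exact h
    · rintro (h | h)
      · left; exact h
      · right
        refine ⟨h, ?_⟩
        rcases h with ⟨rfl, rfl⟩ | ⟨rfl, rfl⟩
        · exact huv
        · exact huv.symm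
  have hdeg : ∀ x, dg R' x ≤ Δ := by
    intro x
    refine le_trans ?_ (hΔ x)
    have h1 : dg R' x = (nb R' univ x).card := rfl
    have h2 : dg R x = (nb R univ x).card := rfl
    rw [h1, h2]
    have h3 : nb R' univ x ⊆ insert (if x = u then v else u) (nb R univ x) := by
      intro y hy
      rw [mem_nb, hR'adj] at hy
      rw [Finset.mem_insert, mem_nb]
      rcases hy.2 with h | ⟨h1, h2⟩ | ⟨h1, h2⟩
      · right; exact ⟨Finset.mem_univ _, h⟩
      · left; rw [if_pos h1, h2]
      · left
        rw [if_neg, h2]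
        rw [h1]; exact huv.symm
    exact (Finset.card_le_card h3).trans (Finset.card_insert_le _ _)
  have h1 := hopt R'
  rw [card_mono R hz, card_mono R' hz] at h1
  set E := (copies (pend a) Rᶜ).filter (fun g => g z0 = u ∧ g z1 = v) with hE
  have h2 : (copies (pend a) R'ᶜ).card + E.card ≤ (copies (pend a) Rᶜ).card := by
    rw [← Finset.card_union_of_disjoint]
    · apply Finset.card_le_card
      intro g hg
      rw [Finset.mem_union] at hg
      rcases hg with hg | hg
      · rw [mem_copies] at hg ⊢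
        refine ⟨hg.1, ?_⟩
        intro x y hxy
        have h3 := hg.2 x y hxy
        rw [SimpleGraph.compl_adj, hR'adj] at h3
        rw [SimpleGraph.compl_adj]
        exact ⟨h3.1, fun h4 => h3.2 (Or.inl h4)⟩
      · exact (Finset.mem_filter.1 hg).1
    · rw [Finset.disjoint_left]
      intro g hg hg'
      rw [mem_copies] at hg
      rw [hE, Finset.mem_filter] at hg'
      have h3 := hg.2 z0 z1 hz
      rw [SimpleGraph.compl_adj, hR'adj] at h3
      exact h3.2 (Or.inr (Or.inl hg'.2))
  set P : Finset ((Fin k ⊕ Fin s) × (Fin k ⊕ Fin s)) :=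
    univ.filter (fun p => (pend a).Adj p.1 p.2) with hP
  have h3 : (copies (pend a) R').card ≤ (copies (pend a) R).card +
      (k+s)^2 * Δ^(k+s-2) := by
    have hsub : copies (pend a) R' ⊆ copies (pend a) R ∪
        P.biUnion (fun p => (copies (pend a) R').filter (fun g => g p.1 = u ∧ g p.2 = v)) := by
      intro g hg
      rw [Finset.mem_union]
      by_cases h4 : g ∈ copies (pend a) R
      · left; exact h4
      · right
        rw [Finset.mem_biUnion]
        have hg' := hg
        rw [mem_copies] at hg' h4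
        push Not at h4
        obtain ⟨x, y, hxy, hnot⟩ := h4 hg'.1
        rcases (hR'adj _ _).1 (hg'.2 x y hxy) with h5 | h5 | h5
        · exact absurd h5 hnot
        · refine ⟨(x, y), ?_, ?_⟩
          · rw [hP, Finset.mem_filter]; exact ⟨Finset.mem_univ _, hxy⟩
          · rw [Finset.mem_filter]; exact ⟨hg, h5⟩
        · refine ⟨(y, x), ?_, ?_⟩
          · rw [hP, Finset.mem_filter]; exact ⟨Finset.mem_univ _, hxy.symm⟩
          · rw [Finset.mem_filter]; exact ⟨hg, h5.2, h5.1⟩
    refine (Finset.card_le_card hsub).trans ?_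
    refine (Finset.card_union_le _ _).trans ?_
    apply Nat.add_le_add_left
    refine Finset.card_biUnion_le.trans ?_
    calc _ ≤ ∑ _p ∈ P, Δ^(k+s-2) := by
          apply Finset.sum_le_sum
          rintro ⟨x, y⟩ hp
          rw [hP, Finset.mem_filter] at hp
          have hadj := hp.2
          simp only at hadj ⊢
          rcases x with i | p
          · exact copies_two_le a R' Δ hdeg i y hadj.ne' u v
          · rcases y with i | q
            · have h5 := copies_two_le a R' Δ hdeg i (Sum.inr p) (by simp) v u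
              refine le_trans (le_of_eq ?_) h5
              congr 1
              ext g
              simp only [Finset.mem_filter]
              tauto
            · exact absurd hadj (pend_inr_inr a p q)
      _ ≤ ∑ _p : ((Fin k ⊕ Fin s) × (Fin k ⊕ Fin s)), Δ^(k+s-2) :=
          Finset.sum_le_sum_of_subset (Finset.subset_univ _)
      _ = _ := by
          rw [Finset.sum_const, Finset.card_univ, Fintype.card_prod, smul_eq_mul]
          simp [pow_two]
  omega

/-- No blue edge inside a part. -/
lemma no_blue_inside (h : Setup2 W r0 s n f r M) (a : Fin s → Fin (r0+2)) (R : SimpleGraph W)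
    (hopt : Optimal (pend a) R)
    {X : Fin (r0+1) → Finset W} (hX : Parts R r0 n f r M X)
    (hred : ∀ v, (dg R v : ℝ) < 9/8 * f) (i : Fin (r0+1)) {u v : W} (huv : Rᶜ.Adj u v)
    (hu : 4 * ((nb Rᶜ (X i) u).card : ℝ) < ((X i).card : ℝ))
    (hv : 4 * ((nb Rᶜ (X i) v).card : ℝ) < ((X i).card : ℝ)) : False := by
  have hf := h.fpos
  have hr3 := h.r3
  have hM := h.M16
  have hMpos := h.Mpos
  have hrf := h.rf
  have hf2 := h.f2
  have ht0 := h.t_ge
  have hr0 : (r0:ℝ) = r - 1 := by rw [h.hr]; ring
  have htf : (r0:ℝ) + 2 + s ≤ f / 32000 := by nlinarith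
  have h1f : (1:ℝ) ≤ f/32000 := by
    have : (0:ℝ) ≤ r0 := Nat.cast_nonneg _
    have : (0:ℝ) ≤ s := Nat.cast_nonneg _
    linarith
  obtain ⟨q0, hq0⟩ : ∃ q0, r0 = q0 + 1 := ⟨r0 - 1, by have := h.hr0; omega⟩
  -- vertices outside X i
  have hout : ∀ x : W, 4 * ((nb Rᶜ (X i) x).card : ℝ) < ((X i).card : ℝ) → ∀ j, j ≠ i →
      ((miss Rᶜ (X j) x).card : ℝ) ≤ 385/1000 * f := by
    intro x hx j hj
    have h1 : (X i).card ≤ (nb Rᶜ (X i) x).card + (nb R (X i) x).card + 1 := by
      have : X i ⊆ insert x ((nb Rᶜ (X i) x) ∪ (nb R (X i) x)) := by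
        intro y hy
        rw [Finset.mem_insert, Finset.mem_union, mem_nb, mem_nb, SimpleGraph.compl_adj]
        by_cases h1 : y = x
        · left; exact h1
        · right
          by_cases h2 : R.Adj x y
          · right; exact ⟨hy, h2⟩
          · left; exact ⟨hy, fun h => h1 h.symm, h2⟩
      calc (X i).card ≤ _ := Finset.card_le_card this
        _ ≤ _ := Finset.card_insert_le _ _
        _ ≤ _ := by
          have := Finset.card_union_le (nb Rᶜ (X i) x) (nb R (X i) x)
          omega
    have h2 : ((X i).card : ℝ) ≤ (nb Rᶜ (X i) x).card + (nb R (X i) x).card + 1 := by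
      exact_mod_cast h1
    have h3 := hX.card i
    have h4 : (miss Rᶜ (X j) x).card + (nb R (X i) x).card ≤ dg R x + 1 := by
      rw [← Finset.card_union_of_disjoint]
      · have hdg : dg R x = (nb R univ x).card := rfl
        rw [hdg]
        refine le_trans (Finset.card_le_card (t := insert x (nb R univ x)) ?_)
          (Finset.card_insert_le _ _)
        intro y hy
        rw [Finset.mem_union, mem_miss, mem_nb, SimpleGraph.compl_adj] at hy
        rw [Finset.mem_insert, mem_nb]
        rcases hy with ⟨_, hy⟩ | ⟨_, hy⟩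
        · by_cases h3 : y = x
          · left; exact h3
          · right
            refine ⟨Finset.mem_univ _, ?_⟩
            by_contra h4
            exact hy ⟨fun h5 => h3 h5.symm, h4⟩
        · right; exact ⟨Finset.mem_univ _, hy⟩
      · rw [Finset.disjoint_left]
        intro y hy hy'
        exact Finset.disjoint_left.1 (hX.disj j i hj) (mem_miss.1 hy).1 (mem_nb.1 hy').1
    have h5 : ((miss Rᶜ (X j) x).card : ℝ) + (nb R (X i) x).card ≤ dg R x + 1 := by
      exact_mod_cast h4
    have h6 := hred x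
    linarith
  -- the sets for the greedy embedding
  set S : Fin (q0+1) → Finset W := fun j =>
    nb Rᶜ (nb Rᶜ (X (i.succAbove (Fin.cast hq0.symm j))) u) v with hS
  have hScard : ∀ j, 2/10 * f ≤ ((S j).card : ℝ) := by
    intro j
    set j' := i.succAbove (Fin.cast hq0.symm j) with hj'
    have hne : j' ≠ i := Fin.succAbove_ne _ _
    have h1 := nb_add_miss Rᶜ (X j') u
    have h2 := nb_add_miss Rᶜ (nb Rᶜ (X j') u) v
    have h3 : (miss Rᶜ (nb Rᶜ (X j') u) v).card ≤ (miss Rᶜ (X j') v).card := by
      apply Finset.card_le_card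
      intro y hy
      rw [mem_miss] at hy ⊢
      exact ⟨nb_subset hy.1, hy.2⟩
    have h4 : (X j').card ≤ (S j).card + (miss Rᶜ (X j') u).card + (miss Rᶜ (X j') v).card := by
      have : S j = nb Rᶜ (nb Rᶜ (X j') u) v := rfl
      rw [this]
      omega
    have h5 : ((X j').card : ℝ) ≤ (S j).card + (miss Rᶜ (X j') u).card +
      (miss Rᶜ (X j') v).card := by exact_mod_cast h4
    have h6 := hout u hu j' hne
    have h7 := hout v hv j' hne
    have h8 := hX.card j'
    linarith
  have hq : (q0:ℝ) * (27/(1000*(r+1)) * f) ≤ 27/1000 * f := by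
    have hq0' : (q0:ℝ) = r - 2 := by
      have : (r0:ℝ) = q0 + 1 := by exact_mod_cast hq0
      linarith
    rw [hq0']
    have h1 : (r-2) * (27/(1000*(r+1)) * f) = (r-2)/(r+1) * (27/1000 * f) := by
      field_simp
    rw [h1]
    have h2 : (r-2)/(r+1) ≤ 1 := by rw [div_le_one (by linarith)]; linarith
    have h3 : 0 ≤ 27/1000 * f := by positivity
    nlinarith
  have hcl := gc_const' Rᶜ (q := 27/(1000*(r+1)) * f) (a := f/10) (by positivity) (by positivity)
    q0 S (by
      intro j
      have := hScard j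
      linarith) (by
      intro j l hjl x hx
      have hne : i.succAbove (Fin.cast hq0.symm l) ≠ i.succAbove (Fin.cast hq0.symm j) := by
        intro h1
        have h2 := Fin.succAbove_right_injective h1
        apply hjl
        ext
        have := congrArg Fin.val h2
        simpa using this.symm
      refine le_trans ?_ (hX.missB _ _ hne x (nb_subset (nb_subset hx)))
      have : miss Rᶜ (S l) x ⊆ miss Rᶜ (X (i.succAbove (Fin.cast hq0.symm l))) x := by
        intro y hy
        rw [mem_miss] at hy ⊢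
        exact ⟨nb_subset (nb_subset hy.1), hy.2⟩
      exact_mod_cast Finset.card_le_card this)
  subst hq0
  -- cliques containing u, v
  set Q : Finset (Fin (q0+1+2) → W) := (cl Rᶜ S).image
    (fun w => (Fin.cons u (Fin.cons v w : Fin (q0+1+1) → W) : Fin (q0+1+2) → W)) with hQ
  have hQcard : Q.card = (cl Rᶜ S).card := by
    rw [hQ, Finset.card_image_of_injective]
    intro w w' hw
    have h1 := Fin.cons_right_injective (α := fun _ => W) u hw
    exact Fin.cons_right_injective (α := fun _ => W) v h1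
  have hSu : ∀ j, ∀ x ∈ S j, Rᶜ.Adj u x := fun j x hx => (mem_nb.1 (nb_subset hx)).2
  have hSv : ∀ j, ∀ x ∈ S j, Rᶜ.Adj v x := fun j x hx => (mem_nb.1 hx).2
  have hQadj : ∀ x ∈ Q, ∀ i l, i ≠ l → Rᶜ.Adj (x i) (x l) := by
    intro x hx
    rw [hQ, Finset.mem_image] at hx
    obtain ⟨w, hw, rfl⟩ := hx
    have hw' := mem_cl'.1 hw
    have hlt : ∀ i l : Fin (q0+1+2), i < l → Rᶜ.Adj
        ((Fin.cons u (Fin.cons v w : Fin (q0+1+1) → W) : Fin (q0+1+2) → W) i)
        ((Fin.cons u (Fin.cons v w : Fin (q0+1+1) → W) : Fin (q0+1+2) → W) l) := by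
      intro i l
      refine Fin.cases ?_ ?_ i
      · refine Fin.cases ?_ ?_ l
        · intro h; exact absurd h (lt_irrefl _)
        · intro l _
          refine Fin.cases ?_ ?_ l
          · simpa using huv
          · intro l
            simpa using hSu l _ (hw'.1 l)
      · intro i
        refine Fin.cases ?_ ?_ l
        · intro h; exact absurd h (Fin.not_lt_zero _)
        · intro l hil
          rw [Fin.cons_succ, Fin.cons_succ]
          have hil' := Fin.succ_lt_succ_iff.1 hil
          revert hil'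
          refine Fin.cases ?_ ?_ i
          · refine Fin.cases ?_ ?_ l
            · intro h; exact absurd h (lt_irrefl _)
            · intro l _
              simpa using hSv l _ (hw'.1 l)
          · intro i
            refine Fin.cases ?_ ?_ l
            · intro h; exact absurd h (Fin.not_lt_zero _)
            · intro l h
              rw [Fin.cons_succ, Fin.cons_succ]
              exact hw'.2 i l (Fin.succ_lt_succ_iff.1 h).ne
    intro i l hil
    rcases lt_or_gt_of_ne hil with h1 | h1
    · exact hlt i l h1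
    · exact (hlt l i h1).symm
  have hblue : ∀ x : W, 185/100 * f + (((q0+1 : ℕ):ℝ) + 2 + s) ≤ (dg Rᶜ x : ℝ) := by
    intro x
    have h1 := hred x
    have h3 := dg_add R x
    have h4 : (dg R x : ℝ) + (dg Rᶜ x : ℝ) + 1 = n := by
      rw [h.hn]; exact_mod_cast h3
    have h8 : 3 * f ≤ r * f := mul_le_mul_of_nonneg_right hr3 hf.le
    linarith
  have hext := ext_lower a Rᶜ Q hQadj (fun _ => 185/100 * f) (fun _ => by positivity) (by
    intro x _ i
    have := hblue (x i)
    push_cast at this ⊢
    linarith)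
  simp only [Finset.prod_const, Finset.card_univ, Fintype.card_fin] at hext
  rw [hQcard] at hext
  set Δ : ℕ := ⌊115/100 * f⌋₊ with hΔ
  have hflip := flip_ineq a R hopt huv.ne (Sum.inl 0) (Sum.inl 1)
    ((pend_inl_inl a 0 1).2 (by
      intro h1
      have := congrArg Fin.val h1
      simp at this)) Δ (by
      intro x
      rw [hΔ]
      apply Nat.le_floor
      have := hred x
      push_cast
      linarith)
  have h1 : ((copies (pend a) Rᶜ).filter (fun g => (fun i => g (Sum.inl i)) ∈ Q)).card ≤
      ((copies (pend a) Rᶜ).filter (fun g => g (Sum.inl 0) = u ∧ g (Sum.inl 1) = v)).card := by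
    apply Finset.card_le_card
    intro g hg
    rw [Finset.mem_filter] at hg ⊢
    refine ⟨hg.1, ?_⟩
    have h4 := hg.2
    rw [hQ, Finset.mem_image] at h4
    obtain ⟨w, _, hw⟩ := h4
    have h5 := congrFun hw 0
    have h6 := congrFun hw 1
    constructor
    · simpa using h5.symm
    · have h7 : (1 : Fin (q0+1+2)) = Fin.succ 0 := rfl
      rw [h7, Fin.cons_succ, Fin.cons_zero] at h6
      exact h6.symm
  have h2 : (((copies (pend a) Rᶜ).filter (fun g => (fun i => g (Sum.inl i)) ∈ Q)).card : ℝ) ≤
      (((q0+1+2 + s)^2 * Δ^(q0+1+2+s-2) : ℕ) : ℝ) := by exact_mod_cast h1.trans hflip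
  have h3 : q0+1+2+s-2 = q0+1+s := by omega
  rw [h3] at h2
  have h4 : ((cl Rᶜ S).card : ℝ) * (185/100 * f)^s ≤
      (((q0+1 : ℕ):ℝ) + 2 + s)^2 * (115/100 * f)^(q0+1+s) := by
    calc _ ≤ _ := hext
      _ ≤ _ := h2
      _ = (((q0+1 : ℕ):ℝ) + 2 + s)^2 * (Δ:ℝ)^(q0+1+s) := by push_cast; ring
      _ ≤ _ := by
          apply mul_le_mul_of_nonneg_left _ (by positivity)
          apply pow_le_pow_left₀ (by positivity)
          exact Nat.floor_le (by positivity)
  have h5 : (f/10)^(q0+1) * (185/100 * f)^s ≤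
      (((q0+1 : ℕ):ℝ) + 2 + s)^2 * (115/100 * f)^(q0+1+s) :=
    le_trans (mul_le_mul_of_nonneg_right hcl (by positivity)) h4
  have h6 : (f/10)^(q0+1) * (185/100 * f)^s = ((1/10)^(q0+1) * (185/100)^s) * f^(q0+1+s) := by
    rw [pow_add, mul_pow, div_eq_mul_one_div, mul_pow]; ring
  have h7 : (((q0+1 : ℕ):ℝ) + 2 + s)^2 * (115/100 * f)^(q0+1+s) =
      ((((q0+1 : ℕ):ℝ) + 2 + s)^2 * (115/100)^(q0+1+s)) * f^(q0+1+s) := by
    rw [mul_pow]; ring
  rw [h6, h7] at h5
  have h8 := le_of_mul_le_mul_right h5 (by positivity)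
  have h9 : (8/5 : ℝ)^s * (115/100)^s ≤ (185/100)^s := by
    rw [← mul_pow]
    exact pow_le_pow_left₀ (by norm_num) (by norm_num) _
  have h10 : (8/5 : ℝ)^s * (115/100)^s ≤
      (((q0+1 : ℕ):ℝ) + 2 + s)^2 * 12^(q0+1) * (115/100)^s := by
    calc (8/5 : ℝ)^s * (115/100)^s ≤ (185/100)^s := h9
      _ = 10^(q0+1) * ((1/10)^(q0+1) * (185/100)^s) := by
          rw [← mul_assoc, ← mul_pow]; norm_num
      _ ≤ 10^(q0+1) * ((((q0+1 : ℕ):ℝ) + 2 + s)^2 * (115/100)^(q0+1+s)) :=
          mul_le_mul_of_nonneg_left h8 (by positivity)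
      _ = (((q0+1 : ℕ):ℝ) + 2 + s)^2 * (115/10)^(q0+1) * (115/100)^s := by
          have : (115/10 : ℝ)^(q0+1) = 10^(q0+1) * (115/100)^(q0+1) := by
            rw [← mul_pow]; norm_num
          rw [this, pow_add]; ring
      _ ≤ _ := by
          apply mul_le_mul_of_nonneg_right _ (by positivity)
          apply mul_le_mul_of_nonneg_left _ (by positivity)
          exact pow_le_pow_left₀ (by norm_num) (by norm_num) _
  have h11 := le_of_mul_le_mul_right h10 (by positivity)
  have h12 := h.num6
  have h13 : (((q0+1 : ℕ):ℝ) + 2 + s)^2 * 12^(q0+1) ≤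
      (((q0+1 : ℕ):ℝ) + 2 + s)^2 * 12^(q0+1+2) := by
    apply mul_le_mul_of_nonneg_left _ (by positivity)
    exact pow_le_pow_right₀ (by norm_num) (by omega)
  linarith

/-- Summary: in one of the two colourings `R`, `Rᶜ`, the blue graph is `(k-1)`-partite. -/
lemma partite (h : Setup2 W r0 s n f r M) (a : Fin s → Fin (r0+2)) (R : SimpleGraph W)
    (hopt : Optimal (pend a) R)
    (hN : ((mono (pend a) R).card : ℝ) ≤ 2 * r * f^(r0+2+s)) :
    ∃ G : SimpleGraph W, (G = R ∨ G = Rᶜ) ∧ ∃ c : W → Fin (r0+1),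
      ∀ u v, Gᶜ.Adj u v → c u ≠ c v := by
  obtain ⟨G, hG, A, hA, hdeg⟩ := global h.toSetup a R hN
  have hmono : mono (pend a) G = mono (pend a) R := by
    rcases hG with rfl | rfl
    · rfl
    · exact mono_compl _ _
  have hoptG : Optimal (pend a) G := by
    rcases hG with rfl | rfl
    · exact hopt
    · exact hopt.compl
  have hNG : ((mono (pend a) G).card : ℝ) ≤ 2 * r * f^(r0+2+s) := by rw [hmono]; exact hN
  obtain ⟨X, hX⟩ := parts_exist h a G hNG A hA hdeg
  have hat := monoAt_bound h a G hoptG hNG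
  have hpart := exists_part h a G hat hX
  have hred := red_degree_small h a G hat hX
  choose c hc using hpart
  refine ⟨G, hG, c, ?_⟩
  intro u v huv hcuv
  have h1 := hc u
  have h2 := hc v
  rw [hcuv] at h1
  exact no_blue_inside h a G hoptG hX hred (c v) huv h1 h2

end Pool.Agent.Work.MP_333fa2_co
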