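import Pool.Agent.Work.MP_333fa2_co.Copies

/-!
Global structure of colourings with few monochromatic copies.
-/

namespace Pool.Agent.Work.MP_333fa2_co

open Finset
open scoped Classical

variable {W : Type*} [Fintype W]

lemma dg_add (R : SimpleGraph W) (x : W) : dg R x + dg Rᶜ x + 1 = Fintype.card W := by
  have h1 := nb_add_miss R univ x
  rw [Finset.card_univ] at h1
  have h2 : miss R univ x = insert x (nb Rᶜ univ x) := by
    ext y
    rw [mem_miss, Finset.mem_insert, mem_nb, SimpleGraph.compl_adj]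
    constructor
    · rintro ⟨_, h⟩
      by_cases h1 : y = x
      · left; exact h1
      · right; exact ⟨Finset.mem_univ _, fun h2 => h1 h2.symm, h⟩
    · rintro (h | h)
      · subst h; exact ⟨Finset.mem_univ _, R.irrefl⟩
      · exact ⟨Finset.mem_univ _, h.2.2⟩
  have h3 : (insert x (nb Rᶜ univ x)).card = (nb Rᶜ univ x).card + 1 := by
    apply Finset.card_insert_of_notMem
    rw [mem_nb]
    rintro ⟨_, h⟩
    exact h.ne rfl
  have h4 : dg R x = (nb R univ x).card := rfl
  have h5 : dg Rᶜ x = (nb Rᶜ univ x).card := rfl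
  rw [h2, h3] at h1
  rw [h4, h5]
  omega

/-- Standing assumptions. -/
structure Setup (W : Type*) [Fintype W] (r0 s : ℕ) (n f r M : ℝ) : Prop where
  hr0 : 2 ≤ r0
  hr : r = r0 + 1
  hn : n = Fintype.card W
  hf : f = n / r
  hM : M = 1000 * (r+1)^2
  hL : M^3 * 16^(r0+2) * ((r0:ℝ) + 2 + s) ≤ f
  num1 : 2 * (r+1) * (M * 16^(r0+2))^(r0+2) < (1 + 1/(2*M))^s
  num2 : 2 * (r+1) * (M^3)^(r0+2) < (3/2 : ℝ)^s
  num3 : (r+1) * 2^(r0+2) * M^2 ≤ (3/2 : ℝ)^s

namespace Setup

variable {r0 s : ℕ} {n f r M : ℝ}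

lemma r3 (h : Setup W r0 s n f r M) : 3 ≤ r := by
  have : (2:ℝ) ≤ r0 := by exact_mod_cast h.hr0
  rw [h.hr]; linarith

lemma M16 (h : Setup W r0 s n f r M) : 16000 ≤ M := by
  have := h.r3
  rw [h.hM]; nlinarith

lemma Mr (h : Setup W r0 s n f r M) : 1000 * (r+1)^2 ≤ M := by
  rw [h.hM]

lemma Mpos (h : Setup W r0 s n f r M) : 0 < M := by
  have := h.M16; linarith

lemma t_ge (_h : Setup W r0 s n f r M) : (0:ℝ) ≤ (r0:ℝ) + 2 + s := by positivity

lemma f1 (h : Setup W r0 s n f r M) : M^3 * ((r0:ℝ) + 2 + s) ≤ f := by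
  have h1 := h.hL
  have h2 : (1:ℝ) ≤ 16^(r0+2) := one_le_pow₀ (by norm_num)
  have h3 := h.Mpos
  have h4 := h.t_ge
  have h5 : M^3 * ((r0:ℝ) + 2 + s) * 1 ≤ M^3 * ((r0:ℝ) + 2 + s) * 16^(r0+2) :=
    mul_le_mul_of_nonneg_left h2 (by positivity)
  nlinarith

lemma f2 (h : Setup W r0 s n f r M) : 2 * M * ((r0:ℝ) + 2 + s) ≤ f := by
  have h1 := h.f1
  have h3 := h.M16
  have h4 := h.t_ge
  have h5 : 2 * M ≤ M^3 := by nlinarith [sq_nonneg M, mul_pos h.Mpos h.Mpos]
  nlinarith

lemma f3 (h : Setup W r0 s n f r M) : M^3 ≤ f := by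
  have h1 := h.f1
  have h4 : (1:ℝ) ≤ (r0:ℝ) + 2 + s := by
    have : (0:ℝ) ≤ r0 := Nat.cast_nonneg _
    have : (0:ℝ) ≤ s := Nat.cast_nonneg _
    linarith
  have h5 : 0 ≤ M^3 := by have := h.Mpos; positivity
  nlinarith

lemma fpos (h : Setup W r0 s n f r M) : 0 < f := by
  have h1 := h.f3
  have h2 : 0 < M^3 := by have := h.Mpos; positivity
  linarith

lemma rf (h : Setup W r0 s n f r M) : r * f = n := by
  have := h.r3
  rw [h.hf]; field_simp

lemma npos (h : Setup W r0 s n f r M) : 0 < n := by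
  rw [← h.rf]
  have := h.r3
  have := h.fpos
  positivity

lemma f16 (h : Setup W r0 s n f r M) : M * 16^(r0+2) ≤ f := by
  have h1 := h.hL
  have h2 : (0:ℝ) < 16^(r0+2) := by positivity
  have h3 := h.M16
  have h4 : (1:ℝ) ≤ (r0:ℝ) + 2 + s := by
    have : (0:ℝ) ≤ r0 := Nat.cast_nonneg _
    have : (0:ℝ) ≤ s := Nat.cast_nonneg _
    linarith
  have h5 : M ≤ M^3 := by nlinarith [sq_nonneg M, mul_pos h.Mpos h.Mpos]
  calc M * 16^(r0+2) ≤ M^3 * 16^(r0+2) := mul_le_mul_of_nonneg_right h5 h2.le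
    _ = M^3 * 16^(r0+2) * 1 := by ring
    _ ≤ M^3 * 16^(r0+2) * ((r0:ℝ) + 2 + s) := by
        apply mul_le_mul_of_nonneg_left h4
        have := h.Mpos; positivity
    _ ≤ f := h1

end Setup

variable {r0 s : ℕ} {n f r M : ℝ}

/-- extension of cliques, constant degree version -/
lemma ext_const (a : Fin s → Fin (r0+2)) (R : SimpleGraph W) (Q : Finset (Fin (r0+2) → W))
    (hQ : ∀ x ∈ Q, ∀ i l, i ≠ l → R.Adj (x i) (x l)) {D : ℝ} (hD : 0 ≤ D)
    (hdeg : ∀ x ∈ Q, ∀ i, D + ((r0:ℝ) + 2 + s) ≤ (dg R (x i) : ℝ)) :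
    (Q.card : ℝ) * D^s ≤ ((mono (pend a) R).card : ℝ) := by
  have h1 := ext_lower a R Q hQ (fun _ => D) (fun _ => hD) (by
    intro x hx i
    have := hdeg x hx i
    push_cast
    linarith)
  simp only [Finset.prod_const, Finset.card_univ, Fintype.card_fin] at h1
  refine h1.trans ?_
  have h2 : ((copies (pend a) R).filter (fun f => (fun i => f (Sum.inl i)) ∈ Q)).card ≤
      (mono (pend a) R).card :=
    Finset.card_le_card ((Finset.filter_subset _ _).trans (copies_subset_mono _ _))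
  exact_mod_cast h2

/-- few blue cliques inside a set of vertices of small red degree -/
lemma blue_le (h : Setup W r0 s n f r M) (a : Fin s → Fin (r0+2)) (R : SimpleGraph W)
    (hN : ((mono (pend a) R).card : ℝ) ≤ 2 * r * f^(r0+2+s)) (A : Finset W)
    (hA : ∀ x ∈ A, (dg R x : ℝ) ≤ (1+1/M) * f) :
    ((cl Rᶜ (fun _ : Fin (r0+2) => A)).card : ℝ) * (3/2)^s ≤ 2 * r * f^(r0+2) := by
  have hf := h.fpos
  have hM := h.M16
  have h1 := ext_const a Rᶜ (cl Rᶜ (fun _ : Fin (r0+2) => A))
    (fun x hx i l hil => cl_adj hx hil) (D := 3/2 * f) (by positivity) (by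
      intro x hx i
      have hxA := (mem_cl.1 hx).1 i
      have h2 := hA _ hxA
      have h3 := dg_add R (x i)
      have h4 : (dg R (x i) : ℝ) + (dg Rᶜ (x i) : ℝ) + 1 = n := by
        rw [h.hn]; exact_mod_cast h3
      have h5 := h.f2
      have h6 : 1/M * f ≤ f/16000 := by
        rw [div_mul_eq_mul_div, one_mul]
        apply div_le_div_of_nonneg_left hf.le (by norm_num) hM
      have h7 := h.rf
      have h8 : 3 * f ≤ r * f := mul_le_mul_of_nonneg_right h.r3 hf.le
      have h9 := h.t_ge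
      have h10 : ((r0:ℝ) + 2 + s) ≤ f / 32000 := by nlinarith
      have h11 : (1:ℝ) ≤ f / 32000 := by
        have : (1:ℝ) ≤ (r0:ℝ) + 2 + s := by
          have : (0:ℝ) ≤ r0 := Nat.cast_nonneg _
          have : (0:ℝ) ≤ s := Nat.cast_nonneg _
          linarith
        linarith
      nlinarith)
  rw [mono_compl] at h1
  have h2 := h1.trans hN
  have h3 : (2:ℝ) * r * f^(r0+2+s) = (2 * r * f^(r0+2)) * f^s := by ring
  rw [h3, mul_pow] at h2
  have h4 : ((cl Rᶜ (fun _ : Fin (r0+2) => A)).card : ℝ) * (3/2)^s * f^s ≤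
      (2 * r * f^(r0+2)) * f^s := by
    calc _ = _ := by ring
      _ ≤ _ := h2
  exact le_of_mul_le_mul_right h4 (by positivity)

/-- few balanced vertices -/
lemma balanced_le (h : Setup W r0 s n f r M) (a : Fin s → Fin (r0+2)) (R : SimpleGraph W)
    (hN : ((mono (pend a) R).card : ℝ) ≤ 2 * r * f^(r0+2+s)) (U : Finset W)
    (hU : ∀ x ∈ U, (1+1/M) * f ≤ (dg R x : ℝ) ∧ (1+1/M) * f ≤ (dg Rᶜ x : ℝ)) :
    (U.card : ℝ) ≤ n / M := by
  by_contra hcon
  push Not at hcon
  have hf := h.fpos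
  have hM := h.M16
  have hMpos := h.Mpos
  have hr3 := h.r3
  have hfM : f / M ≤ n / M := by
    apply div_le_div_of_nonneg_right _ hMpos.le
    rw [← h.rf]; nlinarith
  have hUf : f / M ≤ (U.card : ℝ) := by linarith
  have h16 := h.f16
  have hcard : 4 ^ (2*(r0+2)) ≤ U.card := by
    have h1 : (16:ℝ)^(r0+2) ≤ f / M := by
      rw [le_div_iff₀ hMpos]; linarith
    have h2 : (16:ℝ)^(r0+2) ≤ (U.card : ℝ) := h1.trans hUf
    have h3 : (4:ℕ)^(2*(r0+2)) = 16^(r0+2) := by rw [pow_mul]; norm_num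
    rw [h3]
    exact_mod_cast h2
  have h4 : (4:ℝ) ^ (2*(r0+2)) = 16^(r0+2) := by rw [pow_mul]; norm_num
  have hram := ramsey_count R (2*(r0+2)) (r0+2) (r0+2) (by ring) U hcard
  rw [h4] at hram
  have hbase : f / (M * 16^(r0+2)) ≤ (U.card : ℝ) / 16^(r0+2) := by
    rw [← div_div]
    exact div_le_div_of_nonneg_right hUf (by positivity)
  -- general argument
  have key : ∀ G : SimpleGraph W, (mono (pend a) G = mono (pend a) R) →
      (∀ x ∈ U, (1+1/M) * f ≤ (dg G x : ℝ)) →
      ((U.card : ℝ) / 16^(r0+2)) ^ (r0+2) ≤ ((cl G (fun _ : Fin (r0+2) => U)).card : ℝ) →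
      False := by
    intro G hG hdeg hcl
    have h1 := ext_const a G (cl G (fun _ : Fin (r0+2) => U))
      (fun x hx i l hil => cl_adj hx hil) (D := (1 + 1/(2*M)) * f) (by positivity) (by
        intro x hx i
        have hxA := (mem_cl.1 hx).1 i
        have h2 := hdeg _ hxA
        have h5 := h.f2
        have h6 : (1+1/M) * f - (1 + 1/(2*M)) * f = f / (2*M) := by field_simp; ring
        have h7 : ((r0:ℝ) + 2 + s) ≤ f / (2*M) := by
          rw [le_div_iff₀ (by positivity)]; linarith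
        linarith)
    rw [hG] at h1
    have h2 := h1.trans hN
    have h3 : (f / (M * 16^(r0+2)))^(r0+2) * ((1 + 1/(2*M)) * f)^s ≤ 2 * r * f^(r0+2+s) := by
      refine le_trans ?_ h2
      apply mul_le_mul_of_nonneg_right _ (by positivity)
      refine le_trans ?_ hcl
      exact pow_le_pow_left₀ (by positivity) hbase _
    have h5 : (f / (M * 16^(r0+2)))^(r0+2) * ((1 + 1/(2*M)) * f)^s =
        (1 + 1/(2*M))^s / (M * 16^(r0+2))^(r0+2) * f^(r0+2+s) := by
      rw [div_pow, mul_pow (1 + 1/(2*M)) f s, pow_add]; ring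
    rw [h5] at h3
    have h6 := le_of_mul_le_mul_right h3 (by positivity)
    rw [div_le_iff₀ (by positivity)] at h6
    have h7 := h.num1
    have h8 : 2 * r * (M * 16^(r0+2))^(r0+2) ≤ 2 * (r+1) * (M * 16^(r0+2))^(r0+2) := by
      apply mul_le_mul_of_nonneg_right _ (by positivity)
      linarith
    linarith
  rcases hram with hram | hram
  · exact key R rfl (fun x hx => (hU x hx).1) hram
  · exact key Rᶜ (mono_compl _ _) (fun x hx => (hU x hx).2) hram

/-- excluding the mixed case -/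
lemma mixed (h : Setup W r0 s n f r M) (a : Fin s → Fin (r0+2)) (R : SimpleGraph W)
    (hN : ((mono (pend a) R).card : ℝ) ≤ 2 * r * f^(r0+2+s)) (A B : Finset W)
    (hAB : Disjoint A B)
    (hA : ∀ x ∈ A, (dg R x : ℝ) ≤ (1+1/M) * f)
    (hcard : n - n/M ≤ (A.card : ℝ) + B.card)
    (hA9 : 9 * n / M ≤ (A.card : ℝ))
    (he : (A.card : ℝ) * B.card ≤ 2 * ∑ x ∈ A, ((nb R B x).card : ℝ)) :
    (B.card : ℝ) < 9 * n / M := by
  by_contra hcon
  push Not at hcon
  have hf := h.fpos
  have hM := h.M16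
  have hMpos := h.Mpos
  have hr3 := h.r3
  have hrpos : 0 < r := by linarith
  have hn := h.npos
  have hrf := h.rf
  have hf3 := h.f3
  have hblue := blue_le h a R hN A hA
  have hApos : 0 < (A.card : ℝ) := by
    have : 0 < 9 * n / M := by positivity
    linarith
  -- lower bound for nonE
  have hbig : (1 - 1/M) * (A.card : ℝ)^2 / r < (nonE Rᶜ A : ℝ) := by
    by_contra hcon2
    push Not at hcon2
    have h1 : 1 ≤ r0 + 1 := by omega
    have hr' : ((r0 + 1 : ℕ) : ℝ) = r := by rw [h.hr]; push_cast; ring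
    have h2 := avg_turan Rᶜ (r0+1) h1 (κ := 1/M) (by positivity) (by
      rw [div_le_one hMpos]; linarith) A (by rw [hr']; exact hcon2) (by
      rw [hr']
      have : 4 * r / (1/M)^2 = 4 * r * M^2 := by field_simp
      rw [this]
      have h3 : 4 * r * M^2 ≤ 9 * n / M := by
        rw [le_div_iff₀ hMpos, ← hrf]
        nlinarith
      linarith)
    have h3 : (f / M^3)^(r0+2) ≤ ((cl Rᶜ (fun _ : Fin (r0+2) => A)).card : ℝ) := by
      refine le_trans ?_ h2
      apply pow_le_pow_left₀ (by positivity)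
      have h4 : (1/M)^2 * (9 * n / M) / 8 ≤ (1/M)^2 * (A.card : ℝ) / 8 := by
        apply div_le_div_of_nonneg_right _ (by norm_num)
        exact mul_le_mul_of_nonneg_left hA9 (by positivity)
      have h5 : (1/M)^2 * (9 * n / M) / 8 = 9 * n / 8 / M^3 := by field_simp
      rw [h5] at h4
      refine le_trans ?_ h4
      apply div_le_div_of_nonneg_right _ (by positivity)
      nlinarith
    have h4 : (f / M^3)^(r0+2) * (3/2)^s ≤ 2 * r * f^(r0+2) :=
      le_trans (mul_le_mul_of_nonneg_right h3 (by positivity)) hblue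
    have h5 : (f / M^3)^(r0+2) * (3/2)^s = (3/2)^s / (M^3)^(r0+2) * f^(r0+2) := by
      rw [div_pow]; ring
    rw [h5] at h4
    have h6 := le_of_mul_le_mul_right h4 (by positivity)
    rw [div_le_iff₀ (by positivity)] at h6
    have h7 := h.num2
    have h8 : 2 * r * (M^3)^(r0+2) ≤ 2 * (r+1) * (M^3)^(r0+2) := by
      apply mul_le_mul_of_nonneg_right _ (by positivity)
      linarith
    linarith
  -- upper bound for nonE
  have hup : (nonE Rᶜ A : ℝ) + ∑ x ∈ A, ((nb R B x).card : ℝ) ≤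
      (A.card : ℝ) * ((1+1/M) * f + 1) := by
    have h1 : ∀ x ∈ A, ((miss Rᶜ A x).card : ℝ) + ((nb R B x).card : ℝ) ≤ (1+1/M) * f + 1 := by
      intro x hx
      have h2 : (miss Rᶜ A x).card + (nb R B x).card ≤ dg R x + 1 := by
        rw [← Finset.card_union_of_disjoint]
        · calc _ ≤ (insert x (univ.filter (fun y => R.Adj x y))).card := by
                apply Finset.card_le_card
                intro y hy
                rw [Finset.mem_union, mem_miss, mem_nb, SimpleGraph.compl_adj] at hy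
                rw [Finset.mem_insert, Finset.mem_filter]
                rcases hy with ⟨_, hy⟩ | ⟨_, hy⟩
                · by_cases h3 : y = x
                  · left; exact h3
                  · right
                    refine ⟨Finset.mem_univ _, ?_⟩
                    by_contra h4
                    exact hy ⟨fun h5 => h3 h5.symm, h4⟩
                · right; exact ⟨Finset.mem_univ _, hy⟩
            _ ≤ _ := Finset.card_insert_le _ _
        · rw [Finset.disjoint_left]
          intro y hy hy'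
          exact Finset.disjoint_left.1 hAB (mem_miss.1 hy).1 (mem_nb.1 hy').1
      have h3 : ((miss Rᶜ A x).card : ℝ) + ((nb R B x).card : ℝ) ≤ (dg R x : ℝ) + 1 := by
        exact_mod_cast h2
      linarith [hA x hx]
    have h2 := Finset.sum_le_sum h1
    rw [Finset.sum_add_distrib, Finset.sum_const, nsmul_eq_mul] at h2
    unfold nonE
    push_cast
    exact h2
  have h1 : (1 - 1/M) * (A.card : ℝ)^2 / r + (A.card : ℝ) * B.card / 2 <
      (A.card : ℝ) * ((1+1/M) * f + 1) := by linarith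
  have h2 : (A.card : ℝ) * ((1 - 1/M) * (A.card : ℝ) / r + (B.card : ℝ) / 2) <
      (A.card : ℝ) * ((1+1/M) * f + 1) := by
    calc _ = (1 - 1/M) * (A.card : ℝ)^2 / r + (A.card : ℝ) * B.card / 2 := by ring
      _ < _ := h1
  have h3 := lt_of_mul_lt_mul_left h2 hApos.le
  -- multiply by r
  have h4 : (1 - 1/M) * (A.card : ℝ) + r * (B.card : ℝ) / 2 < (1+1/M) * n + r := by
    have h5 : r * ((1 - 1/M) * (A.card : ℝ) / r + (B.card : ℝ) / 2) <
        r * ((1+1/M) * f + 1) := mul_lt_mul_of_pos_left h3 hrpos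
    have h6 : r * ((1 - 1/M) * (A.card : ℝ) / r + (B.card : ℝ) / 2) =
        (1 - 1/M) * (A.card : ℝ) + r * (B.card : ℝ) / 2 := by field_simp
    have h7 : r * ((1+1/M) * f + 1) = (1+1/M) * n + r := by rw [← hrf]; ring
    linarith
  set e : ℝ := n / M with hedef
  have hM1 : 0 ≤ 1 - 1/M := by
    rw [sub_nonneg, div_le_one hMpos]; linarith
  have h5 : (1 - 1/M) * (n - e - B.card) ≤ (1 - 1/M) * (A.card : ℝ) := by
    apply mul_le_mul_of_nonneg_left _ hM1
    linarith
  have h6 : 9 * n / M = 9 * e := by rw [hedef]; ring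
  rw [h6] at hcon
  have h7 : 1/M * n = e := by rw [hedef]; ring
  have hepos : 0 < e := by positivity
  have h8 : r ≤ e := by
    rw [hedef, le_div_iff₀ hMpos, ← hrf]
    have : M ≤ f := by nlinarith [sq_nonneg M, mul_pos hMpos hMpos]
    nlinarith
  have h9 : 1/M * e ≤ e := by
    rw [div_mul_eq_mul_div, one_mul]
    exact div_le_self hepos.le (by linarith)
  have h10 : 0 ≤ 1/M * (B.card : ℝ) := by positivity
  have h11 : 3 * (B.card : ℝ) ≤ r * (B.card : ℝ) :=
    mul_le_mul_of_nonneg_right hr3 (by positivity)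
  have h12 : 0 ≤ 1/M * e := by positivity
  nlinarith

lemma sum_nb_comm (R : SimpleGraph W) (A B : Finset W) :
    ∑ x ∈ A, (nb R B x).card = ∑ y ∈ B, (nb R A y).card := by
  unfold nb
  simp only [Finset.card_filter]
  rw [Finset.sum_comm]
  apply Finset.sum_congr rfl
  intro y _
  apply Finset.sum_congr rfl
  intro x _
  by_cases h : R.Adj x y
  · simp [h, h.symm]
  · have h' : ¬ R.Adj y x := fun h2 => h h2.symm
    simp [h, h']

/-- Global structure: in one of the two colours almost all degrees are small. -/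
lemma global (h : Setup W r0 s n f r M) (a : Fin s → Fin (r0+2)) (R : SimpleGraph W)
    (hN : ((mono (pend a) R).card : ℝ) ≤ 2 * r * f^(r0+2+s)) :
    ∃ G : SimpleGraph W, (G = R ∨ G = Rᶜ) ∧ ∃ A : Finset W, (1 - 10/M) * n ≤ (A.card : ℝ) ∧
      ∀ x ∈ A, (dg G x : ℝ) ≤ (1+1/M) * f := by
  have hf := h.fpos
  have hM := h.M16
  have hMpos := h.Mpos
  have hr3 := h.r3
  have hrpos : 0 < r := by linarith
  have hn := h.npos
  have hrf := h.rf
  set A := univ.filter (fun x : W => (dg R x : ℝ) ≤ (1+1/M) * f) with hA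
  set B := univ.filter (fun x : W => (dg Rᶜ x : ℝ) ≤ (1+1/M) * f) with hB
  set U := univ.filter (fun x : W => ¬ ((dg R x : ℝ) ≤ (1+1/M) * f) ∧
    ¬ ((dg Rᶜ x : ℝ) ≤ (1+1/M) * f)) with hU
  have hUcard : (U.card : ℝ) ≤ n / M := by
    apply balanced_le h a R hN U
    intro x hx
    rw [hU, Finset.mem_filter] at hx
    exact ⟨(not_le.1 hx.2.1).le, (not_le.1 hx.2.2).le⟩
  have hAB : Disjoint A B := by
    rw [Finset.disjoint_left]
    intro x hx hx'
    rw [hA, Finset.mem_filter] at hx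
    rw [hB, Finset.mem_filter] at hx'
    have h3 := dg_add R x
    have h4 : (dg R x : ℝ) + (dg Rᶜ x : ℝ) + 1 = n := by
      rw [h.hn]; exact_mod_cast h3
    have h6 : 1/M * f ≤ f/16000 := by
      rw [div_mul_eq_mul_div, one_mul]
      apply div_le_div_of_nonneg_left hf.le (by norm_num) hM
    have h8 : 3 * f ≤ r * f := mul_le_mul_of_nonneg_right hr3 hf.le
    have h9 : M ≤ f := by
      have := h.f3
      nlinarith [sq_nonneg M, mul_pos hMpos hMpos]
    nlinarith [hx.2, hx'.2]
  have hcard : n ≤ (A.card : ℝ) + B.card + U.card := by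
    have h1 : Fintype.card W ≤ A.card + B.card + U.card := by
      have h2 : (univ : Finset W) ⊆ (A ∪ B) ∪ U := by
        intro x _
        rw [Finset.mem_union, Finset.mem_union, hA, hB, hU, Finset.mem_filter, Finset.mem_filter,
          Finset.mem_filter]
        by_cases h3 : (dg R x : ℝ) ≤ (1+1/M) * f
        · left; left; exact ⟨Finset.mem_univ _, h3⟩
        · by_cases h4 : (dg Rᶜ x : ℝ) ≤ (1+1/M) * f
          · left; right; exact ⟨Finset.mem_univ _, h4⟩
          · right; exact ⟨Finset.mem_univ _, h3, h4⟩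
      have h3 := Finset.card_le_card h2
      rw [Finset.card_univ] at h3
      have h4 := Finset.card_union_le (A ∪ B) U
      have h5 := Finset.card_union_le A B
      omega
    rw [h.hn]
    exact_mod_cast h1
  have h10 : (1 - 10/M) * n = n - 9 * n / M - n / M := by ring
  -- either A or B is small
  have hAmem : ∀ x ∈ A, (dg R x : ℝ) ≤ (1+1/M) * f := fun x hx => (Finset.mem_filter.1 hx).2
  have hBmem : ∀ x ∈ B, (dg Rᶜ x : ℝ) ≤ (1+1/M) * f := fun x hx => (Finset.mem_filter.1 hx).2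
  have hsmall : (A.card : ℝ) < 9 * n / M ∨ (B.card : ℝ) < 9 * n / M := by
    by_contra hcon
    push Not at hcon
    obtain ⟨hA9, hB9⟩ := hcon
    have hsum : ∑ x ∈ A, ((nb R B x).card : ℝ) + ∑ y ∈ B, ((nb Rᶜ A y).card : ℝ) =
        (A.card : ℝ) * B.card := by
      have h1 : ∑ x ∈ A, (nb R B x).card + ∑ x ∈ A, (nb Rᶜ B x).card = A.card * B.card := by
        rw [← Finset.sum_add_distrib]
        have h2 : ∀ x ∈ A, (nb R B x).card + (nb Rᶜ B x).card = B.card := by
          intro x hx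
          rw [← nb_add_miss R B x]
          congr 2
          ext y
          rw [mem_nb, mem_miss, SimpleGraph.compl_adj]
          constructor
          · rintro ⟨h1, _, h2⟩; exact ⟨h1, h2⟩
          · rintro ⟨h1, h2⟩
            refine ⟨h1, ?_, h2⟩
            rintro rfl
            exact Finset.disjoint_left.1 hAB hx h1
        rw [Finset.sum_congr rfl h2, Finset.sum_const, smul_eq_mul]
      rw [sum_nb_comm Rᶜ A B] at h1
      exact_mod_cast h1
    by_cases hhalf : (A.card : ℝ) * B.card ≤ 2 * ∑ x ∈ A, ((nb R B x).card : ℝ)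
    · have := mixed h a R hN A B hAB hAmem (by linarith) hA9 hhalf
      linarith
    · push Not at hhalf
      have hN' : ((mono (pend a) Rᶜ).card : ℝ) ≤ 2 * r * f^(r0+2+s) := by
        rw [mono_compl]; exact hN
      have := mixed h a Rᶜ hN' B A hAB.symm hBmem (by linarith) hB9 (by
        rw [mul_comm (B.card : ℝ)]; linarith)
      linarith
  rcases hsmall with h1 | h1
  · exact ⟨Rᶜ, Or.inr rfl, B, by rw [h10]; linarith, hBmem⟩
  · exact ⟨R, Or.inl rfl, A, by rw [h10]; linarith, hAmem⟩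

end Pool.Agent.Work.MP_333fa2_co
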