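import Pool.Agent.Work.MP_333fa2_co.Global

/-!
Local analysis: every vertex behaves like a vertex of the Turan colouring.
-/

namespace Pool.Agent.Work.MP_333fa2_co

open Finset
open scoped Classical

variable {W : Type*} [Fintype W] {r0 s : ℕ} {n f r M : ℝ}

/-- Further numerical assumptions. -/
structure Setup2 (W : Type*) [Fintype W] (r0 s : ℕ) (n f r M : ℝ) : Prop
    extends Setup W r0 s n f r M where
  hL2 : ((r0:ℝ) + 2 + s) * r^(r0+s) ≤ f
  num4 : 3 * ((r0:ℝ) + 2 + s) * 5^(r0+2) < (7/5 : ℝ)^s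
  num5 : (3 * ((r0:ℝ) + 2 + s) * 2^(r0+2))^(r0+2) < (107/100 : ℝ)^s
  num6 : ((r0:ℝ) + 2 + s)^2 * 12^(r0+2) < (8/5 : ℝ)^s

lemma monoAt_bound (h : Setup2 W r0 s n f r M) (a : Fin s → Fin (r0+2)) (R : SimpleGraph W)
    (hopt : Optimal (pend a) R)
    (hN : ((mono (pend a) R).card : ℝ) ≤ 2 * r * f^(r0+2+s)) (v : W) :
    ((monoAt (pend a) R v).card : ℝ) ≤ 3 * ((r0:ℝ) + 2 + s) * f^(r0+1+s) := by
  have hf := h.fpos
  have hn := h.npos
  have h1 := monoAt_le hopt v
  have hT : Fintype.card (Fin (r0+2) ⊕ Fin s) = r0 + 2 + s := by simp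
  rw [hT] at h1
  have h2 : r0 + 2 + s - 2 = r0 + s := by omega
  rw [h2] at h1
  have h3 : n * ((monoAt (pend a) R v).card : ℝ) ≤
      ((r0:ℝ) + 2 + s) * ((mono (pend a) R).card : ℝ) +
      n * (((r0:ℝ) + 2 + s)^2 * n^(r0+s)) := by
    rw [h.hn]; exact_mod_cast h1
  set t : ℝ := (r0:ℝ) + 2 + s with ht
  have htpos : 0 < t := by rw [ht]; positivity
  have hrf := h.rf
  have h4 : t * ((mono (pend a) R).card : ℝ) ≤ n * (2 * t * f^(r0+1+s)) := by
    calc t * ((mono (pend a) R).card : ℝ) ≤ t * (2 * r * f^(r0+2+s)) :=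
          mul_le_mul_of_nonneg_left hN htpos.le
      _ = (r * f) * (2 * t * f^(r0+1+s)) := by ring
      _ = _ := by rw [hrf]
  have h5 : t^2 * n^(r0+s) ≤ t * f^(r0+1+s) := by
    have h6 := h.hL2
    rw [← ht] at h6
    calc t^2 * n^(r0+s) = t * (t * r^(r0+s)) * f^(r0+s) := by rw [← hrf, mul_pow]; ring
      _ ≤ t * f * f^(r0+s) := by
          apply mul_le_mul_of_nonneg_right _ (by positivity)
          exact mul_le_mul_of_nonneg_left h6 htpos.le
      _ = _ := by ring
  have h6 : n * ((monoAt (pend a) R v).card : ℝ) ≤ n * (3 * t * f^(r0+1+s)) := by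
    calc _ ≤ _ := h3
      _ ≤ n * (2 * t * f^(r0+1+s)) + n * (t * f^(r0+1+s)) := by
          have := mul_le_mul_of_nonneg_left h5 hn.le
          linarith
      _ = _ := by ring
  exact le_of_mul_le_mul_left h6 hn

/-- number of pendant edges at `i` -/
noncomputable def ps {k s : ℕ} (a : Fin s → Fin k) (i : Fin k) : ℕ :=
  (univ.filter (fun p => a p = i)).card

lemma sum_ps {k s : ℕ} (a : Fin s → Fin k) : ∑ i, ps a i = s := by
  have := Finset.card_eq_sum_card_fiberwise (f := a) (s := univ) (t := univ)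
    (fun _ _ => by simp)
  rw [Finset.card_univ, Fintype.card_fin] at this
  exact this.symm

lemma exists_ps_small {k s : ℕ} (hk : 0 < k) (a : Fin s → Fin k) : ∃ i, k * ps a i ≤ s := by
  by_contra hcon
  push Not at hcon
  have h1 : ∑ _i : Fin k, s < ∑ i, k * ps a i := by
    apply Finset.sum_lt_sum_of_nonempty ⟨⟨0, hk⟩, Finset.mem_univ _⟩
    intro i _; exact hcon i
  rw [← Finset.mul_sum, sum_ps] at h1
  simp at h1

lemma exists_ps_big {k s : ℕ} (hk : 0 < k) (a : Fin s → Fin k) : ∃ i, s ≤ k * ps a i := by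
  by_contra hcon
  push Not at hcon
  have h1 : ∑ i, k * ps a i < ∑ _i : Fin k, s := by
    apply Finset.sum_lt_sum_of_nonempty ⟨⟨0, hk⟩, Finset.mem_univ _⟩
    intro i _; exact hcon i
  rw [← Finset.mul_sum, sum_ps] at h1
  simp at h1

/-- many copies at a vertex -/
lemma ext_at (a : Fin s → Fin (r0+2)) (R G : SimpleGraph W)
    (hG : copies (pend a) G ⊆ mono (pend a) R) (S : Fin (r0+1) → Finset W) (v : W)
    (hv : ∀ j, ∀ x ∈ S j, G.Adj v x) (i0 : Fin (r0+2)) {D0 D1 : ℝ} (hD0 : 0 ≤ D0) (hD1 : 0 ≤ D1)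
    (hd0 : D0 + ((r0:ℝ) + 2 + s) ≤ dg G v)
    (hd1 : ∀ j, ∀ x ∈ S j, D1 + ((r0:ℝ) + 2 + s) ≤ dg G x) :
    ((cl G S).card : ℝ) * (D0 ^ (ps a i0) * D1 ^ (s - ps a i0)) ≤
      ((monoAt (pend a) R v).card : ℝ) := by
  set Q : Finset (Fin (r0+2) → W) := (cl G S).image (fun w => Fin.insertNth i0 v w) with hQ
  have hQcard : Q.card = (cl G S).card := by
    rw [hQ, Finset.card_image_of_injective]
    intro w w' hw
    exact Fin.insertNth_right_injective (α := fun _ => W) (p := i0) v hw
  have hQadj : ∀ x ∈ Q, ∀ i l, i ≠ l → G.Adj (x i) (x l) := by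
    intro x hx i l
    rw [hQ, Finset.mem_image] at hx
    obtain ⟨w, hw, rfl⟩ := hx
    have hw' := mem_cl'.1 hw
    refine Fin.succAboveCases i0 ?_ ?_ i
    · refine Fin.succAboveCases i0 ?_ ?_ l
      · intro h; exact absurd rfl h
      · intro l _
        rw [Fin.insertNth_apply_same, Fin.insertNth_apply_succAbove]
        exact hv l _ (hw'.1 l)
    · intro i
      refine Fin.succAboveCases i0 ?_ ?_ l
      · intro _
        rw [Fin.insertNth_apply_same, Fin.insertNth_apply_succAbove]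
        exact (hv i _ (hw'.1 i)).symm
      · intro l hil
        rw [Fin.insertNth_apply_succAbove, Fin.insertNth_apply_succAbove]
        exact hw'.2 i l (fun h => hil (by rw [h]))
  have h1 := ext_lower a G Q hQadj (fun i => if i = i0 then D0 else D1) (by
    intro i
    by_cases h : i = i0 <;> simp [h, hD0, hD1]) (by
    intro x hx i
    rw [hQ, Finset.mem_image] at hx
    obtain ⟨w, hw, rfl⟩ := hx
    have hw' := mem_cl'.1 hw
    refine Fin.succAboveCases i0 ?_ ?_ i
    · rw [Fin.insertNth_apply_same]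
      simp only [if_true]
      push_cast
      linarith
    · intro i
      rw [Fin.insertNth_apply_succAbove]
      simp only [Fin.succAbove_ne, if_false]
      have := hd1 i _ (hw'.1 i)
      push_cast
      linarith)
  rw [hQcard] at h1
  have h2 : ∏ p : Fin s, (if a p = i0 then D0 else D1) = D0 ^ (ps a i0) * D1 ^ (s - ps a i0) := by
    rw [Finset.prod_ite, Finset.prod_const, Finset.prod_const]
    have h3 := Finset.card_filter_add_card_filter_not (s := (univ : Finset (Fin s)))
      (fun p => a p = i0)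
    rw [Finset.card_univ, Fintype.card_fin] at h3
    congr 2
    unfold ps
    omega
  rw [h2] at h1
  refine h1.trans ?_
  have h3 : ((copies (pend a) G).filter (fun f => (fun i => f (Sum.inl i)) ∈ Q)).card ≤
      (monoAt (pend a) R v).card := by
    apply Finset.card_le_card
    intro g hg
    rw [Finset.mem_filter] at hg
    rw [mem_monoAt]
    refine ⟨hG hg.1, ?_⟩
    have h4 := hg.2
    rw [hQ, Finset.mem_image] at h4
    obtain ⟨w, _, hw⟩ := h4
    refine ⟨Sum.inl i0, ?_⟩
    have := congrFun hw i0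
    rw [Fin.insertNth_apply_same] at this
    exact this.symm
  exact_mod_cast h3

/-- The structure found by the global analysis. -/
structure Parts (R : SimpleGraph W) (r0 : ℕ) (n f r M : ℝ) (X : Fin (r0+1) → Finset W) : Prop where
  disj : ∀ i j, i ≠ j → Disjoint (X i) (X j)
  card : ∀ j, (1 - 1/160) * f ≤ ((X j).card : ℝ)
  missR : ∀ j, ∀ u ∈ X j, ((miss R (X j) u).card : ℝ) ≤ 27/(1000*(r+1)) * f
  missB : ∀ j i, i ≠ j → ∀ u ∈ X j, ((miss Rᶜ (X i) u).card : ℝ) ≤ 27/(1000*(r+1)) * f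
  low : ∀ j, ∀ u ∈ X j, (1 - 26/(1000*(r+1))) * f ≤ (dg R u : ℝ)
  up : ∀ j, ∀ u ∈ X j, (dg R u : ℝ) ≤ (1 + 1/M) * f

lemma parts_exist (h : Setup2 W r0 s n f r M) (a : Fin s → Fin (r0+2)) (R : SimpleGraph W)
    (hN : ((mono (pend a) R).card : ℝ) ≤ 2 * r * f^(r0+2+s)) (A : Finset W)
    (hA : (1 - 10/M) * n ≤ (A.card : ℝ)) (hdeg : ∀ x ∈ A, (dg R x : ℝ) ≤ (1+1/M) * f) :
    ∃ X : Fin (r0+1) → Finset W, Parts R r0 n f r M X := by
  have hf := h.fpos
  have hn := h.npos
  have hr3 := h.r3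
  have hM := h.M16
  have hMpos := h.Mpos
  have hrf := h.rf
  have hf3 := h.f3
  have hrpos : 0 < r := by linarith
  have hMf : 4 * M ≤ f := by
    have h0 : (4:ℝ) ≤ M * M := by
      have h01 : (4:ℝ) * 1 ≤ M * M := mul_le_mul (by linarith) (by linarith) zero_le_one hMpos.le
      linarith
    have h01 : M * 4 ≤ M * (M * M) := mul_le_mul_of_nonneg_left h0 hMpos.le
    linarith
  have hblue := blue_le h.toSetup a R hN A hdeg
  obtain ⟨X, hXA, hdisj, hcard, hmissR, hmissB, hlow⟩ := structure_lemma R r0 h.hr h.Mr A h.hn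
    (by
      rw [← hrf]
      have h01 : r * (4 * M) ≤ r * f := mul_le_mul_of_nonneg_left hMf hrpos.le
      linarith) (by
      intro x hx
      have h1 := hdeg x hx
      have h2 : (1 + 1/M) * n / r = (1+1/M) * f := by rw [← hrf]; field_simp
      rw [h2]; exact h1) hA (by
      have h3 := h.num3
      have h4 : (0:ℝ) < (3/2)^s := by positivity
      rw [← mul_le_mul_iff_left₀ h4]
      calc (r+1) * n * ((cl Rᶜ (fun _ : Fin (r0+2) => A)).card : ℝ) * (3/2)^s
          = (r+1) * n * (((cl Rᶜ (fun _ : Fin (r0+2) => A)).card : ℝ) * (3/2)^s) := by ring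
        _ ≤ (r+1) * n * (2 * r * f^(r0+2)) := mul_le_mul_of_nonneg_left hblue (by positivity)
        _ = n^2 / M^2 * (n/(2*r))^(r0+1) * ((r+1) * 2^(r0+2) * M^2) := by
            have h5 : n / (2*r) = f / 2 := by rw [h.hf]; field_simp
            rw [h5, div_pow, ← hrf]
            field_simp
            ring
        _ ≤ _ := mul_le_mul_of_nonneg_left h3 (by positivity))
  have hrM : r * (f / M) ≤ f / (1000 * (r+1)) := by
    rw [h.hM, ← mul_div_assoc, div_le_div_iff₀ (by positivity) (by positivity)]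
    have h01 : 0 < f * r := mul_pos hf hrpos
    linarith
  have h1 : ∀ c : ℝ, 0 ≤ c → c / M * n ≤ c / (1000*(r+1)) * f := by
    intro c hc
    calc c / M * n = c * (r * (f/M)) := by rw [← hrf]; ring
      _ ≤ c * (f / (1000 * (r+1))) := mul_le_mul_of_nonneg_left hrM hc
      _ = _ := by ring
  have h2 : 1/r * n = f := by rw [← hrf]; field_simp
  refine ⟨X, hdisj, ?_, ?_, ?_, ?_, ?_⟩
  · intro j
    have h3 := hcard j
    have h4 := h1 25 (by norm_num)
    have h5 : (25:ℝ) / (1000*(r+1)) * f ≤ 1/160 * f := by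
      apply mul_le_mul_of_nonneg_right _ hf.le
      rw [div_le_div_iff₀ (by positivity) (by norm_num)]
      linarith
    have h6 : (1/r - 25/M) * n = 1/r * n - 25/M * n := by ring
    rw [h6, h2] at h3
    linarith
  · intro j u hu
    exact (hmissR j u hu).trans (h1 27 (by norm_num))
  · intro j i hij u hu
    exact (hmissB j i hij u hu).trans (h1 27 (by norm_num))
  · intro j u hu
    have h3 := hlow j u hu
    have h4 := h1 26 (by norm_num)
    have h6 : (1/r - 26/M) * n = 1/r * n - 26/M * n := by ring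
    rw [h6, h2] at h3
    linarith
  · intro j u hu
    exact hdeg u (hXA j hu)

/-- every vertex has few blue neighbours in some part -/
lemma exists_part (h : Setup2 W r0 s n f r M) (a : Fin s → Fin (r0+2)) (R : SimpleGraph W)
    (hat : ∀ v, ((monoAt (pend a) R v).card : ℝ) ≤ 3 * ((r0:ℝ) + 2 + s) * f^(r0+1+s))
    {X : Fin (r0+1) → Finset W} (hX : Parts R r0 n f r M X) (v : W) :
    ∃ j, 4 * ((nb Rᶜ (X j) v).card : ℝ) < ((X j).card : ℝ) := by
  by_contra hcon
  push Not at hcon
  have hf := h.fpos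
  have hr3 := h.r3
  have hM := h.M16
  have hMpos := h.Mpos
  have hrf := h.rf
  have hf2 := h.f2
  have ht0 := h.t_ge
  have hr0 : (r0:ℝ) = r - 1 := by rw [h.hr]; ring
  have hS : ∀ j, 24/100 * f ≤ ((nb Rᶜ (X j) v).card : ℝ) := by
    intro j
    have h1 := hcon j
    have h2 := hX.card j
    linarith
  have hq : (r0:ℝ) * (27/(1000*(r+1)) * f) ≤ 27/1000 * f := by
    rw [hr0]
    have h1 : (r-1) * (27/(1000*(r+1)) * f) = (r-1)/(r+1) * (27/1000 * f) := by
      field_simp
    rw [h1]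
    have h2 : (r-1)/(r+1) ≤ 1 := by rw [div_le_one (by linarith)]; linarith
    have h3 : 0 ≤ 27/1000 * f := by positivity
    exact mul_le_of_le_one_left h3 h2
  have hcl := gc_const' Rᶜ (q := 27/(1000*(r+1)) * f) (a := f/5) (by positivity) (by positivity)
    r0 (fun j => nb Rᶜ (X j) v) (by
      intro j
      have := hS j
      linarith) (by
      intro i l hil x hx
      refine le_trans ?_ (hX.missB i l hil.symm x (nb_subset hx))
      have : miss Rᶜ (nb Rᶜ (X l) v) x ⊆ miss Rᶜ (X l) x := by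
        intro y hy
        rw [mem_miss] at hy ⊢
        exact ⟨nb_subset hy.1, hy.2⟩
      exact_mod_cast Finset.card_le_card this)
  obtain ⟨i0, hi0⟩ := exists_ps_small (k := r0+2) (by omega) a
  have h4 : 4 * ps a i0 ≤ s := by
    have := h.hr0
    calc 4 * ps a i0 ≤ (r0+2) * ps a i0 := Nat.mul_le_mul_right _ (by omega)
      _ ≤ s := hi0
  have htf : (r0:ℝ) + 2 + s ≤ f / 32000 := by
    have h01 := mul_le_mul_of_nonneg_right hM ht0
    linarith
  have hdegv : (69/100) * f + ((r0:ℝ) + 2 + s) ≤ dg Rᶜ v := by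
    have h1 : ∑ j, (nb Rᶜ (X j) v).card ≤ dg Rᶜ v := by
      have hdg : dg Rᶜ v = (nb Rᶜ univ v).card := rfl
      rw [hdg, ← Finset.card_biUnion]
      · apply Finset.card_le_card
        intro y hy
        rw [Finset.mem_biUnion] at hy
        obtain ⟨j, _, hy⟩ := hy
        rw [mem_nb]
        exact ⟨Finset.mem_univ _, (mem_nb.1 hy).2⟩
      · intro i _ j _ hij
        exact Finset.disjoint_of_subset_left nb_subset
          (Finset.disjoint_of_subset_right nb_subset (hX.disj i j hij))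
    have h2 : ∑ j, ((nb Rᶜ (X j) v).card : ℝ) ≤ dg Rᶜ v := by exact_mod_cast h1
    have h3 : ∑ _j : Fin (r0+1), 24/100 * f ≤ ∑ j, ((nb Rᶜ (X j) v).card : ℝ) :=
      Finset.sum_le_sum (fun j _ => hS j)
    rw [Finset.sum_const, Finset.card_univ, Fintype.card_fin, nsmul_eq_mul] at h3
    push_cast at h3
    rw [← h.hr] at h3
    have h01 : 3 * f ≤ r * f := mul_le_mul_of_nonneg_right hr3 hf.le
    linarith
  have hext := ext_at a R Rᶜ (by rw [← mono_compl]; exact copies_subset_mono _ _)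
    (fun j => nb Rᶜ (X j) v) v (fun j x hx => (mem_nb.1 hx).2) i0 (D0 := 69/100 * f)
    (D1 := 19/10 * f) (by positivity) (by positivity) hdegv (by
      intro j x hx
      have h1 := hX.up j x (nb_subset hx)
      have h3 := dg_add R x
      have h4 : (dg R x : ℝ) + (dg Rᶜ x : ℝ) + 1 = n := by
        rw [h.hn]; exact_mod_cast h3
      have h6 : 1/M * f ≤ f/16000 := by
        rw [div_mul_eq_mul_div, one_mul]
        apply div_le_div_of_nonneg_left hf.le (by norm_num) hM
      have h8 : 3 * f ≤ r * f := mul_le_mul_of_nonneg_right hr3 hf.le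
      have h9 : (1:ℝ) ≤ f/32000 := by
        have : (0:ℝ) ≤ r0 := Nat.cast_nonneg _
        have : (0:ℝ) ≤ s := Nat.cast_nonneg _
        linarith
      linarith)
  have hup := hext.trans (hat v)
  have h5 : (f/5)^(r0+1) * ((69/100 * f)^(ps a i0) * (19/10 * f)^(s - ps a i0)) ≤
      3 * ((r0:ℝ) + 2 + s) * f^(r0+1+s) :=
    le_trans (mul_le_mul_of_nonneg_right hcl (by positivity)) hup
  obtain ⟨m, hm⟩ : ∃ m, s = 4 * ps a i0 + m := ⟨s - 4 * ps a i0, by omega⟩
  set s0 := ps a i0 with hs0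
  have hs1 : s - s0 = 3 * s0 + m := by omega
  have h6 : (f/5)^(r0+1) * ((69/100 * f)^s0 * (19/10 * f)^(s - s0)) =
      (((69/100) * (19/10)^3)^s0 * (19/10)^m / 5^(r0+1)) * f^(r0+1+s) := by
    have h7 : f^(r0+1+s) = f^(r0+1) * (f^s0 * f^(s-s0)) := by
      rw [← pow_add, ← pow_add]
      congr 1; omega
    rw [h7, hs1, div_pow, mul_pow, mul_pow, mul_pow, pow_add (19/10 : ℝ), pow_mul]
    ring
  rw [h6] at h5
  have h7 := le_of_mul_le_mul_right h5 (by positivity)
  rw [div_le_iff₀ (by positivity)] at h7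
  have h8 : (7/5 : ℝ)^s ≤ ((69/100) * (19/10)^3)^s0 * (19/10)^m := by
    rw [hm, pow_add, pow_mul]
    apply mul_le_mul
    · exact pow_le_pow_left₀ (by positivity) (by norm_num) _
    · exact pow_le_pow_left₀ (by positivity) (by norm_num) _
    · positivity
    · positivity
  have h9 := h.num4
  have h10 : 3 * ((r0:ℝ) + 2 + s) * 5^(r0+1) ≤ 3 * ((r0:ℝ) + 2 + s) * 5^(r0+2) := by
    apply mul_le_mul_of_nonneg_left _ (by linarith)
    exact pow_le_pow_right₀ (by norm_num) (by omega)
  linarith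

/-- all red degrees are small -/
lemma red_degree_small (h : Setup2 W r0 s n f r M) (a : Fin s → Fin (r0+2)) (R : SimpleGraph W)
    (hat : ∀ v, ((monoAt (pend a) R v).card : ℝ) ≤ 3 * ((r0:ℝ) + 2 + s) * f^(r0+1+s))
    {X : Fin (r0+1) → Finset W} (hX : Parts R r0 n f r M X) (v : W) :
    (dg R v : ℝ) < 9/8 * f := by
  by_contra hcon
  push Not at hcon
  have hf := h.fpos
  have hr3 := h.r3
  have hM := h.M16
  have hMpos := h.Mpos
  have hrf := h.rf
  have hf2 := h.f2
  have ht0 := h.t_ge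
  have hr0 : (r0:ℝ) = r - 1 := by rw [h.hr]; ring
  have htf : (r0:ℝ) + 2 + s ≤ f / 32000 := by
    have h01 := mul_le_mul_of_nonneg_right hM ht0
    linarith
  have h1f : (1:ℝ) ≤ f/32000 := by
    have : (0:ℝ) ≤ r0 := Nat.cast_nonneg _
    have : (0:ℝ) ≤ s := Nat.cast_nonneg _
    linarith
  obtain ⟨i, hi⟩ := exists_part h a R hat hX v
  have hS : 7/10 * f ≤ ((nb R (X i) v).card : ℝ) := by
    have h1 : (X i).card ≤ (nb Rᶜ (X i) v).card + (nb R (X i) v).card + 1 := by
      have : X i ⊆ insert v ((nb Rᶜ (X i) v) ∪ (nb R (X i) v)) := by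
        intro y hy
        rw [Finset.mem_insert, Finset.mem_union, mem_nb, mem_nb, SimpleGraph.compl_adj]
        by_cases h1 : y = v
        · left; exact h1
        · right
          by_cases h2 : R.Adj v y
          · right; exact ⟨hy, h2⟩
          · left; exact ⟨hy, fun h => h1 h.symm, h2⟩
      calc (X i).card ≤ _ := Finset.card_le_card this
        _ ≤ _ := Finset.card_insert_le _ _
        _ ≤ _ := by
          have := Finset.card_union_le (nb Rᶜ (X i) v) (nb R (X i) v)
          omega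
    have h2 : ((X i).card : ℝ) ≤ (nb Rᶜ (X i) v).card + (nb R (X i) v).card + 1 := by
      exact_mod_cast h1
    have h3 := hX.card i
    linarith
  have hq : (r0:ℝ) * (27/(1000*(r+1)) * f) ≤ 27/1000 * f := by
    rw [hr0]
    have h1 : (r-1) * (27/(1000*(r+1)) * f) = (r-1)/(r+1) * (27/1000 * f) := by
      field_simp
    rw [h1]
    have h2 : (r-1)/(r+1) ≤ 1 := by rw [div_le_one (by linarith)]; linarith
    have h3 : 0 ≤ 27/1000 * f := by positivity
    exact mul_le_of_le_one_left h3 h2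
  have hcl := gc_const' R (q := 27/(1000*(r+1)) * f) (a := f/2) (by positivity) (by positivity)
    r0 (fun _ => nb R (X i) v) (by
      intro j
      linarith) (by
      intro j l _ x hx
      refine le_trans ?_ (hX.missR i x (nb_subset hx))
      have : miss R (nb R (X i) v) x ⊆ miss R (X i) x := by
        intro y hy
        rw [mem_miss] at hy ⊢
        exact ⟨nb_subset hy.1, hy.2⟩
      exact_mod_cast Finset.card_le_card this)
  obtain ⟨i0, hi0⟩ := exists_ps_big (k := r0+2) (by omega) a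
  have hrinv : 0 < 1/(r+1) := by positivity
  have hext := ext_at a R R (copies_subset_mono _ _)
    (fun _ => nb R (X i) v) v (fun j x hx => (mem_nb.1 hx).2) i0 (D0 := 11/10 * f)
    (D1 := (1 - 27/(1000*(r+1))) * f) (by positivity) (by
      apply mul_nonneg _ hf.le
      rw [sub_nonneg, div_le_one (by positivity)]
      linarith) (by linarith) (by
      intro j x hx
      have h1 := hX.low i x (nb_subset hx)
      have h2 : (1 - 27/(1000*(r+1))) * f + f / (1000 * (r+1)) =
        (1 - 26/(1000*(r+1))) * f := by ring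
      have h3 : (r0:ℝ) + 2 + s ≤ f / (1000 * (r+1)) := by
        rw [le_div_iff₀ (by positivity)]
        have h4 : 1000 * (r+1) ≤ M := by
          rw [h.hM]
          have h01 : 0 ≤ r * (r + 1) := by positivity
          linarith
        have h5 := mul_le_mul_of_nonneg_right h4 ht0
        have h6 : 0 ≤ M * ((r0:ℝ) + 2 + s) := mul_nonneg hMpos.le ht0
        linarith
      linarith)
  have hup := hext.trans (hat v)
  set s0 := ps a i0 with hs0
  set z : ℝ := 1 - 27/(1000*(r+1)) with hz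
  have hzpos : 0 < z := by
    rw [hz, sub_pos, div_lt_one (by positivity)]
    linarith
  have hz1 : z ≤ 1 := by
    rw [hz]
    have : 0 < 27/(1000*(r+1)) := by positivity
    linarith
  have h5 : (f/2)^(r0+1) * ((11/10 * f)^s0 * (z * f)^(s - s0)) ≤
      3 * ((r0:ℝ) + 2 + s) * f^(r0+1+s) :=
    le_trans (mul_le_mul_of_nonneg_right hcl (by positivity)) hup
  have hs0s : s0 ≤ s := by
    have := sum_ps a
    rw [hs0]
    calc ps a i0 ≤ ∑ i, ps a i := Finset.single_le_sum (fun _ _ => Nat.zero_le _) (Finset.mem_univ _)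
      _ = s := this
  have h6 : (f/2)^(r0+1) * ((11/10 * f)^s0 * (z * f)^(s - s0)) =
      ((11/10)^s0 * z^(s-s0) / 2^(r0+1)) * f^(r0+1+s) := by
    have h7 : f^(r0+1+s) = f^(r0+1) * (f^s0 * f^(s-s0)) := by
      rw [← pow_add, ← pow_add]
      congr 1; omega
    rw [h7, div_pow, mul_pow, mul_pow]
    ring
  rw [h6] at h5
  have h7 := le_of_mul_le_mul_right h5 (by positivity)
  rw [div_le_iff₀ (by positivity)] at h7
  have h8 : (11/10 : ℝ)^s0 * z^s ≤ 3 * ((r0:ℝ) + 2 + s) * 2^(r0+2) := by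
    calc (11/10 : ℝ)^s0 * z^s ≤ (11/10)^s0 * z^(s-s0) := by
          apply mul_le_mul_of_nonneg_left _ (by positivity)
          exact pow_le_pow_of_le_one hzpos.le hz1 (Nat.sub_le _ _)
      _ ≤ 3 * ((r0:ℝ) + 2 + s) * 2^(r0+1) := h7
      _ ≤ _ := by
          apply mul_le_mul_of_nonneg_left _ (by linarith)
          exact pow_le_pow_right₀ (by norm_num) (by omega)
  have h9 : ((11/10 : ℝ)^s0 * z^s)^(r0+2) ≤ (3 * ((r0:ℝ) + 2 + s) * 2^(r0+2))^(r0+2) :=
    pow_le_pow_left₀ (by positivity) h8 _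
  have h10 : (107/100 : ℝ)^s ≤ ((11/10 : ℝ)^s0 * z^s)^(r0+2) := by
    have h11 : ((11/10 : ℝ)^s0 * z^s)^(r0+2) = (11/10)^((r0+2)*s0) * (z^(r0+2))^s := by
      rw [mul_pow, ← pow_mul, ← pow_mul, ← pow_mul]
      congr 2 <;> ring
    rw [h11]
    have h12 : (11/10 : ℝ)^s ≤ (11/10)^((r0+2)*s0) := pow_le_pow_right₀ (by norm_num) hi0
    have h13 : (973/1000 : ℝ) ≤ z^(r0+2) := by
      have h14 := one_add_mul_le_pow (a := z - 1) (by linarith) (r0+2)
      have h15 : 1 + (z - 1) = z := by ring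
      rw [h15] at h14
      refine le_trans ?_ h14
      have h16 : (((r0+2 : ℕ)) : ℝ) = r + 1 := by rw [h.hr]; push_cast; ring
      rw [h16, hz]
      have h17 : (r+1) * (1 - 27/(1000*(r+1)) - 1) = - (27/1000) := by field_simp; ring
      rw [h17]; norm_num
    calc (107/100 : ℝ)^s ≤ ((11/10) * (973/1000))^s := pow_le_pow_left₀ (by norm_num) (by norm_num) _
      _ = (11/10)^s * (973/1000)^s := mul_pow _ _ _
      _ ≤ _ := by
          apply mul_le_mul h12 _ (by positivity) (by positivity)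
          exact pow_le_pow_left₀ (by norm_num) h13 _
  have h18 := h.num5
  linarith

end Pool.Agent.Work.MP_333fa2_co
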