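import Pool.Agent.Work.MP_333fa2_co.Final

/-!
Numerical verification of the standing assumptions.
-/

namespace Pool.Agent.Work.MP_333fa2_co

lemma two_le_pow (m : ℕ) (hm : 0 < m) : (2:ℝ) ≤ (1 + 1/(m:ℝ))^m := by
  have h1 := one_add_mul_le_pow (a := 1/(m:ℝ)) (by
    have : (0:ℝ) ≤ 1/(m:ℝ) := by positivity
    linarith) m
  have h2 : (m:ℝ) * (1/(m:ℝ)) = 1 := by
    have : (m:ℝ) ≠ 0 := by exact_mod_cast hm.ne'
    field_simp
  linarith

lemma two_pow_le (m j s : ℕ) (hm : 0 < m) (h : m * j ≤ s) : (2:ℝ)^j ≤ (1 + 1/(m:ℝ))^s := by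
  calc (2:ℝ)^j ≤ ((1 + 1/(m:ℝ))^m)^j := pow_le_pow_left₀ (by norm_num) (two_le_pow m hm) _
    _ = (1 + 1/(m:ℝ))^(m*j) := by rw [pow_mul]
    _ ≤ _ := by
      apply pow_le_pow_right₀ _ h
      have : (0:ℝ) ≤ 1/(m:ℝ) := by positivity
      linarith

lemma sq_le_two_pow (k : ℕ) (hk : 4 ≤ k) : k^2 ≤ 2^k := by
  induction k, hk using Nat.le_induction with
  | base => norm_num
  | succ k hk ih =>
    rw [pow_succ 2]
    nlinarith

lemma two_mul_le_two_pow (k : ℕ) (hk : 4 ≤ k) : 2 * k ≤ 2^k := by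
  have := sq_le_two_pow k hk
  nlinarith

lemma num1_nat (k s : ℕ) (hk : 4 ≤ k) (hs : 17000 * k^4 ≤ s) :
    2 * (k:ℝ) * ((1000 * (k:ℝ)^2) * 16^k)^k < (1 + 1/(2*(1000 * (k:ℝ)^2)))^s := by
  have h1 : 2 * k * ((1000 * k^2) * 16^k)^k ≤ 2^(8*k^2) := by
    have h2 := sq_le_two_pow k hk
    have h3 := two_mul_le_two_pow k hk
    have h16 : (16:ℕ)^k = 2^(4*k) := by rw [pow_mul]; norm_num
    calc 2 * k * ((1000 * k^2) * 16^k)^k ≤ 2^k * ((2^10 * 2^k) * 2^(4*k))^k := by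
          apply Nat.mul_le_mul h3
          apply Nat.pow_le_pow_left
          rw [h16]
          apply Nat.mul_le_mul_right
          apply Nat.mul_le_mul _ h2
          norm_num
      _ = 2^(k + (10 + k + 4*k)*k) := by
          rw [← pow_add, ← pow_add, ← pow_mul, ← pow_add]
      _ ≤ 2^(8*k^2) := by
          apply Nat.pow_le_pow_right (by norm_num)
          nlinarith
  have h4 : 2 * (1000 * k^2) * (8*k^2 + 1) ≤ s := by
    refine le_trans ?_ hs
    have : k^4 = k^2 * k^2 := by ring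
    rw [this]
    have h5 : 16 ≤ k^2 := by nlinarith
    nlinarith
  have h5 := two_pow_le (2 * (1000 * k^2)) (8*k^2+1) s (by positivity) h4
  push_cast at h5
  have h6 : 2 * (k:ℝ) * ((1000 * (k:ℝ)^2) * 16^k)^k ≤ 2^(8*k^2) := by exact_mod_cast h1
  have h7 : (2:ℝ)^(8*k^2) < 2^(8*k^2+1) := pow_lt_pow_right₀ (by norm_num) (by omega)
  calc _ ≤ _ := h6
    _ < _ := h7
    _ ≤ _ := h5

lemma num2_nat (k s : ℕ) (hk : 4 ≤ k) (hs : 17000 * k^4 ≤ s) :
    2 * (k:ℝ) * ((1000 * (k:ℝ)^2)^3)^k < (3/2 : ℝ)^s := by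
  have h1 : 2 * k * ((1000 * k^2)^3)^k ≤ 2^(11*k^2) := by
    have h2 := sq_le_two_pow k hk
    have h3 := two_mul_le_two_pow k hk
    calc 2 * k * ((1000 * k^2)^3)^k ≤ 2^k * ((2^10 * 2^k)^3)^k := by
          apply Nat.mul_le_mul h3
          apply Nat.pow_le_pow_left
          apply Nat.pow_le_pow_left
          apply Nat.mul_le_mul _ h2
          norm_num
      _ = 2^(k + (10 + k)*3*k) := by
          rw [← pow_add, ← pow_mul, ← pow_mul, ← pow_add, mul_assoc]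
      _ ≤ 2^(11*k^2) := by
          apply Nat.pow_le_pow_right (by norm_num)
          nlinarith
  have h4 : 2 * (11*k^2 + 1) ≤ s := by
    refine le_trans ?_ hs
    have : k^4 = k^2 * k^2 := by ring
    rw [this]
    have h5 : 16 ≤ k^2 := by nlinarith
    nlinarith
  have h5 := two_pow_le 2 (11*k^2+1) s (by positivity) h4
  have h6 : 2 * (k:ℝ) * ((1000 * (k:ℝ)^2)^3)^k ≤ 2^(11*k^2) := by exact_mod_cast h1
  have h7 : (2:ℝ)^(11*k^2) < 2^(11*k^2+1) := pow_lt_pow_right₀ (by norm_num) (by omega)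
  have h8 : (1 + 1/((2:ℕ):ℝ))^s = (3/2 : ℝ)^s := by norm_num
  rw [h8] at h5
  calc _ ≤ _ := h6
    _ < _ := h7
    _ ≤ _ := h5

lemma num3_nat (k s : ℕ) (hk : 4 ≤ k) (hs : 17000 * k^4 ≤ s) :
    (k:ℝ) * 2^k * (1000 * (k:ℝ)^2)^2 ≤ (3/2 : ℝ)^s := by
  refine le_trans ?_ (num2_nat k s hk hs).le
  have hk' : (4:ℝ) ≤ k := by exact_mod_cast hk
  have hM : (1:ℝ) ≤ 1000 * (k:ℝ)^2 := by nlinarith
  have h1 : (2:ℝ)^k ≤ (1000 * (k:ℝ)^2)^k := pow_le_pow_left₀ (by norm_num) (by nlinarith) _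
  have h2 : (1000 * (k:ℝ)^2)^2 ≤ (1000 * (k:ℝ)^2)^k := pow_le_pow_right₀ hM (by omega)
  have h3 : (0:ℝ) < (1000 * (k:ℝ)^2)^k := by positivity
  calc (k:ℝ) * 2^k * (1000 * (k:ℝ)^2)^2 ≤ (k:ℝ) * (1000 * (k:ℝ)^2)^k * (1000 * (k:ℝ)^2)^k := by
        apply mul_le_mul _ h2 (by positivity) (by positivity)
        apply mul_le_mul_of_nonneg_left h1 (by positivity)
    _ = k * (((1000 * (k:ℝ)^2)^2)^k) := by rw [← pow_mul, mul_comm 2 k, pow_mul]; ring
    _ ≤ 2 * k * (((1000 * (k:ℝ)^2)^3)^k) := by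
        apply mul_le_mul (by linarith) _ (by positivity) (by positivity)
        apply pow_le_pow_left₀ (by positivity)
        exact pow_le_pow_right₀ hM (by norm_num)

lemma num5_nat (k s : ℕ) (hk : 4 ≤ k) (hs : 17000 * k^4 ≤ s) :
    (3 * ((k:ℝ) + s) * 2^k)^k < (107/100 : ℝ)^s := by
  -- q = s / k, j = q / 22
  set q := s / k with hq
  set j := q / 22 with hj
  have hkpos : 0 < k := by omega
  have h1 : k * q ≤ s := Nat.mul_div_le s k
  have h2 : s < k * (q + 1) := by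
    rw [hq]; exact Nat.lt_mul_div_succ s hkpos
  have h3 : 22 * j ≤ q := Nat.mul_div_le q 22
  have h4 : q < 22 * (j + 1) := by
    rw [hj]; exact Nat.lt_mul_div_succ q (by norm_num)
  have hqbig : 17000 * k^3 ≤ q := by
    rw [hq, Nat.le_div_iff_mul_le hkpos]
    calc 17000 * k^3 * k = 17000 * k^4 := by ring
      _ ≤ s := hs
  have hjbig : 2 * k + 9 ≤ j := by
    have h5 : 17000 * k ≤ q := by
      refine le_trans ?_ hqbig
      apply Nat.mul_le_mul_left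
      calc k = k^1 := (pow_one k).symm
        _ ≤ k^3 := Nat.pow_le_pow_right hkpos (by norm_num)
    omega
  have h5 : (2:ℝ)^(2*j) ≤ (107/100 : ℝ)^q := by
    calc (2:ℝ)^(2*j) ≤ ((107/100 : ℝ)^11)^(2*j) :=
          pow_le_pow_left₀ (by norm_num) (by norm_num) _
      _ = (107/100 : ℝ)^(22*j) := by rw [← pow_mul]; congr 1; ring
      _ ≤ _ := pow_le_pow_right₀ (by norm_num) h3
  have h6 : 3 * (k + s) * 2^k < 2^(2*j) := by
    have h7 : 3 * (k + s) ≤ 132 * k * (j+1) := by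
      have h8 : s ≤ k * (22 * (j+1)) := by
        refine h2.le.trans ?_
        apply Nat.mul_le_mul_left
        omega
      have h9 : k ≤ k * (22 * (j+1)) := Nat.le_mul_of_pos_right k (by positivity)
      calc 3 * (k + s) ≤ 3 * (k * (22 * (j+1)) + k * (22 * (j+1))) := by omega
        _ = _ := by ring
    have h8 : k < 2^k := Nat.lt_two_pow_self
    have h9 : j + 1 ≤ 2^j := Nat.lt_two_pow_self
    have h10 : (2:ℕ)^(2*k+8) < 2^j := Nat.pow_lt_pow_right (by norm_num) (by omega)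
    calc 3 * (k + s) * 2^k ≤ 132 * k * (j+1) * 2^k := Nat.mul_le_mul_right _ h7
      _ ≤ 132 * 2^k * 2^j * 2^k := by
          apply Nat.mul_le_mul_right
          exact Nat.mul_le_mul (Nat.mul_le_mul_left _ h8.le) h9
      _ ≤ 2^8 * 2^k * 2^j * 2^k := by
          apply Nat.mul_le_mul_right
          apply Nat.mul_le_mul_right
          apply Nat.mul_le_mul_right
          norm_num
      _ = 2^(2*k+8) * 2^j := by
          rw [← pow_add, ← pow_add, ← pow_add, ← pow_add]; congr 1; ring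
      _ < 2^j * 2^j := Nat.mul_lt_mul_of_pos_right h10 (by positivity)
      _ = 2^(2*j) := by rw [← pow_add]; congr 1; ring
  have h7 : 3 * ((k:ℝ) + s) * 2^k < (107/100 : ℝ)^q := by
    refine lt_of_lt_of_le ?_ h5
    exact_mod_cast h6
  calc (3 * ((k:ℝ) + s) * 2^k)^k < ((107/100 : ℝ)^q)^k :=
        pow_lt_pow_left₀ h7 (by positivity) (by omega)
    _ = (107/100 : ℝ)^(k*q) := by rw [← pow_mul]; congr 1; ring
    _ ≤ _ := pow_le_pow_right₀ (by norm_num) h1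

lemma num46_aux (k s : ℕ) (hk : 4 ≤ k) (hs : 17000 * k^4 ≤ s) :
    3 * ((k:ℝ) + s)^2 * 12^k < (107/100 : ℝ)^s := by
  refine lt_of_le_of_lt ?_ (num5_nat k s hk hs)
  have h1 : (1:ℝ) ≤ (k:ℝ) + s := by
    have : (4:ℝ) ≤ k := by exact_mod_cast hk
    have : (0:ℝ) ≤ s := Nat.cast_nonneg _
    linarith
  have h2 : (1:ℝ) ≤ 3 * ((k:ℝ) + s) := by linarith
  calc 3 * ((k:ℝ) + s)^2 * 12^k ≤ (3 * ((k:ℝ) + s))^2 * (2^4)^k := by
        apply mul_le_mul
        · nlinarith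
        · exact pow_le_pow_left₀ (by norm_num) (by norm_num) _
        · positivity
        · positivity
    _ ≤ (3 * ((k:ℝ) + s))^k * (2^k)^k := by
        apply mul_le_mul
        · exact pow_le_pow_right₀ h2 (by omega)
        · apply pow_le_pow_left₀ (by positivity)
          exact pow_le_pow_right₀ (by norm_num) hk
        · positivity
        · positivity
    _ = _ := by rw [← mul_pow]

/-- All numerical assumptions hold. -/
lemma setup_holds (n r0 s : ℕ) (hr0 : 2 ≤ r0) (hs : 17000 * (r0+2)^4 ≤ s)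
    (hn1 : (r0+1) * ((1000 * (r0+2)^2)^3 * 16^(r0+2) * (r0 + 2 + s)) ≤ n)
    (hn2 : (r0+1) * ((r0 + 2 + s) * (r0+1)^(r0+s)) ≤ n) :
    Setup2 (Fin n) r0 s (n:ℝ) ((n:ℝ)/((r0:ℝ)+1)) ((r0:ℝ)+1) (1000 * (((r0:ℝ)+1)+1)^2) := by
  have hk : 4 ≤ r0 + 2 := by omega
  have e1 : ((r0:ℝ)+1)+1 = ((r0+2 : ℕ) : ℝ) := by push_cast; ring
  have hrpos : (0:ℝ) < (r0:ℝ) + 1 := by positivity
  have h1 := num1_nat (r0+2) s hk hs
  have h2 := num2_nat (r0+2) s hk hs
  have h3 := num3_nat (r0+2) s hk hs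
  have h5 := num5_nat (r0+2) s hk hs
  have h46 := num46_aux (r0+2) s hk hs
  have e2 : (r0:ℝ) + 2 = ((r0+2 : ℕ) : ℝ) := by push_cast; ring
  refine { hr0 := hr0, hr := rfl, hn := by simp, hf := rfl, hM := rfl, hL := ?_, num1 := ?_,
           num2 := ?_, num3 := ?_, hL2 := ?_, num4 := ?_, num5 := ?_, num6 := ?_ }
  · rw [le_div_iff₀ hrpos]
    have h6 : (((r0+1) * ((1000 * (r0+2)^2)^3 * 16^(r0+2) * (r0 + 2 + s)) : ℕ) : ℝ) ≤ n := by
      exact_mod_cast hn1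
    push_cast at h6
    calc _ = ((r0:ℝ) + 1) * ((1000 * ((r0:ℝ) + 2) ^ 2) ^ 3 * 16 ^ (r0 + 2) * ((r0:ℝ) + 2 + s)) := by
          ring
      _ ≤ _ := h6
  · rw [e1]; exact h1
  · rw [e1]; exact h2
  · rw [e1]; exact h3
  · rw [le_div_iff₀ hrpos]
    have h6 : (((r0+1) * ((r0 + 2 + s) * (r0+1)^(r0+s)) : ℕ) : ℝ) ≤ n := by
      exact_mod_cast hn2
    push_cast at h6
    calc _ = ((r0:ℝ) + 1) * (((r0:ℝ) + 2 + s) * ((r0:ℝ) + 1) ^ (r0 + s)) := by
          ring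
      _ ≤ _ := h6
  · rw [e2]
    have h7 : (1:ℝ) ≤ ((r0+2 : ℕ) : ℝ) + s := by
      have : (4:ℝ) ≤ ((r0+2 : ℕ) : ℝ) := by exact_mod_cast hk
      have : (0:ℝ) ≤ s := Nat.cast_nonneg _
      linarith
    calc 3 * (((r0+2 : ℕ) : ℝ) + s) * 5^(r0+2) ≤ 3 * (((r0+2 : ℕ) : ℝ) + s)^2 * 12^(r0+2) := by
          apply mul_le_mul
          · nlinarith
          · exact pow_le_pow_left₀ (by norm_num) (by norm_num) _
          · positivity
          · positivity
      _ < (107/100 : ℝ)^s := h46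
      _ ≤ _ := pow_le_pow_left₀ (by norm_num) (by norm_num) _
  · rw [e2]; exact h5
  · rw [e2]
    have h7 : (0:ℝ) ≤ (((r0+2 : ℕ) : ℝ) + s)^2 * 12^(r0+2) := by positivity
    calc (((r0+2 : ℕ) : ℝ) + s)^2 * 12^(r0+2) ≤ 3 * (((r0+2 : ℕ) : ℝ) + s)^2 * 12^(r0+2) := by
          linarith
      _ < (107/100 : ℝ)^s := h46
      _ ≤ _ := pow_le_pow_left₀ (by norm_num) (by norm_num) _

/-- optimal colourings have few monochromatic copies -/
lemma optimal_bound (n r0 s : ℕ) (hr0 : 2 ≤ r0) (hs : 17000 * (r0+2)^4 ≤ s)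
    (hn1 : (r0+1) * ((1000 * (r0+2)^2)^3 * 16^(r0+2) * (r0 + 2 + s)) ≤ n)
    (hn2 : (r0+1) * ((r0 + 2 + s) * (r0+1)^(r0+s)) ≤ n)
    (a : Fin s → Fin (r0+2)) (R : SimpleGraph (Fin n)) (hopt : Optimal (pend a) R) :
    ((mono (pend a) R).card : ℝ) ≤
      2 * ((r0:ℝ)+1) * ((n:ℝ)/((r0:ℝ)+1))^(r0+2+s) := by
  have hS := setup_holds n r0 s hr0 hs hn1 hn2
  set f : ℝ := (n:ℝ)/((r0:ℝ)+1) with hf
  have hfpos := hS.fpos
  have hrpos : (0:ℝ) < (r0:ℝ) + 1 := by positivity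
  have h1 := (hopt (SimpleGraph.turanGraph n (r0+1))ᶜ).trans
    (mono_turan_le (n := n) (Nat.succ_pos r0) a)
  have h2 : ((mono (pend a) R).card : ℝ) ≤ ((r0:ℝ)+1) * (f + 1)^(r0+2+s) := by
    have h3 : ((mono (pend a) R).card : ℝ) ≤
        (((r0+1) * (n / (r0+1) + 1)^(r0+1+1+s) : ℕ) : ℝ) := by exact_mod_cast h1
    refine h3.trans ?_
    push_cast
    apply mul_le_mul_of_nonneg_left _ hrpos.le
    apply pow_le_pow_left₀ (by positivity)
    have h4 : ((n / (r0+1) : ℕ) : ℝ) ≤ (n:ℝ) / ((r0+1 : ℕ) : ℝ) := Nat.cast_div_le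
    push_cast at h4
    linarith
  refine h2.trans ?_
  have h5 : (f+1)^(r0+2+s) ≤ 2 * f^(r0+2+s) := by
    set t := r0 + 2 + s with ht
    have h6 : (1:ℝ)/2 ≤ (1 + (-(1/(f+1))))^t := by
      have h7 := one_add_mul_le_pow (a := -(1/(f+1))) (by
        have : 1/(f+1) ≤ 1 := by rw [div_le_one (by linarith)]; linarith
        linarith) t
      refine le_trans ?_ h7
      have h8 : (t:ℝ) * (1/(f+1)) ≤ 1/2 := by
        rw [mul_one_div, div_le_div_iff₀ (by linarith) (by norm_num)]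
        have h9 := hS.f2
        have h10 := hS.M16
        have h11 : (t:ℝ) = (r0:ℝ) + 2 + s := by rw [ht]; push_cast; ring
        rw [← h11] at h9
        have h12 : (0:ℝ) ≤ t := Nat.cast_nonneg _
        nlinarith
      linarith
    have h7 : 1 + (-(1/(f+1))) = f/(f+1) := by field_simp; ring
    rw [h7, div_pow, le_div_iff₀ (by positivity)] at h6
    linarith
  calc ((r0:ℝ)+1) * (f + 1)^(r0+2+s) ≤ ((r0:ℝ)+1) * (2 * f^(r0+2+s)) :=
        mul_le_mul_of_nonneg_left h5 hrpos.le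
    _ = _ := by ring

/-- The main technical theorem. -/
theorem optimal_is_turan (n r0 s : ℕ) (hr0 : 2 ≤ r0) (hs : 17000 * (r0+2)^4 ≤ s)
    (hn1 : (r0+1) * ((1000 * (r0+2)^2)^3 * 16^(r0+2) * (r0 + 2 + s)) ≤ n)
    (hn2 : (r0+1) * ((r0 + 2 + s) * (r0+1)^(r0+s)) ≤ n)
    (a : Fin s → Fin (r0+2)) (R : SimpleGraph (Fin n)) (hopt : Optimal (pend a) R) :
    Nonempty (R ≃g SimpleGraph.turanGraph n (r0+1)) ∨
    Nonempty (Rᶜ ≃g SimpleGraph.turanGraph n (r0+1)) := by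
  have hS := setup_holds n r0 s hr0 hs hn1 hn2
  have hN := optimal_bound n r0 s hr0 hs hn1 hn2 a R hopt
  obtain ⟨G, hG, c, hc⟩ := partite hS a R hopt hN
  have hoptG : Optimal (pend a) G := by
    rcases hG with rfl | rfl
    · exact hopt
    · exact hopt.compl
  have hspos : 0 < s := by
    have : 0 < 17000 * (r0+2)^4 := by positivity
    omega
  have hcard : Fintype.card (Fin n) = n := Fintype.card_fin n
  have hn3 : (r0+1) * (r0 + 1 + 3 + s) ≤ Fintype.card (Fin n) := by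
    rw [hcard]
    refine le_trans ?_ hn1
    apply Nat.mul_le_mul_left
    have h1 : 1 ≤ 16^(r0+2) := Nat.one_le_pow _ _ (by norm_num)
    have h2 : 2 ≤ (1000 * (r0+2)^2)^3 := by
      have h0 : 1 ≤ (r0+2)^2 := Nat.one_le_pow _ _ (by omega)
      have h3 : 2 ≤ 1000 * (r0+2)^2 := by omega
      calc 2 ≤ 1000 * (r0+2)^2 := h3
        _ = (1000 * (r0+2)^2)^1 := (pow_one _).symm
        _ ≤ _ := Nat.pow_le_pow_right (by omega) (by norm_num)
    have h3 : 2 * 1 ≤ (1000 * (r0+2)^2)^3 * 16^(r0+2) := Nat.mul_le_mul h2 h1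
    have h4 : 2 * (r0 + 2 + s) ≤ (1000 * (r0+2)^2)^3 * 16^(r0+2) * (r0 + 2 + s) := by
      apply Nat.mul_le_mul_right
      simpa using h3
    omega
  have h1 := turan_of_partite (Nat.succ_pos r0) hspos a G hoptG c hc hn3
  rw [hcard] at h1
  rcases hG with rfl | rfl
  · right; exact h1
  · left; rw [compl_compl] at h1; exact h1

end Pool.Agent.Work.MP_333fa2_co
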