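import Pool.Agent.Work.MP_333fa2_co.Turan

/-!
Structure of colourings with few blue cliques on a set of vertices with small red degree.
-/

namespace Pool.Agent.Work.MP_333fa2_co

open Finset
open scoped Classical

variable {W : Type*} [Fintype W]

/-- degree -/
noncomputable def dg (G : SimpleGraph W) (x : W) : ℕ := (univ.filter (fun y => G.Adj x y)).card

lemma miss_compl_card_le (R : SimpleGraph W) (S : Finset W) (x : W) :
    (miss Rᶜ S x).card ≤ dg R x + 1 := by
  have : miss Rᶜ S x ⊆ insert x (univ.filter (fun y => R.Adj x y)) := by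
    intro y hy
    rw [mem_miss, SimpleGraph.compl_adj] at hy
    rw [Finset.mem_insert, Finset.mem_filter]
    by_cases h : y = x
    · left; exact h
    · right
      refine ⟨Finset.mem_univ _, ?_⟩
      by_contra h'
      exact hy.2 ⟨fun h2 => h h2.symm, h'⟩
  calc (miss Rᶜ S x).card ≤ (insert x (univ.filter (fun y => R.Adj x y))).card :=
        Finset.card_le_card this
    _ ≤ _ := Finset.card_insert_le _ _

set_option maxHeartbeats 4000000 in
lemma structure_lemma (R : SimpleGraph W) (r0 : ℕ) {M n r : ℝ} (hr : r = r0 + 1)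
    (hM : 1000 * (r+1)^2 ≤ M) (A : Finset W) (hn : n = Fintype.card W) (hnM : 4 * r * M ≤ n)
    (H1 : ∀ x ∈ A, (dg R x : ℝ) ≤ (1 + 1/M) * n / r)
    (H2 : (1 - 10/M) * n ≤ A.card)
    (H3 : (r+1) * n * ((cl Rᶜ (fun _ : Fin (r0+2) => A)).card : ℝ) ≤
      n^2 / M^2 * (n/(2*r))^(r0+1)) :
    ∃ X : Fin (r0+1) → Finset W, (∀ j, X j ⊆ A) ∧ (∀ i j, i ≠ j → Disjoint (X i) (X j)) ∧
      (∀ j, (1/r - 25/M) * n ≤ ((X j).card : ℝ)) ∧
      (∀ j, ∀ u ∈ X j, ((miss R (X j) u).card : ℝ) ≤ 27/M * n) ∧
      (∀ j i, i ≠ j → ∀ u ∈ X j, ((miss Rᶜ (X i) u).card : ℝ) ≤ 27/M * n) ∧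
      (∀ j, ∀ u ∈ X j, (1/r - 26/M) * n ≤ (dg R u : ℝ)) := by
  have hr1 : 1 ≤ r := by rw [hr]; linarith [Nat.cast_nonneg (α := ℝ) r0]
  have hrpos : 0 < r := by linarith
  have hMpos : 0 < M := by nlinarith
  have hM1000 : 1000 * r ≤ M := by nlinarith
  have hnpos : 0 < n := by nlinarith
  -- basic quantities
  set e : ℝ := n / M with he
  have hepos : 0 < e := by positivity
  have her : 4 * r ≤ e := by
    rw [he, le_div_iff₀ hMpos]; exact hnM
  set f : ℝ := n / r with hf
  have hfpos : 0 < f := by positivity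
  have hfr : r * f = n := by rw [hf]; field_simp
  have heM : M * e = n := by rw [he]; field_simp
  have hfe : 1000 * (r+1) * e ≤ f := by
    rw [he, hf]
    rw [← mul_div_assoc, div_le_div_iff₀ hMpos hrpos]
    have : 1000 * (r+1) * r ≤ M := by nlinarith
    nlinarith
  have hH1 : ∀ x ∈ A, (dg R x : ℝ) ≤ f + e / r := by
    intro x hx
    have := H1 x hx
    have h2 : (1 + 1/M) * n / r = f + e / r := by rw [hf, he]; field_simp
    linarith
  have her' : e / r ≤ e := div_le_self hepos.le hr1
  have hAcard : n - 10 * e ≤ A.card := by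
    have : (1 - 10/M) * n = n - 10 * e := by rw [he]; ring
    linarith
  have hAle : (A.card : ℝ) ≤ n := by
    rw [hn]; exact_mod_cast Finset.card_le_univ A
  -- the good clique
  have hmissA : ∀ x ∈ A, ((miss Rᶜ A x).card : ℝ) ≤ f + e/r + 1 := by
    intro x hx
    have h1 := miss_compl_card_le R A x
    have h2 : ((miss Rᶜ A x).card : ℝ) ≤ (dg R x : ℝ) + 1 := by exact_mod_cast h1
    linarith [hH1 x hx]
  have hr0 : (r0:ℝ) = r - 1 := by rw [hr]; ring
  have hrfe : r * (e / r) = e := by field_simp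
  have heeq : 1 ≤ e := by linarith
  obtain ⟨w, hw, hF⟩ := good_clique Rᶜ r0 A (q := f + e/r + 1) (a := n/(2*r)) (by positivity)
    (by positivity) (by
      rw [hr0]
      have h1 : n / (2*r) = f / 2 := by rw [hf]; ring
      rw [h1]
      have h2 : (r-1) * (f + e/r + 1) = n - f + (e - e/r) + (r-1) := by
        have : (r-1) * (f + e/r + 1) = r*f - f + r*(e/r) - e/r + r - 1 := by ring
        rw [this, hfr, hrfe]; ring
      rw [h2]
      nlinarith [hepos, div_pos hepos hrpos]) hmissA
  set D : Finset W := comm Rᶜ A w with hD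
  set bad : Fin (r0+1) → Finset (W × W) := fun j => badp Rᶜ A w j with hbad
  have hF' : ((A.card : ℝ) * (D.card : ℝ) + ∑ j, ((bad j).card : ℝ)) * (n/(2*r))^(r0+1) ≤
      ((r0:ℝ)+2) * (A.card : ℝ) * ((cl Rᶜ (fun _ : Fin (r0+2) => A)).card : ℝ) := by
    have := hF
    push_cast at this
    exact this
  have hF2 : ((A.card : ℝ) * (D.card : ℝ) + ∑ j, ((bad j).card : ℝ)) ≤ e^2 := by
    have hpow : 0 < (n/(2*r))^(r0+1) := by positivity
    have h1 : ((A.card : ℝ) * (D.card : ℝ) + ∑ j, ((bad j).card : ℝ)) * (n/(2*r))^(r0+1) ≤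
        e^2 * (n/(2*r))^(r0+1) := by
      calc _ ≤ _ := hF'
        _ = (r+1) * (A.card:ℝ) * ((cl Rᶜ (fun _ : Fin (r0+2) => A)).card : ℝ) := by
            rw [hr0]; ring
        _ ≤ (r+1) * n * ((cl Rᶜ (fun _ : Fin (r0+2) => A)).card : ℝ) := by
            apply mul_le_mul_of_nonneg_right _ (Nat.cast_nonneg _)
            apply mul_le_mul_of_nonneg_left hAle (by linarith)
        _ ≤ _ := H3
        _ = _ := by
            have : n^2/M^2 = e^2 := by rw [he, div_pow]
            rw [this]
    exact le_of_mul_le_mul_right h1 hpow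
  have hbadj : ∀ j, ((bad j).card : ℝ) ≤ e^2 := by
    intro j
    have h1 : ((bad j).card : ℝ) ≤ ∑ j, ((bad j).card : ℝ) :=
      Finset.single_le_sum (f := fun j => ((bad j).card : ℝ)) (fun i _ => Nat.cast_nonneg _)
        (Finset.mem_univ j)
    have h2 : (0:ℝ) ≤ (A.card : ℝ) * (D.card : ℝ) :=
      mul_nonneg (Nat.cast_nonneg _) (Nat.cast_nonneg _)
    linarith
  have hDcard : (D.card : ℝ) ≤ e / 2 := by
    have h0 : (0:ℝ) ≤ ∑ j, ((bad j).card : ℝ) := Finset.sum_nonneg (fun i _ => Nat.cast_nonneg _)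
    have h1 : (A.card : ℝ) * (D.card : ℝ) ≤ e^2 := by linarith
    have h2 : 2 * e ≤ (A.card : ℝ) := by nlinarith
    by_contra hcon
    push Not at hcon
    nlinarith
  -- red closed neighbourhoods
  set P : Fin (r0+1) → Finset W := fun j => miss Rᶜ A (w j) with hP
  have hwA : ∀ j, w j ∈ A := (mem_cl'.1 hw).1
  have hPcard : ∀ j, ((P j).card : ℝ) ≤ f + e/r + 1 := fun j => hmissA _ (hwA j)
  set V : Fin (r0+1) → Finset W := fun j => A.filter (fun u => ¬ Rᶜ.Adj (w j) u ∧
    ∀ i, i ≠ j → Rᶜ.Adj (w i) u) with hV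
  have hVP : ∀ j, V j ⊆ P j := by
    intro j u hu
    rw [hV, Finset.mem_filter] at hu
    rw [hP, mem_miss]
    exact ⟨hu.1, hu.2.1⟩
  have hVA : ∀ j, V j ⊆ A := fun j => Finset.filter_subset _ _
  have hVdisj : ∀ i j, i ≠ j → Disjoint (V i) (V j) := by
    intro i j hij
    rw [Finset.disjoint_left]
    intro u hu hu'
    rw [hV, Finset.mem_filter] at hu hu'
    exact hu.2.1 (hu'.2.2 i hij)
  have hcount : 2 * A.card ≤ 2 * D.card + ∑ j, (V j).card + ∑ j, (P j).card := by
    have h1 : ∀ j, (V j).card = ∑ u ∈ A, (if u ∈ V j then 1 else 0) := by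
      intro j
      rw [Finset.sum_ite_mem, Finset.inter_eq_right.2 (hVA j)]
      simp
    have h2 : ∀ j, (P j).card = ∑ u ∈ A, (if u ∈ P j then 1 else 0) := by
      intro j
      have : P j ⊆ A := fun x hx => (mem_miss.1 hx).1
      rw [Finset.sum_ite_mem, Finset.inter_eq_right.2 this]
      simp
    have h3 : D.card = ∑ u ∈ A, (if u ∈ D then 1 else 0) := by
      have : D ⊆ A := fun x hx => (mem_comm.1 hx).1
      rw [Finset.sum_ite_mem, Finset.inter_eq_right.2 this]
      simp
    rw [Finset.sum_congr rfl (fun j _ => h1 j), Finset.sum_congr rfl (fun j _ => h2 j), h3,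
      Finset.sum_comm, Finset.sum_comm (s := univ) (t := A), Finset.mul_sum,
      ← Finset.sum_add_distrib, ← Finset.sum_add_distrib]
    have h4 : 2 * A.card = ∑ _u ∈ A, 2 := by rw [Finset.sum_const, smul_eq_mul]; ring
    rw [h4]
    apply Finset.sum_le_sum
    intro u hu
    by_cases hD' : u ∈ D
    · simp only [hD', if_true]; omega
    · have : ∃ j, ¬ Rᶜ.Adj (w j) u := by
        by_contra hcon
        push Not at hcon
        exact hD' (by rw [hD, mem_comm]; exact ⟨hu, hcon⟩)
      obtain ⟨j, hj⟩ := this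
      have hjP : u ∈ P j := by rw [hP, mem_miss]; exact ⟨hu, hj⟩
      by_cases hex : ∃ i, i ≠ j ∧ ¬ Rᶜ.Adj (w i) u
      · obtain ⟨i, hij, hi⟩ := hex
        have hiP : u ∈ P i := by rw [hP, mem_miss]; exact ⟨hu, hi⟩
        have : 2 ≤ ∑ j, (if u ∈ P j then 1 else 0) := by
          calc 2 = ∑ j ∈ ({i, j} : Finset _), (if u ∈ P j then 1 else 0) := by
                rw [Finset.sum_pair hij]; simp [hiP, hjP]
            _ ≤ _ := Finset.sum_le_sum_of_subset (Finset.subset_univ _)
        omega
      · push Not at hex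
        have hjV : u ∈ V j := by
          rw [hV, Finset.mem_filter]; exact ⟨hu, hj, hex⟩
        have h5 : 1 ≤ ∑ j, (if u ∈ P j then 1 else 0) := by
          calc 1 = (if u ∈ P j then 1 else 0) := by simp [hjP]
            _ ≤ _ := Finset.single_le_sum (f := fun j => if u ∈ P j then 1 else 0)
              (fun i _ => by positivity) (Finset.mem_univ j)
        have h6 : 1 ≤ ∑ j, (if u ∈ V j then 1 else 0) := by
          calc 1 = (if u ∈ V j then 1 else 0) := by simp [hjV]
            _ ≤ _ := Finset.single_le_sum (f := fun j => if u ∈ V j then 1 else 0)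
              (fun i _ => by positivity) (Finset.mem_univ j)
        omega
  have hVcard : ∀ j, f - 24 * e ≤ ((V j).card : ℝ) := by
    intro j
    have h1 : 2 * (A.card : ℝ) ≤ 2 * (D.card : ℝ) + ∑ j, ((V j).card : ℝ) +
      ∑ j, ((P j).card : ℝ) := by exact_mod_cast hcount
    rw [← Finset.add_sum_erase univ (fun j => ((V j).card : ℝ)) (Finset.mem_univ j)] at h1
    have h2 : ∑ i ∈ univ.erase j, ((V i).card : ℝ) ≤ r0 * (f + e/r + 1) := by
      calc ∑ i ∈ univ.erase j, ((V i).card : ℝ) ≤ ∑ _i ∈ univ.erase j, (f + e/r + 1) := by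
            apply Finset.sum_le_sum
            intro i _
            refine le_trans ?_ (hPcard i)
            exact_mod_cast Finset.card_le_card (hVP i)
        _ = _ := by
          rw [Finset.sum_const, Finset.card_erase_of_mem (Finset.mem_univ _), Finset.card_univ,
            Fintype.card_fin, nsmul_eq_mul]
          simp
    have h3 : ∑ i, ((P i).card : ℝ) ≤ r * (f + e/r + 1) := by
      calc ∑ i, ((P i).card : ℝ) ≤ ∑ _i : Fin (r0+1), (f + e/r + 1) :=
            Finset.sum_le_sum (fun i _ => hPcard i)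
        _ = _ := by
          rw [Finset.sum_const, Finset.card_univ, Fintype.card_fin, nsmul_eq_mul, hr]
          push_cast; ring
    have h4 : r0 * (f + e/r + 1) = n - f + (e - e/r) + (r-1) := by
      rw [hr0]
      have : (r-1) * (f + e/r + 1) = r*f - f + r*(e/r) - e/r + r - 1 := by ring
      rw [this, hfr, hrfe]; ring
    have h5 : r * (f + e/r + 1) = n + e + r := by
      have : r * (f + e/r + 1) = r*f + r*(e/r) + r := by ring
      rw [this, hfr, hrfe]
    rw [h4] at h2
    rw [h5] at h3
    have h6 : 0 < e / r := by positivity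
    linarith
  -- the parts
  set X : Fin (r0+1) → Finset W := fun j => (V j).filter
    (fun u => ((nb Rᶜ (V j) u).card : ℝ) ≤ e) with hX
  have hXV : ∀ j, X j ⊆ V j := fun j => Finset.filter_subset _ _
  have hXcard : ∀ j, ((V j).card : ℝ) - e ≤ ((X j).card : ℝ) := by
    intro j
    set Y := (V j).filter (fun u => ¬ ((nb Rᶜ (V j) u).card : ℝ) ≤ e) with hY
    have h1 : (X j).card + Y.card = (V j).card := Finset.card_filter_add_card_filter_not _
    have h1' : ((X j).card : ℝ) + Y.card = (V j).card := by exact_mod_cast h1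
    have h2 : (Y.card : ℝ) * e ≤ (bad j).card := by
      have h3 : ∑ u ∈ Y, (nb Rᶜ (V j) u).card ≤ (bad j).card := by
        rw [← Finset.card_sigma]
        refine Finset.card_le_card_of_injOn (fun p => (p.1, p.2)) ?_ ?_
        · rintro ⟨u, y⟩ h
          rw [Finset.mem_coe, Finset.mem_sigma] at h
          obtain ⟨hu, hy⟩ := h
          simp only at hu hy
          rw [mem_nb] at hy
          rw [hY, Finset.mem_filter] at hu
          have hu1 := hu.1
          have hy1 := hy.1
          rw [hV, Finset.mem_filter] at hu1 hy1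
          rw [Finset.mem_coe, hbad, mem_badp]
          exact ⟨⟨hu1.1, hy1.1⟩, hy.2, fun i hi => ⟨hu1.2.2 i hi, hy1.2.2 i hi⟩⟩
        · rintro ⟨u, y⟩ _ ⟨u', y'⟩ _ h
          simp only [Prod.mk.injEq] at h
          obtain ⟨rfl, rfl⟩ := h
          rfl
      have h4 : ∑ _u ∈ Y, e ≤ ∑ u ∈ Y, ((nb Rᶜ (V j) u).card : ℝ) := by
        apply Finset.sum_le_sum
        intro u hu
        rw [hY, Finset.mem_filter] at hu
        linarith [not_le.1 hu.2]
      rw [Finset.sum_const, nsmul_eq_mul] at h4
      refine le_trans h4 ?_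
      exact_mod_cast h3
    have h5 : (Y.card : ℝ) ≤ e := by
      have := hbadj j
      by_contra hcon
      push Not at hcon
      nlinarith
    linarith
  have hredV : ∀ j, ∀ u ∈ X j, ((V j).card : ℝ) - e - 1 ≤
      ((nb R (V j) u).card : ℝ) := by
    intro j u hu
    rw [hX, Finset.mem_filter] at hu
    have h1 : (V j).card ≤ (nb Rᶜ (V j) u).card +
        (nb R (V j) u).card + 1 := by
      have : V j ⊆ insert u ((nb Rᶜ (V j) u) ∪
          (nb R (V j) u)) := by
        intro y hy
        rw [Finset.mem_insert, Finset.mem_union, mem_nb, mem_nb,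
          SimpleGraph.compl_adj]
        by_cases h1 : y = u
        · left; exact h1
        · right
          by_cases h2 : R.Adj u y
          · right; exact ⟨hy, h2⟩
          · left; exact ⟨hy, fun h => h1 h.symm, h2⟩
      calc (V j).card ≤ _ := Finset.card_le_card this
        _ ≤ _ := Finset.card_insert_le _ _
        _ ≤ _ := by
          have := Finset.card_union_le (nb Rᶜ (V j) u)
            (nb R (V j) u)
          omega
    have h2 : ((V j).card : ℝ) ≤ ((nb Rᶜ (V j) u).card : ℝ) +
        ((nb R (V j) u).card : ℝ) + 1 := by exact_mod_cast h1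
    linarith [hu.2]
  have e25 : ∀ c : ℝ, (1/r - c/M) * n = f - c * e := by
    intro c; rw [hf, he]; ring
  have e27 : (27:ℝ)/M * n = 27 * e := by rw [he]; ring
  refine ⟨X, fun j => (hXV j).trans (hVA j), ?_, ?_, ?_, ?_, ?_⟩
  · intro i j hij
    exact Finset.disjoint_of_subset_left (hXV i)
      (Finset.disjoint_of_subset_right (hXV j) (hVdisj i j hij))
  · intro j
    rw [e25]
    linarith [hXcard j, hVcard j]
  · intro j u hu
    rw [e27]
    have hu' := hu
    rw [hX, Finset.mem_filter] at hu'
    have h1 : miss R (X j) u ⊆ insert u (nb Rᶜ (V j) u) := by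
      intro y hy
      rw [mem_miss] at hy
      rw [Finset.mem_insert, mem_nb, SimpleGraph.compl_adj]
      by_cases h1 : y = u
      · left; exact h1
      · right; exact ⟨hXV j hy.1, fun h => h1 h.symm, hy.2⟩
    have h2 : (miss R (X j) u).card ≤ (nb Rᶜ (V j) u).card + 1 :=
      (Finset.card_le_card h1).trans (Finset.card_insert_le _ _)
    have h3 : ((miss R (X j) u).card : ℝ) ≤ ((nb Rᶜ (V j) u).card : ℝ) + 1 := by
      exact_mod_cast h2
    linarith [hu'.2]
  · intro j i hij u hu
    rw [e27]
    have hred := hredV j u hu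
    have huV := hXV j hu
    have h1 : (miss Rᶜ (X i) u).card + (nb R (V j) u).card ≤ dg R u := by
      rw [← Finset.card_union_of_disjoint]
      · apply Finset.card_le_card
        intro y hy
        rw [Finset.mem_union, mem_miss, mem_nb, SimpleGraph.compl_adj] at hy
        rw [Finset.mem_filter]
        refine ⟨Finset.mem_univ _, ?_⟩
        rcases hy with ⟨hy1, hy2⟩ | ⟨_, hy2⟩
        · by_contra h
          apply hy2
          refine ⟨?_, h⟩
          rintro rfl
          exact Finset.disjoint_left.1 (hVdisj i j hij) (hXV i hy1) huV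
        · exact hy2
      · rw [Finset.disjoint_left]
        intro y hy hy'
        rw [mem_miss] at hy
        rw [mem_nb] at hy'
        exact Finset.disjoint_left.1 (hVdisj i j hij) (hXV i hy.1) hy'.1
    have h2 : ((miss Rᶜ (X i) u).card : ℝ) + ((nb R (V j) u).card : ℝ) ≤
      (dg R u : ℝ) := by exact_mod_cast h1
    have h3 := hH1 u (hVA j huV)
    linarith [hVcard j]
  · intro j u hu
    rw [e25]
    have hred := hredV j u hu
    have h1 : (nb R (V j) u).card ≤ dg R u := by
      apply Finset.card_le_card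
      exact Finset.filter_subset_filter _ (Finset.subset_univ _)
    have h2 : ((nb R (V j) u).card : ℝ) ≤ (dg R u : ℝ) := by exact_mod_cast h1
    linarith [hVcard j]

end Pool.Agent.Work.MP_333fa2_co
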