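import Pool.Agent.Work.MP_333fa2_co.Count

/-!
A supersaturated Turán estimate and the good clique lemma.
-/

namespace Pool.Agent.Work.MP_333fa2_co

open Finset
open scoped Classical

variable {W : Type*} [Fintype W]

lemma mem_cl' {G : SimpleGraph W} {j : ℕ} {S : Fin j → Finset W} {x : Fin j → W} :
    x ∈ cl G S ↔ (∀ i, x i ∈ S i) ∧ ∀ i l, i ≠ l → G.Adj (x i) (x l) := by
  constructor
  · intro h
    exact ⟨(mem_cl.1 h).1, fun i l hil => cl_adj h hil⟩
  · rintro ⟨h1, h2⟩
    exact mem_cl.2 ⟨h1, fun i l hil => h2 i l hil.ne⟩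

/-- number of ordered non-adjacent pairs -/
noncomputable def nonE (G : SimpleGraph W) (S : Finset W) : ℕ :=
  ∑ x ∈ S, (miss G S x).card

omit [Fintype W] in
lemma nonE_erase (G : SimpleGraph W) (S : Finset W) {v : W} (hv : v ∈ S) :
    nonE G S + 1 = nonE G (S.erase v) + 2 * (miss G S v).card := by
  have h1 : ∀ x ∈ S.erase v, (miss G S x).card =
      (miss G (S.erase v) x).card + (if G.Adj x v then 0 else 1) := by
    intro x hx
    have hS : S = insert v (S.erase v) := (Finset.insert_erase hv).symm
    unfold miss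
    conv_lhs => rw [hS]
    rw [Finset.filter_insert]
    by_cases h : G.Adj x v
    · simp [h]
    · simp only [h, not_false_iff, if_true, if_false]
      rw [Finset.card_insert_of_notMem]
      simp
  have h2 : ∑ x ∈ S.erase v, (if G.Adj x v then 0 else 1) = (miss G (S.erase v) v).card := by
    unfold miss
    rw [Finset.card_filter]
    apply Finset.sum_congr rfl
    intro x _
    by_cases h : G.Adj x v
    · simp [h, h.symm]
    · have h' : ¬ G.Adj v x := fun h' => h h'.symm
      simp [h, h']
  have h3 : (miss G S v).card = (miss G (S.erase v) v).card + 1 := by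
    unfold miss
    have hS : S = insert v (S.erase v) := (Finset.insert_erase hv).symm
    conv_lhs => rw [hS]
    rw [Finset.filter_insert]
    simp only [SimpleGraph.irrefl, not_false_iff, if_true]
    rw [Finset.card_insert_of_notMem]
    simp
  unfold nonE
  rw [← Finset.add_sum_erase S _ hv, Finset.sum_congr rfl h1, Finset.sum_add_distrib, h2]
  omega

/-- A supersaturated, averaged form of Turán's theorem. -/
lemma avg_turan (G : SimpleGraph W) (r : ℕ) (hr : 1 ≤ r) {κ : ℝ} (hκ0 : 0 < κ) (hκ1 : κ ≤ 1)
    (A : Finset W) (hE : (nonE G A : ℝ) ≤ (1-κ) * (A.card : ℝ)^2 / r)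
    (hA : 4 * r / κ^2 ≤ (A.card : ℝ)) :
    (κ^2 * (A.card : ℝ) / 8)^(r+1) ≤ ((cl G (fun _ : Fin (r+1) => A)).card : ℝ) := by
  have hr' : (1:ℝ) ≤ r := by exact_mod_cast hr
  have hrpos : (0:ℝ) < r := by linarith
  set lam : ℝ := (1 - κ/2) / r with hlam
  have hlampos : 0 < lam := by
    rw [hlam]; apply div_pos _ hrpos; linarith
  have hrlam : r * lam = 1 - κ/2 := by
    rw [hlam]; field_simp
  obtain ⟨S, hSmem, hSmax⟩ := Finset.exists_max_image A.powerset
    (fun S => lam * (S.card : ℝ)^2 - (nonE G S : ℝ)) ⟨A, by simp⟩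
  rw [Finset.mem_powerset] at hSmem
  have hApos : 0 < (A.card : ℝ) := by
    have : 0 < 4 * r / κ^2 := by positivity
    linarith
  have h1 := hSmax A (by simp)
  have hgA : κ/2 * (A.card : ℝ)^2 / r ≤ lam * (A.card : ℝ)^2 - (nonE G A : ℝ) := by
    have : lam * (A.card : ℝ)^2 = (1-κ/2) * (A.card : ℝ)^2 / r := by
      rw [hlam]; ring
    rw [this]
    have h2 : (1-κ/2) * (A.card : ℝ)^2 / r - (1-κ) * (A.card : ℝ)^2 / r
      = κ/2 * (A.card : ℝ)^2 / r := by ring
    linarith
  have hS2 : κ/2 * (A.card : ℝ)^2 ≤ (S.card : ℝ)^2 := by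
    have h2 : κ/2 * (A.card : ℝ)^2 / r ≤ lam * (S.card : ℝ)^2 := by
      have : (0:ℝ) ≤ (nonE G S : ℝ) := by positivity
      linarith
    have h3 : κ/2 * (A.card : ℝ)^2 ≤ (r * lam) * (S.card : ℝ)^2 := by
      rw [div_le_iff₀ hrpos] at h2
      linarith
    rw [hrlam] at h3
    have : 0 ≤ κ/2 * (S.card : ℝ)^2 := by positivity
    nlinarith
  have hScard : κ/2 * (A.card : ℝ) ≤ (S.card : ℝ) := by
    apply le_of_sq_le_sq _ (by positivity)
    have : (κ/2 * (A.card : ℝ))^2 ≤ κ/2 * (A.card : ℝ)^2 := by
      have h4 : (κ/2)^2 ≤ κ/2 := by nlinarith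
      calc (κ/2 * (A.card : ℝ))^2 = (κ/2)^2 * (A.card : ℝ)^2 := by ring
        _ ≤ κ/2 * (A.card : ℝ)^2 := mul_le_mul_of_nonneg_right h4 (by positivity)
    linarith
  have hmiss : ∀ v ∈ S, ((miss G S v).card : ℝ) ≤ lam * (S.card : ℝ) + 1/2 := by
    intro v hv
    have h2 := hSmax (S.erase v) (by
      rw [Finset.mem_powerset]
      exact (Finset.erase_subset _ _).trans hSmem)
    have h3 : (nonE G S : ℝ) + 1 = (nonE G (S.erase v) : ℝ) + 2 * ((miss G S v).card : ℝ) := by
      exact_mod_cast nonE_erase G S hv
    have h4 : (((S.erase v).card : ℕ) : ℝ) = (S.card : ℝ) - 1 := by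
      rw [Finset.card_erase_of_mem hv]
      have : 1 ≤ S.card := Finset.card_pos.2 ⟨v, hv⟩
      push_cast [Nat.cast_sub this]
      ring
    rw [h4] at h2
    have h5 : lam * ((S.card : ℝ) - 1)^2 = lam * (S.card : ℝ)^2 - 2 * lam * (S.card : ℝ) + lam := by
      ring
    rw [h5] at h2
    have h6 : 2 * ((miss G S v).card : ℝ) ≤ 2 * lam * (S.card : ℝ) + 1 := by linarith
    linarith
  -- greedy
  have hκS : 2 * r ≤ κ * (S.card : ℝ) := by
    have h2 : κ * (κ/2 * (A.card : ℝ)) ≤ κ * (S.card : ℝ) := mul_le_mul_of_nonneg_left hScard hκ0.le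
    have h3 : 4 * r ≤ κ^2 * (A.card : ℝ) := by
      rw [div_le_iff₀ (by positivity)] at hA
      linarith
    nlinarith
  have hg := gc_const G (q := lam * (S.card : ℝ) + 1/2) (a := κ/4 * (S.card : ℝ))
    (by positivity) (by positivity) r (fun _ => S) (by
      intro _
      have : (r:ℝ) * (lam * (S.card : ℝ) + 1/2) = (r * lam) * (S.card : ℝ) + r/2 := by ring
      rw [this, hrlam]
      nlinarith) (by
      intro i l x hx
      exact hmiss x hx)
  calc (κ^2 * (A.card : ℝ) / 8)^(r+1) ≤ (κ/4 * (S.card : ℝ))^(r+1) := by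
        apply pow_le_pow_left₀ (by positivity)
        nlinarith
    _ ≤ _ := hg
    _ ≤ _ := by
      exact_mod_cast Finset.card_le_card (cl_mono (fun i => hSmem))

/-- common neighbours in `A` -/
noncomputable def comm (G : SimpleGraph W) (A : Finset W) {m : ℕ} (w : Fin m → W) : Finset W :=
  A.filter (fun u => ∀ i, G.Adj (w i) u)

omit [Fintype W] in
lemma mem_comm {G : SimpleGraph W} {A : Finset W} {m : ℕ} {w : Fin m → W} {u : W} :
    u ∈ comm G A w ↔ u ∈ A ∧ ∀ i, G.Adj (w i) u := by
  simp [comm]

/-- adjacent pairs in the common neighbourhood of all `w i`, `i ≠ l` -/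
noncomputable def badp (G : SimpleGraph W) (A : Finset W) {m : ℕ} (w : Fin m → W) (l : Fin m) :
    Finset (W × W) :=
  (A ×ˢ A).filter (fun p => G.Adj p.1 p.2 ∧ ∀ i, i ≠ l → G.Adj (w i) p.1 ∧ G.Adj (w i) p.2)

omit [Fintype W] in
lemma mem_badp {G : SimpleGraph W} {A : Finset W} {m : ℕ} {w : Fin m → W} {l : Fin m}
    {p : W × W} : p ∈ badp G A w l ↔ (p.1 ∈ A ∧ p.2 ∈ A) ∧ G.Adj p.1 p.2 ∧
      ∀ i, i ≠ l → G.Adj (w i) p.1 ∧ G.Adj (w i) p.2 := by
  simp [badp]

/-- Choice of a good clique. -/
lemma good_clique (G : SimpleGraph W) (r : ℕ) (A : Finset W) {q a : ℝ} (hq : 0 ≤ q) (ha : 0 < a)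
    (hA : a + r * q ≤ (A.card : ℝ))
    (hmiss : ∀ x ∈ A, ((miss G A x).card : ℝ) ≤ q) :
    ∃ w ∈ cl G (fun _ : Fin (r+1) => A),
      (((A.card * (comm G A w).card +
        ∑ j : Fin (r+1), (badp G A w j).card : ℕ)) : ℝ) * a^(r+1) ≤
      (((r+2) * A.card * (cl G (fun _ : Fin (r+2) => A)).card : ℕ) : ℝ) := by
  have hcl := gc_const G hq ha.le r (fun _ => A) (fun _ => hA) (fun _ _ x hx => hmiss x hx)
  set CL := cl G (fun _ : Fin (r+1) => A) with hCL
  set CL2 := cl G (fun _ : Fin (r+2) => A) with hCL2
  set F : (Fin (r+1) → W) → ℕ := fun w => A.card * (comm G A w).card +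
        ∑ j : Fin (r+1), (badp G A w j).card with hF
  -- first sum
  have hs1 : ∑ w ∈ CL, (comm G A w).card ≤ CL2.card := by
    rw [← Finset.card_sigma]
    refine Finset.card_le_card_of_injOn (fun p => (Fin.snoc p.1 p.2 : Fin (r+2) → W)) ?_ ?_
    · rintro ⟨w, u⟩ h
      rw [Finset.mem_coe, Finset.mem_sigma] at h
      obtain ⟨hw, hu⟩ := h
      simp only at hw hu
      rw [mem_comm] at hu
      rw [hCL, mem_cl'] at hw
      rw [Finset.mem_coe, hCL2, mem_cl']
      constructor
      · intro i
        refine Fin.lastCases ?_ ?_ i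
        · simpa using hu.1
        · intro i; simpa using hw.1 i
      · intro i l
        refine Fin.lastCases ?_ ?_ i
        · refine Fin.lastCases ?_ ?_ l
          · intro h; exact absurd rfl h
          · intro l _
            simpa using (hu.2 l).symm
        · intro i
          refine Fin.lastCases ?_ ?_ l
          · intro _
            simpa using hu.2 i
          · intro l h
            have : i ≠ l := fun h' => h (by rw [h'])
            simpa using hw.2 i l this
    · rintro ⟨x, y⟩ _ ⟨x', y'⟩ _ h
      simp only at h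
      have h0 := congrFun h (Fin.last _)
      have h1 : x = x' := by
        funext i
        have := congrFun h i.castSucc
        simpa using this
      simp only [Fin.snoc_last] at h0
      subst h0; subst h1
      rfl
  have hs2 : ∀ j : Fin (r+1), ∑ w ∈ CL, (badp G A w j).card ≤ A.card * CL2.card := by
    intro j
    rw [← Finset.card_sigma, ← Finset.card_product]
    refine Finset.card_le_card_of_injOn (fun p => ((p.1 j, (Fin.snoc (Function.update p.1 j p.2.1)
      p.2.2 : Fin (r+2) → W)) : W × (Fin (r+2) → W))) ?_ ?_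
    · rintro ⟨w, u, v⟩ h
      rw [Finset.mem_coe, Finset.mem_sigma] at h
      obtain ⟨hw, hu⟩ := h
      simp only at hw hu
      rw [mem_badp] at hu
      obtain ⟨⟨huA, hvA⟩, huv, hadj⟩ := hu
      simp only at huA hvA huv hadj
      rw [hCL, mem_cl'] at hw
      rw [Finset.mem_coe, Finset.mem_product]
      refine ⟨hw.1 j, ?_⟩
      simp only
      rw [hCL2, mem_cl']
      constructor
      · intro i
        refine Fin.lastCases ?_ ?_ i
        · simpa using hvA
        · intro i
          simp only [Fin.snoc_castSucc]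
          by_cases hij : i = j
          · subst hij; simpa using huA
          · rw [Function.update_of_ne hij]; exact hw.1 i
      · intro i l
        refine Fin.lastCases ?_ ?_ i
        · refine Fin.lastCases ?_ ?_ l
          · intro h; exact absurd rfl h
          · intro l _
            simp only [Fin.snoc_last, Fin.snoc_castSucc]
            by_cases hlj : l = j
            · subst hlj; simpa using huv.symm
            · rw [Function.update_of_ne hlj]; exact (hadj l hlj).2.symm
        · intro i
          refine Fin.lastCases ?_ ?_ l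
          · intro _
            simp only [Fin.snoc_last, Fin.snoc_castSucc]
            by_cases hij : i = j
            · subst hij; simpa using huv
            · rw [Function.update_of_ne hij]; exact (hadj i hij).2
          · intro l h
            have hil : i ≠ l := fun h' => h (by rw [h'])
            simp only [Fin.snoc_castSucc]
            by_cases hij : i = j
            · subst hij
              rw [Function.update_self, Function.update_of_ne hil.symm]
              exact (hadj l hil.symm).1.symm
            · by_cases hlj : l = j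
              · subst hlj
                rw [Function.update_self, Function.update_of_ne hil]
                exact (hadj i hij).1
              · rw [Function.update_of_ne hij, Function.update_of_ne hlj]
                exact hw.2 i l hil
    · rintro ⟨x, u, v⟩ _ ⟨x', u', v'⟩ _ h
      simp only [Prod.mk.injEq] at h
      obtain ⟨hj, h⟩ := h
      have h0 := congrFun h (Fin.last _)
      simp only [Fin.snoc_last] at h0
      have hupd : ∀ i, Function.update x j u i = Function.update x' j u' i := by
        intro i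
        have := congrFun h i.castSucc
        simpa using this
      have hu : u = u' := by simpa using hupd j
      have h1 : x = x' := by
        funext i
        by_cases hij : i = j
        · subst hij; exact hj
        · have := hupd i
          rwa [Function.update_of_ne hij, Function.update_of_ne hij] at this
      subst h0; subst h1; subst hu
      rfl
  have hsum : ∑ w ∈ CL, F w ≤ (r+2) * A.card * CL2.card := by
    rw [hF]
    rw [Finset.sum_add_distrib, ← Finset.mul_sum, Finset.sum_comm]
    have h2 : ∑ j : Fin (r+1), ∑ w ∈ CL, (badp G A w j).card ≤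
          ∑ _j : Fin (r+1), A.card * CL2.card := Finset.sum_le_sum (fun j _ => hs2 j)
    rw [Finset.sum_const, Finset.card_univ, Fintype.card_fin, smul_eq_mul] at h2
    have h3 := Nat.mul_le_mul_left A.card hs1
    calc _ ≤ A.card * CL2.card + (r+1) * (A.card * CL2.card) := Nat.add_le_add h3 h2
      _ = _ := by ring
  by_contra hcon
  push Not at hcon
  have hne : CL.Nonempty := by
    rw [← Finset.card_pos]
    have : (0:ℝ) < a^(r+1) := by positivity
    have h2 : (0:ℝ) < CL.card := by linarith
    exact_mod_cast h2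
  set X : ℝ := (((r+2) * A.card * CL2.card : ℕ) : ℝ) with hX
  have h1 : ∑ _w ∈ CL, X < ∑ w ∈ CL, ((F w : ℕ) : ℝ) * a^(r+1) :=
    Finset.sum_lt_sum_of_nonempty hne hcon
  rw [Finset.sum_const, nsmul_eq_mul, ← Finset.sum_mul] at h1
  have h2 : (∑ w ∈ CL, ((F w : ℕ) : ℝ)) ≤ X := by
    rw [hX]; exact_mod_cast hsum
  have h3 : (∑ w ∈ CL, ((F w : ℕ) : ℝ)) * a^(r+1) ≤ X * a^(r+1) :=
    mul_le_mul_of_nonneg_right h2 (by positivity)
  have h4 : X * a^(r+1) ≤ X * CL.card := mul_le_mul_of_nonneg_left hcl (by rw [hX]; positivity)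
  nlinarith

end Pool.Agent.Work.MP_333fa2_co
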